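import Pool.Agent.HPow.Fre

/-!
# HPow, module Gal: Galois extensions
-/

set_option autoImplicit false
set_option linter.unusedSectionVars false
set_option linter.style.haveILetI false

namespace Pool.Agent.HPow

open Pool.Agent.Helper11 Pool.Agent.Helper83.Bass Pool.Agent.Helper67.Bass Function TensorProduct

section act

variable {S : Type} [CommRing S] {M : Type} [AddCommGroup M] [Module S M] {n : ℕ}

/-- the action of matrices on vectors with entries in a module -/
def gal_act (B : Matrix (Fin n) (Fin n) S) (x : Fin n → M) : Fin n → M := fun i => ∑ j, B i j • x j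

theorem gal_act_mul (B B' : Matrix (Fin n) (Fin n) S) (x : Fin n → M) :
    gal_act (B * B') x = gal_act B (gal_act B' x) := by
  funext i
  simp only [gal_act, Matrix.mul_apply, Finset.sum_smul, Finset.smul_sum, mul_smul]
  rw [Finset.sum_comm]

theorem gal_act_one (x : Fin n → M) : gal_act (1 : Matrix (Fin n) (Fin n) S) x = x := by
  funext i
  simp only [gal_act, Matrix.one_apply]
  rw [Finset.sum_eq_single i]
  · rw [if_pos rfl, one_smul]
  · intro j _ hj
    rw [if_neg (Ne.symm hj), zero_smul]
  · intro h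
    exact absurd (Finset.mem_univ i) h

theorem gal_act_bij (B : Matrix (Fin n) (Fin n) S) (hB : IsUnit B.det) :
    Bijective (gal_act (M := M) B) := by
  have h1 : B * B⁻¹ = 1 := Matrix.mul_nonsing_inv B hB
  have h2 : B⁻¹ * B = 1 := Matrix.nonsing_inv_mul B hB
  refine Function.bijective_iff_has_inverse.2 ⟨gal_act B⁻¹, fun x => ?_, fun x => ?_⟩
  · rw [← gal_act_mul, h2, gal_act_one]
  · rw [← gal_act_mul, h1, gal_act_one]

theorem gal_act_add (B : Matrix (Fin n) (Fin n) S) (x y : Fin n → M) :
    gal_act B (x + y) = gal_act B x + gal_act B y := by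
  funext i
  simp [gal_act, Finset.sum_add_distrib]

end act

variable {R S : Type} [CommRing R] [CommRing S] [Algebra R S]

theorem gal [Module.Finite R S] [Module.Flat R S] {n : ℕ} (z : S)
    (b : Module.Basis (Fin n) R S) (hb : ∀ j, b j = z ^ (j : ℕ)) (σ : Fin n → S ≃ₐ[R] S)
    (hσ : ∀ i j, i ≠ j → IsUnit (σ i z - σ j z)) (x : G0 S) :
    bcG R S (resG R S x) = ∑ i, eqG (σ i : S ≃+* S) x := by
  refine (cl_ext ((bcG R S).comp (resG R S)) (∑ i, eqG (σ i : S ≃+* S)) (fun M => ?_) x).trans
    (AddMonoidHom.finsetSum_apply _ _ _)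
  rw [AddMonoidHom.comp_apply, resG_mk, bcG_mk, AddMonoidHom.finsetSum_apply]
  simp only [surG_mk]
  rw [← mk_pi]
  let A : Matrix (Fin n) (Fin n) S := Matrix.vandermonde (fun i => σ i z)
  have hA : IsUnit A.det := by
    rw [Matrix.det_vandermonde]
    refine Finset.prod_induction _ IsUnit (fun _ _ => IsUnit.mul) isUnit_one fun i _ =>
      Finset.prod_induction _ IsUnit (fun _ _ => IsUnit.mul) isUnit_one fun j hj => hσ _ _ ?_
    exact (Finset.mem_Ioi.1 hj).ne'
  let e1 : (S ⊗[R] (resM R S M)) ≃ₗ[R] (Fin n → resM R S M) :=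
    (TensorProduct.equivFinsuppOfBasisLeft (N := resM R S M) b).trans
      (Finsupp.linearEquivFunOnFinite R (resM R S M) (Fin n))
  have he1 : ∀ (s : S) (m : resM R S M) (j : Fin n), e1 (s ⊗ₜ m) j = b.repr s j • m :=
    fun s m j => TensorProduct.equivFinsuppOfBasisLeft_apply_tmul_apply b s m j
  let e2 : (Fin n → resM R S M) ≃ (Fin n → M) :=
    Equiv.piCongrRight fun _ => (resEquiv R S M).toEquiv
  let N : Fin n → FGMod S := fun i => restr ((σ i : S ≃+* S) : S →+* S) (σ i : S ≃+* S).surjective M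
  let e3 : ∀ i, M ≃+ N i := fun i =>
    (restrEquiv ((σ i : S ≃+* S) : S →+* S) (σ i : S ≃+* S).surjective M).symm
  have he3 : ∀ i (m : M), restrEquiv ((σ i : S ≃+* S) : S →+* S) (σ i : S ≃+* S).surjective M
      (e3 i m) = m := fun i m => AddEquiv.apply_symm_apply _ _
  let Φ : (S ⊗[R] (resM R S M)) → (∀ i, N i) := fun x i => e3 i (gal_act A (e2 (e1 x)) i)
  have hΦadd : ∀ x y, Φ (x + y) = Φ x + Φ y := by
    intro x y
    funext i
    show e3 i (gal_act A (e2 (e1 (x + y))) i) = _
    have h1 : e2 (e1 (x + y)) = e2 (e1 x) + e2 (e1 y) := by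
      rw [map_add]
      rfl
    rw [h1, gal_act_add, Pi.add_apply, map_add]
    rfl
  have hΦt : ∀ (s : S) (m : resM R S M) (i : Fin n),
      Φ (s ⊗ₜ m) i = e3 i (σ i s • resEquiv R S M m) := by
    intro s m i
    show e3 i (gal_act A (e2 (e1 (s ⊗ₜ m))) i) = _
    congr 1
    have h2 : ∀ j, e2 (e1 (s ⊗ₜ m)) j = algebraMap R S (b.repr s j) • resEquiv R S M m := by
      intro j
      show resEquiv R S M (e1 (s ⊗ₜ m) j) = _
      rw [he1, resEquiv_smul]
    simp only [gal_act, h2, ← mul_smul, ← Finset.sum_smul]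
    congr 1
    have h3 : s = ∑ j, b.repr s j • b j := (b.sum_repr s).symm
    conv_rhs => rw [h3]
    rw [map_sum]
    refine Finset.sum_congr rfl (fun j _ => ?_)
    rw [map_smul, hb, map_pow, Algebra.smul_def, mul_comm]
    rfl
  have hΦsmul : ∀ (s : S) (x : S ⊗[R] (resM R S M)), Φ (s • x) = s • Φ x := by
    intro s x
    induction x using TensorProduct.induction_on with
    | zero =>
      rw [smul_zero]
      have h0 : Φ 0 = 0 := by
        have := hΦadd 0 0
        rw [add_zero] at this
        simpa using this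
      rw [h0, smul_zero]
    | tmul s' m =>
      funext i
      rw [TensorProduct.smul_tmul', hΦt, Pi.smul_apply, hΦt]
      apply (restrEquiv ((σ i : S ≃+* S) : S →+* S) (σ i : S ≃+* S).surjective M).injective
      rw [restrEquiv_smul, he3, he3, ← mul_smul, smul_eq_mul, map_mul]
      rfl
    | add x y hx hy => rw [smul_add, hΦadd, hΦadd, hx, hy, smul_add]
  have hbij : Bijective Φ := by
    have h1 : Bijective (fun x : Fin n → M => fun i => e3 i (x i)) :=
      (Equiv.piCongrRight fun i => (e3 i).toEquiv).bijective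
    exact h1.comp ((gal_act_bij A hA).comp (e2.bijective.comp e1.bijective))
  let Ψ : bc R S (resM R S M) →ₗ[S] FGMod.of S (∀ i, N i) :=
    { toFun := Φ, map_add' := hΦadd, map_smul' := hΦsmul }
  exact mk_eq_of_iso (LinearEquiv.ofBijective Ψ hbij)

end Pool.Agent.HPow
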