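import Pool.Agent.HPow.IsoL
import Pool.Agent.HPow.Gal

/-!
# HPow, module Line: the sum over the lines
-/

set_option autoImplicit false
set_option linter.unusedSectionVars false
set_option linter.style.haveILetI false

namespace Pool.Agent.HPow

open Function Polynomial Pool.Agent.Helper11

variable {p m q t : ℕ} {k : Type} [Field k] {W : Type} [CommRing W] [Algebra k W]

theorem line_zero {S : Type} [CommRing S] [Subsingleton S] (x : G0 S) : x = 0 := by
  have h := Helper67.Bass.two3_closure (⊥ : AddSubgroup (G0 S))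
  refine cl_ext (AddMonoidHom.id _) 0 (fun M => ?_) x
  exact AddSubgroup.mem_bot.1 (h.zero M (Module.subsingleton S M))

/-- the sum of the translations of the last coordinate -/
theorem sum_tr (h : Setg p m q t k) [Fintype {b : k // b ^ q + b = 0}] {R : Type} [CommRing R]
    [Algebra k R] (g : R) (σ : {b : k // b ^ q + b = 0} → AS1 q R g ≃+* AS1 q R g)
    (h1 : ∀ b (r : R), σ b (AdjoinRoot.of _ r) = AdjoinRoot.of _ r)
    (h2 : ∀ b, σ b (AdjoinRoot.root _) = AdjoinRoot.root _ +
      AdjoinRoot.of _ (algebraMap k R b.1)) :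
    ∃ (φ : G0 R →+ G0 (AS1 q R g)) (ψ : G0 (AS1 q R g) →+ G0 R),
      ∀ x : G0 (AS1 q R g), φ (ψ x) = ∑ b, eqG (σ b) x := by
  have hq2 := h.q_two_le
  rcases subsingleton_or_nontrivial R with hR | hR
  · haveI : Subsingleton (AS1 q R g) := by
      refine subsingleton_of_zero_eq_one ?_
      rw [← map_zero (AdjoinRoot.of (X ^ q + X - C g)), ← map_one (AdjoinRoot.of (X ^ q + X - C g)),
        Subsingleton.elim (0 : R) 1]
    exact ⟨0, 0, fun x => by rw [line_zero x]; simp⟩
  · have hdeg : (X - C g : R[X]).degree < (q : ℕ) := by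
      rw [degree_X_sub_C]
      exact_mod_cast hq2
    have hf : (X ^ q + X - C g : R[X]) = X ^ q + (X - C g) := add_sub_assoc _ _ _
    have hmon : (X ^ q + X - C g : R[X]).Monic := by
      rw [hf]
      exact monic_X_pow_add hdeg
    have hnat : (X ^ q + X - C g : R[X]).natDegree = q := by
      rw [hf, natDegree_add_eq_left_of_natDegree_lt, natDegree_X_pow]
      rw [natDegree_X_pow, natDegree_X_sub_C]
      omega
    haveI : Module.Finite R (AS1 q R g) := hmon.finite_adjoinRoot
    haveI : Module.Free R (AS1 q R g) := hmon.free_adjoinRoot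
    refine ⟨bcG R (AS1 q R g), resG R (AS1 q R g), fun x => ?_⟩
    let pb := AdjoinRoot.powerBasis' hmon
    have hdim : pb.dim = Fintype.card {b : k // b ^ q + b = 0} := by
      have e1 : pb.dim = (X ^ q + X - C g : R[X]).natDegree := AdjoinRoot.powerBasis'_dim hmon
      rw [e1, hnat, ← Nat.card_eq_fintype_card, h.card_tr]
    let e : Fin pb.dim ≃ {b : k // b ^ q + b = 0} :=
      (finCongr hdim).trans (Fintype.equivFin _).symm
    have hgen : pb.gen = AdjoinRoot.root (X ^ q + X - C g) := AdjoinRoot.powerBasis'_gen hmon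
    let σ' : Fin pb.dim → AS1 q R g ≃ₐ[R] AS1 q R g := fun i =>
      AlgEquiv.ofRingEquiv (f := σ (e i)) (fun r => h1 (e i) r)
    have hb : ∀ j, pb.basis j = (AdjoinRoot.root (X ^ q + X - C g)) ^ (j : ℕ) := by
      intro j
      rw [PowerBasis.basis_eq_pow, hgen]
    have hσ : ∀ i j, i ≠ j → IsUnit (σ' i (AdjoinRoot.root (X ^ q + X - C g)) -
        σ' j (AdjoinRoot.root (X ^ q + X - C g))) := by
      intro i j hij
      have h3 : σ' i (AdjoinRoot.root (X ^ q + X - C g)) -
          σ' j (AdjoinRoot.root (X ^ q + X - C g)) =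
          AdjoinRoot.of _ (algebraMap k R ((e i).1 - (e j).1)) := by
        have e1 : σ' i (AdjoinRoot.root (X ^ q + X - C g)) = _ := h2 (e i)
        have e2 : σ' j (AdjoinRoot.root (X ^ q + X - C g)) = _ := h2 (e j)
        rw [e1, e2, map_sub, map_sub]
        ring
      rw [h3]
      have h4 : (e i).1 - (e j).1 ≠ 0 := by
        intro hcon
        exact hij (e.injective (Subtype.ext (sub_eq_zero.1 hcon)))
      exact ((IsUnit.mk0 _ h4).map (algebraMap k R)).map (AdjoinRoot.of _)
    rw [gal (AdjoinRoot.root (X ^ q + X - C g)) pb.basis hb σ' hσ x]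
    rw [← Equiv.sum_comp e]
    refine Finset.sum_congr rfl fun i _ => ?_
    exact surG_congr _ _ _ _ (fun r => rfl) x

/-- ring homomorphisms from `W[y] / (y ^ q + y - h)` agree if they agree on `W` and `y` -/
theorem line_ext1 {g : W} {B : Type} [CommRing B] (φ ψ : AS1 q W g →+* B)
    (h0 : ∀ w, φ (AdjoinRoot.of _ w) = ψ (AdjoinRoot.of _ w))
    (h1 : φ (AdjoinRoot.root _) = ψ (AdjoinRoot.root _)) (x : AS1 q W g) : φ x = ψ x := by
  have : φ = ψ := by
    refine AdjoinRoot.ringHom_ext ?_ h1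
    exact RingHom.ext h0
  rw [this]

theorem line_eqG {S R Q : Type} [CommRing S] [CommRing R] [CommRing Q] (e : S ≃+* R)
    (e' : Q ≃+* S) (x : G0 R) : eqG e' (eqG e x) = eqG (e'.trans e) x :=
  (surG_surG (e : S →+* R) e.surjective (e' : Q →+* S) e'.surjective x).trans
    (surG_congr _ _ _ _ (fun _ => rfl) x)

theorem line_congr {S R : Type} [CommRing S] [CommRing R] {e e' : S ≃+* R}
    (h : ∀ r, e r = e' r) (x : G0 R) : eqG e x = eqG e' x :=
  surG_congr _ _ _ _ h x

/-- the translation by `b` of the last coordinate of `W[y, z]` -/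
theorem line_tr (h : Setg p m q t k) (f g : W) (b : k) (hb : b ^ q + b = 0) :
    ∃ σ : V2 q W f g ≃+* V2 q W f g,
      (∀ r : AS1 q W f, σ (AdjoinRoot.of _ r) = AdjoinRoot.of _ r) ∧
      σ (AdjoinRoot.root _) = AdjoinRoot.root _ +
        AdjoinRoot.of _ (algebraMap k (AS1 q W f) b) ∧
      (∀ w, σ (w2 q f g w) = w2 q f g w) ∧ σ (y2 q f g) = y2 q f g ∧
      σ (z2 q f g) = z2 q f g + w2 q f g (algebraMap k W b) := by
  have h0 : (0 : k) ^ q + 0 = 0 := by
    have := h.q_two_le
    rw [zero_pow (by omega), add_zero]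
  obtain ⟨σ, h1, h2, h3⟩ := exists_tau2 h f g 0 b h0 hb
  rw [map_zero, map_zero, add_zero] at h2
  refine ⟨σ, ?_, h3, h1, h2, h3⟩
  intro r
  exact line_ext1 ((σ : V2 q W f g →+* V2 q W f g).comp (AdjoinRoot.of _)) (AdjoinRoot.of _)
    h1 h2 r

/-- transport of the sum of the translations of the last coordinate -/
theorem line_sum (h : Setg p m q t k) [Fintype {b : k // b ^ q + b = 0}] (f g f' g' : W)
    (e : V2 q W f' g' ≃+* V2 q W f g) (τ : {b : k // b ^ q + b = 0} → V2 q W f g ≃+* V2 q W f g)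
    (he0 : ∀ w, e (w2 q f' g' w) = w2 q f g w)
    (hτ0 : ∀ b w, τ b (w2 q f g w) = w2 q f g w)
    (hτ1 : ∀ b, τ b (e (y2 q f' g')) = e (y2 q f' g'))
    (hτ2 : ∀ b, τ b (e (z2 q f' g')) = e (z2 q f' g') + w2 q f g (algebraMap k W b.1)) :
    ∃ (φ : G0 (AS1 q W f') →+ G0 (V2 q W f g)) (ψ : G0 (V2 q W f g) →+ G0 (AS1 q W f')),
      ∀ x, φ (ψ x) = ∑ b, eqG (τ b) x := by
  choose σ h1 h2 h3 h4 h5 using fun b : {b : k // b ^ q + b = 0} => line_tr h f' g' b.1 b.2
  obtain ⟨φ, ψ, hφ⟩ := sum_tr h (algebraMap W (AS1 q W f') g') σ h1 h2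
  refine ⟨(eqG e.symm).comp φ, ψ.comp (eqG e), fun x => ?_⟩
  show eqG e.symm (φ (ψ (eqG e x))) = _
  rw [hφ, map_sum]
  refine Finset.sum_congr rfl fun b _ => ?_
  rw [line_eqG, line_eqG]
  refine line_congr (fun r => ?_) x
  show e (σ b (e.symm r)) = τ b r
  have key : ∀ s, e (σ b s) = τ b (e s) := by
    intro s
    refine hom2_ext q ((e : V2 q W f' g' →+* V2 q W f g).comp (σ b : V2 q W f' g' →+* V2 q W f' g'))
      ((τ b : V2 q W f g →+* V2 q W f g).comp (e : V2 q W f' g' →+* V2 q W f g)) ?_ ?_ ?_ s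
    · intro w
      show e (σ b (w2 q f' g' w)) = τ b (e (w2 q f' g' w))
      rw [h3, he0, hτ0]
    · show e (σ b (y2 q f' g')) = τ b (e (y2 q f' g'))
      rw [h4, hτ1]
    · show e (σ b (z2 q f' g')) = τ b (e (z2 q f' g'))
      rw [h5, hτ2, map_add, he0]
  rw [key, e.apply_symm_apply]

/-- the counting identity for the lines -/
theorem line_count (h : Setg p m q t k) [Fintype {b : k // b ^ q + b = 0}]
    [Fintype {c : k // c ^ q = c}] {Γ : Type*} [AddCommGroup Γ]
    (F : {b : k // b ^ q + b = 0} → {b : k // b ^ q + b = 0} → Γ)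
    (o : {b : k // b ^ q + b = 0}) (ho : o.1 = 0)
    (μ : {c : k // c ^ q = c} → {b : k // b ^ q + b = 0} → {b : k // b ^ q + b = 0})
    (hμ : ∀ c b, (μ c b).1 = -(c.1 * b.1)) :
    ∑ c, ∑ b, F (μ c b) b + ∑ a, F a o = q • F o o + ∑ a, ∑ b, F a b := by
  classical
  rw [Finset.sum_comm, Finset.sum_comm (f := fun a b => F a b)]
  have h1 : ∀ b, b ≠ o → ∑ c, F (μ c b) b = ∑ a, F a b := by
    intro b hb
    have hb0 : b.1 ≠ 0 := fun hcon => hb (Subtype.ext (hcon.trans ho.symm))
    have hbij : Bijective (fun c => μ c b) := by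
      constructor
      · intro c c' hcc
        have h2 : (μ c b).1 = (μ c' b).1 := congrArg Subtype.val hcc
        rw [hμ, hμ, neg_inj] at h2
        exact Subtype.ext (mul_right_cancel₀ hb0 h2)
      · intro a
        have h3 : (-(a.1 / b.1)) ^ q = -(a.1 / b.1) := by
          rw [h.neg_pow, h.div_tr a.2 b.2 hb0]
        refine ⟨⟨-(a.1 / b.1), h3⟩, Subtype.ext ?_⟩
        show (μ _ b).1 = a.1
        rw [hμ]
        field_simp
    exact hbij.sum_comp (fun a => F a b)
  have h2 : ∑ c, F (μ c o) o = q • F o o := by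
    have h3 : ∀ c, μ c o = o := by
      intro c
      refine Subtype.ext ?_
      rw [hμ, ho, mul_zero, neg_zero]
    have h4 : Fintype.card {c : k // c ^ q = c} = q := by
      rw [← Nat.card_eq_fintype_card, h.card_fq]
    rw [Finset.sum_congr rfl fun c _ => by rw [h3 c], Finset.sum_const, Finset.card_univ, h4]
  have h5 := Finset.add_sum_erase Finset.univ (fun b => ∑ c, F (μ c b) b) (Finset.mem_univ o)
  have h6 := Finset.add_sum_erase Finset.univ (fun b => ∑ a, F a b) (Finset.mem_univ o)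
  have h7 : ∑ b ∈ Finset.univ.erase o, ∑ c, F (μ c b) b =
      ∑ b ∈ Finset.univ.erase o, ∑ a, F a b :=
    Finset.sum_congr rfl fun b hb => h1 b (Finset.ne_of_mem_erase hb)
  rw [← h5, ← h6, h2, h7]
  abel

/-- the case of two coordinates -/
theorem line_good (h : Setg p m q t k) (f g : W) (h1 : GoodP p (AS1 q W g))
    (h2 : ∀ c : k, c ^ q = c → GoodP p (AS1 q W (f + algebraMap k W c * g))) :
    GoodP p (V2 q W f g) := by
  classical
  haveI := h.finite
  letI : Fintype {b : k // b ^ q + b = 0} := Fintype.ofFinite _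
  letI : Fintype {c : k // c ^ q = c} := Fintype.ofFinite _
  have hq2 := h.q_two_le
  choose E hE0 hE1 hE2 using fun a b : {b : k // b ^ q + b = 0} =>
    exists_tau2 h f g a.1 b.1 a.2 b.2
  let o : {b : k // b ^ q + b = 0} := ⟨0, by rw [zero_pow (by omega), add_zero]⟩
  have ho : o.1 = 0 := rfl
  let μ : {c : k // c ^ q = c} → {b : k // b ^ q + b = 0} → {b : k // b ^ q + b = 0} :=
    fun c b => ⟨-(c.1 * b.1), by
      have e1 : (-(c.1 * b.1)) ^ q = -(c.1 * b.1 ^ q) := by
        rw [h.neg_pow, mul_pow, c.2]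
      have e2 := b.2
      have e3 : b.1 ^ q = -b.1 := by
        rw [eq_neg_iff_add_eq_zero]
        exact e2
      rw [e1, e3]
      ring⟩
  have hμ : ∀ c b, (μ c b).1 = -(c.1 * b.1) := fun c b => rfl
  let z0 : {c : k // c ^ q = c} := ⟨0, by rw [zero_pow (by omega)]⟩
  have hμ0 : ∀ b, μ z0 b = o := fun b => Subtype.ext (by
    show -((0 : k) * b.1) = 0
    rw [zero_mul, neg_zero])
  -- composition
  have hcomp : ∀ a b, ∀ x : G0 (V2 q W f g),
      eqG (E o b) (eqG (E a o) x) = eqG (E a b) x := by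
    intro a b x
    rw [line_eqG]
    refine line_congr (fun r => ?_) x
    show E a o (E o b r) = E a b r
    refine hom2_ext q ((E a o : V2 q W f g →+* V2 q W f g).comp (E o b : V2 q W f g →+* V2 q W f g))
      (E a b : V2 q W f g →+* V2 q W f g) ?_ ?_ ?_ r
    · intro w
      show E a o (E o b (w2 q f g w)) = E a b (w2 q f g w)
      rw [hE0, hE0, hE0]
    · show E a o (E o b (y2 q f g)) = E a b (y2 q f g)
      rw [hE1, hE1, map_add, hE0, hE1, ho, map_zero, map_zero, add_zero]
    · show E a o (E o b (z2 q f g)) = E a b (z2 q f g)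
      rw [hE2, hE2, map_add, hE0, hE2, ho, map_zero, map_zero, add_zero]
  have hone : ∀ x : G0 (V2 q W f g), eqG (E o o) x = x := by
    intro x
    refine surG_id _ _ (fun r => ?_) x
    refine hom2_ext q (E o o : V2 q W f g →+* V2 q W f g) (RingHom.id _) ?_ ?_ ?_ r
    · intro w
      exact hE0 o o w
    · show E o o (y2 q f g) = y2 q f g
      rw [hE1, ho, map_zero, map_zero, add_zero]
    · show E o o (z2 q f g) = z2 q f g
      rw [hE2, ho, map_zero, map_zero, add_zero]
  -- the operators of the lines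
  let hh : Option {c : k // c ^ q = c} → W :=
    fun i => i.elim g (fun c => f + algebraMap k W c.1 * g)
  let Nn : Option {c : k // c ^ q = c} → G0 (V2 q W f g) → G0 (V2 q W f g) :=
    fun i x => i.elim (∑ a, eqG (E a o) x) (fun c => ∑ b, eqG (E (μ c b) b) x)
  have hN : ∀ i, ∃ (φ : G0 (AS1 q W (hh i)) →+ G0 (V2 q W f g))
      (ψ : G0 (V2 q W f g) →+ G0 (AS1 q W (hh i))), ∀ x, φ (ψ x) = Nn i x := by
    intro i
    rcases i with _ | c
    · obtain ⟨e, e0, e1, e2⟩ := exists_swap q f g
      refine line_sum h f g g f e (fun a => E a o) e0 (fun b w => hE0 b o w) ?_ ?_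
      · intro b
        rw [e1, hE2, ho, map_zero, map_zero, add_zero]
      · intro b
        rw [e2, hE1]
    · obtain ⟨e, e0, e1, e2⟩ := exists_line h f g c.1 c.2
      refine line_sum h f g _ g e (fun b => E (μ c b) b) e0 (fun b w => hE0 _ b w) ?_ ?_
      · intro b
        rw [e1, map_add, map_mul, hE0, hE1, hE2, hμ, map_neg, map_neg, map_mul, map_mul]
        ring
      · intro b
        rw [e2, hE2]
  choose φ ψ hφ using hN
  refine GoodP.of_family (ι := Option {c : k // c ^ q = c}) (fun i => AS1 q W (hh i)) φ m ?_ ?_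
  · intro x
    have hid := line_count h (fun a b => eqG (E a b) x) o ho μ hμ
    have hsum : ∑ a, ∑ b, eqG (E a b) x = Nn (some z0) (Nn none x) := by
      show _ = ∑ b, eqG (E (μ z0 b) b) (∑ a, eqG (E a o) x)
      rw [Finset.sum_comm]
      refine Finset.sum_congr rfl fun b _ => ?_
      rw [hμ0, map_sum]
      refine Finset.sum_congr rfl fun a _ => ?_
      rw [hcomp]
    have hid2 : p ^ m • x = ∑ c, Nn (some c) x + Nn none x - Nn (some z0) (Nn none x) := by
      rw [← h.hq, eq_sub_iff_add_eq, ← hsum]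
      have h3 : q • eqG (E o o) x = q • x := by rw [hone]
      rw [← h3]
      exact hid.symm
    rw [hid2]
    have hmem : ∀ i y, Nn i y ∈ ⨆ i, (φ i).range := by
      intro i y
      rw [← hφ]
      exact AddSubgroup.mem_iSup_of_mem i ⟨_, rfl⟩
    exact AddSubgroup.sub_mem _ (AddSubgroup.add_mem _
      (AddSubgroup.sum_mem _ fun c _ => hmem _ _) (hmem _ _)) (hmem _ _)
  · intro i
    rcases i with _ | c
    · exact h1
    · exact h2 c.1 c.2

end Pool.Agent.HPow
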