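import Pool.Agent.HPow.Cl

/-!
# HPow, module Fre: free extensions
-/

set_option autoImplicit false
set_option linter.unusedSectionVars false
set_option linter.style.haveILetI false

namespace Pool.Agent.HPow

open Pool.Agent.Helper11 Pool.Agent.Helper83.Bass Pool.Agent.Helper67.Bass Function TensorProduct

theorem mk_zero {R : Type} [CommRing R] (M : FGMod R) [Subsingleton M] : G0.mk M = 0 :=
  (G0.isAdd_mk (R := R)).zero M (G0.killedBy_bot M)

/-- the class of a finite product -/
theorem mk_pi {R : Type} [CommRing R] {n : ℕ} (N : Fin n → FGMod R) :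
    G0.mk (FGMod.of R (∀ i, N i)) = ∑ i, G0.mk (N i) := by
  induction n with
  | zero =>
    rw [Finset.univ_eq_empty, Finset.sum_empty]
    haveI : Subsingleton (FGMod.of R (∀ i, N i)) := ⟨fun x y => funext fun i => i.elim0⟩
    exact mk_zero _
  | succ n ih =>
    let f : (∀ i : Fin n, N i.succ) →ₗ[R] (∀ i, N i) :=
      { toFun := fun x => Fin.cons 0 x
        map_add' := fun x y => by
          funext i
          refine Fin.cases ?_ (fun j => ?_) i
          · simp
          · simp
        map_smul' := fun r x => by
          funext i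
          refine Fin.cases ?_ (fun j => ?_) i
          · simp
          · simp }
    have hf : ∀ x (j : Fin n), f x j.succ = x j := fun x j => rfl
    have hf0 : ∀ x, f x 0 = 0 := fun x => rfl
    let g : (∀ i, N i) →ₗ[R] N 0 := LinearMap.proj 0
    have h := G0.mk_add (FGMod.of R (∀ i : Fin n, N i.succ)) (FGMod.of R (∀ i, N i)) (N 0) f g
      (fun x y hxy => by
        funext j
        have := congrFun hxy j.succ
        rwa [hf, hf] at this)
      (fun y => ⟨Fin.cons y 0, rfl⟩)
      (fun x => by
        constructor
        · intro hx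
          refine ⟨fun j => x j.succ, ?_⟩
          funext i
          refine Fin.cases ?_ (fun j => ?_) i
          · exact hx.symm
          · rfl
        · rintro ⟨y, rfl⟩
          rfl)
    rw [h, ih (fun i => N i.succ), Fin.sum_univ_succ, add_comm]

variable {p : ℕ} {R S : Type} [CommRing R] [CommRing S] [Algebra R S]

/-- the two module structures agree -/
theorem fre_smul [Module.Finite R S] (M : FGMod R) (r : R) (x : S ⊗[R] M) :
    algebraMap R S r • x = r • x := algebraMap_smul S r x

theorem res_bc_free [Module.Finite R S] [Module.Flat R S] {n : ℕ} (b : Module.Basis (Fin n) R S)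
    (x : G0 R) : resG R S (bcG R S x) = n • x := by
  refine cl_ext ((resG R S).comp (bcG R S)) (nsmulAddMonoidHom n) (fun M => ?_) x
  rw [AddMonoidHom.comp_apply, bcG_mk, resG_mk]
  show _ = n • G0.mk M
  let e : (S ⊗[R] M) ≃ₗ[R] (Fin n → M) :=
    (TensorProduct.equivFinsuppOfBasisLeft (N := M) b).trans
      (Finsupp.linearEquivFunOnFinite R M (Fin n))
  have h1 : G0.mk (resM R S (bc R S M)) = G0.mk (FGMod.of R (Fin n → M)) := by
    refine mk_eq_of_iso
      { (resEquiv R S (bc R S M)).trans e.toAddEquiv with
        map_smul' := fun r x => ?_ }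
    show e (resEquiv R S (bc R S M) (r • x)) = r • e (resEquiv R S (bc R S M) x)
    rw [resEquiv_smul, fre_smul, map_smul]
  rw [h1]
  have h2 := mk_pi (R := R) (fun _ : Fin n => M)
  rw [Finset.sum_const, Finset.card_univ, Fintype.card_fin] at h2
  exact h2

open Polynomial in
theorem GoodP.of_monic (f : R[X]) (hf : f.Monic) (e : ℕ) (hd : f.natDegree = p ^ e)
    (h : GoodP p (AdjoinRoot f)) : GoodP p R := by
  cases subsingleton_or_nontrivial R with
  | inl hR => exact GoodP.of_subsingleton p R
  | inr hR =>
    let pb := AdjoinRoot.powerBasis' hf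
    haveI : Module.Free R (AdjoinRoot f) := Module.Free.of_basis pb.basis
    haveI : Module.Finite R (AdjoinRoot f) := Module.Finite.of_basis pb.basis
    refine GoodP.of_map (resG R (AdjoinRoot f)) e (fun x => ?_) h
    refine ⟨bcG R (AdjoinRoot f) x, ?_⟩
    rw [res_bc_free pb.basis, AdjoinRoot.powerBasis'_dim, hd]

end Pool.Agent.HPow
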