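import Pool.Agent.HPow.Defs

/-!
# HPow, module Loc: localization
-/

set_option autoImplicit false
set_option linter.unusedSectionVars false
set_option linter.style.haveILetI false

namespace Pool.Agent.HPow

open Pool.Agent.Helper11 Pool.Agent.Helper83.Bass Pool.Agent.Helper67.Bass Function TensorProduct

variable {R V : Type} [CommRing R] [CommRing V] [Algebra R V] (s : R)

/-- the subgroup generated by the modules killed by `s` -/
noncomputable def loc_H {R : Type} [CommRing R] (s : R) : AddSubgroup (G0 R) :=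
  AddSubgroup.closure {y | ∃ M : FGMod R, KilledBy (Ideal.span {s}) M ∧ y = G0.mk M}

theorem loc_killed {R : Type} [CommRing R] (s : R) (M : FGMod R)
    (h : KilledBy (Ideal.span {s}) M) : G0.mk M ∈ loc_H s :=
  AddSubgroup.subset_closure ⟨M, h, rfl⟩

theorem loc_tors {R : Type} [CommRing R] [IsNoetherianRing R] (s : R) (M : FGMod R)
    (h : ∀ m : M, ∃ n : ℕ, s ^ n • m = 0) : G0.mk M ∈ loc_H s :=
  tors_all (two3_closure (loc_H s)) s (fun M hM => loc_killed s M hM) M h

theorem loc_map {R : Type} [CommRing R] [IsNoetherianRing R] (s : R) (M N : FGMod R)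
    (f : M →ₗ[R] N) (hk : ∀ m, f m = 0 → ∃ n : ℕ, s ^ n • m = 0)
    (hc : ∀ x, ∃ (n : ℕ) (m : M), s ^ n • x = f m) : G0.mk M - G0.mk N ∈ loc_H s := by
  have hker : G0.mk (FGMod.of R (LinearMap.ker f)) ∈ loc_H s := loc_tors s _ (by
    rintro ⟨m, hm⟩
    obtain ⟨n, hn⟩ := hk m hm
    exact ⟨n, Subtype.ext hn⟩)
  have hcok : G0.mk (FGMod.of R (N ⧸ LinearMap.range f)) ∈ loc_H s := loc_tors s _ (by
    intro x
    obtain ⟨x, rfl⟩ := Submodule.mkQ_surjective _ x
    obtain ⟨n, m, hm⟩ := hc x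
    refine ⟨n, ?_⟩
    rw [← map_smul, Submodule.mkQ_apply, Submodule.Quotient.mk_eq_zero, hm]
    exact ⟨m, rfl⟩)
  have h1 := (G0.isAdd_mk (R := R)).ker_range f (G0.killedBy_bot M)
  have h2 := (G0.isAdd_mk (R := R)).submodule N (LinearMap.range f) (G0.killedBy_bot N)
  rw [h1, h2]
  have : G0.mk (FGMod.of R (LinearMap.ker f)) + G0.mk (FGMod.of R (LinearMap.range f)) -
      (G0.mk (FGMod.of R (LinearMap.range f)) + G0.mk (FGMod.of R (N ⧸ LinearMap.range f))) =
      G0.mk (FGMod.of R (LinearMap.ker f)) - G0.mk (FGMod.of R (N ⧸ LinearMap.range f)) := by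
    abel
  rw [this]
  exact sub_mem hker hcok

theorem loc_lat {R V : Type} [CommRing R] [IsNoetherianRing R] [CommRing V] [Algebra R V] {s : R}
    {X : FGMod V} {E E' : FGMod R} (l : Lat s X E) (l' : Lat s X E') :
    G0.mk E - G0.mk E' ∈ loc_H s := by
  letI : Module R X := Module.compHom X (algebraMap R V)
  have hsm : ∀ (r : R) (x : X), r • x = algebraMap R V r • x := fun _ _ => rfl
  let J : E →ₗ[R] X := { l.j with map_smul' := l.smul }
  let J' : E' →ₗ[R] X := { l'.j with map_smul' := l'.smul }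
  let N : Submodule R X := LinearMap.range J ⊔ LinearMap.range J'
  haveI : Module.Finite R N := by
    haveI h1 : Module.Finite R (LinearMap.range J) := inferInstance
    haveI h2 : Module.Finite R (LinearMap.range J') := inferInstance
    exact Submodule.finite_sup _ _
  let L : FGMod R := FGMod.of R N
  have hpow : ∀ (n : ℕ) (x : X), s ^ n • x = algebraMap R V s ^ n • x := by
    intro n x
    rw [hsm, map_pow]
  have h1 : G0.mk E - G0.mk L ∈ loc_H s := by
    refine loc_map s E L (J.codRestrict N (fun e => Submodule.mem_sup_left ⟨e, rfl⟩)) ?_ ?_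
    · intro e he
      exact l.tors e (congrArg Subtype.val he)
    · rintro ⟨x, hx⟩
      obtain ⟨n, e, hn⟩ := l.abs x
      exact ⟨n, e, Subtype.ext ((hpow n x).trans hn)⟩
  have h2 : G0.mk E' - G0.mk L ∈ loc_H s := by
    refine loc_map s E' L (J'.codRestrict N (fun e => Submodule.mem_sup_right ⟨e, rfl⟩)) ?_ ?_
    · intro e he
      exact l'.tors e (congrArg Subtype.val he)
    · rintro ⟨x, hx⟩
      obtain ⟨n, e, hn⟩ := l'.abs x
      exact ⟨n, e, Subtype.ext ((hpow n x).trans hn)⟩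
  have := sub_mem h1 h2
  rwa [sub_sub_sub_cancel_right] at this

theorem loc_frac [IsLocalization.Away s V] :
    ∀ v : V, ∃ (n : ℕ) (r : R), algebraMap R V s ^ n * v = algebraMap R V r := by
  intro v
  obtain ⟨n, r, hr⟩ := IsLocalization.Away.surj s v
  exact ⟨n, r, by rw [mul_comm]; exact hr⟩

/-- a chosen lattice -/
noncomputable def loc_L [IsNoetherianRing R] [IsLocalization.Away s V] (X : FGMod V) : FGMod R :=
  (exists_lat (R := R) (s := s) (loc_frac s) X).choose

theorem loc_L_lat [IsNoetherianRing R] [IsLocalization.Away s V] (X : FGMod V) :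
    Nonempty (Lat s X (loc_L s X)) :=
  (exists_lat (R := R) (s := s) (loc_frac s) X).choose_spec

theorem loc_eq [IsNoetherianRing R] {X : FGMod V} {E E' : FGMod R} (l : Lat s X E)
    (l' : Lat s X E') : (QuotientAddGroup.mk (G0.mk E) : G0 R ⧸ loc_H s) =
      QuotientAddGroup.mk (G0.mk E') := by
  rw [← sub_eq_zero, ← QuotientAddGroup.mk_sub, QuotientAddGroup.eq_zero_iff]
  exact loc_lat l l'

/-- the map `G₀(V) → G₀(R) ⧸ H` -/
noncomputable def loc_theta [IsNoetherianRing R] [IsLocalization.Away s V] :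
    G0 V →+ G0 R ⧸ loc_H s :=
  G0.lift (fun X => QuotientAddGroup.mk (G0.mk (loc_L s X))) (fun X' X X'' f g hf hg hfg => by
    obtain ⟨l⟩ := loc_L_lat (R := R) s X
    obtain ⟨m'⟩ := loc_L_lat (R := R) s X'
    obtain ⟨m''⟩ := loc_L_lat (R := R) s X''
    obtain ⟨E', E'', a, b, ha, hb, hab, ⟨l'⟩, ⟨l''⟩⟩ := lat_exact hf hg hfg l
    rw [loc_eq s m' l', loc_eq s m'' l'', G0.mk_add E' _ E'' a b ha hb hab]
    rfl)

theorem loc_theta_mk [IsNoetherianRing R] [IsLocalization.Away s V] {X : FGMod V} {E : FGMod R}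
    (l : Lat s X E) : loc_theta s (G0.mk X) = (QuotientAddGroup.mk (G0.mk E) : G0 R ⧸ loc_H s) := by
  obtain ⟨m⟩ := loc_L_lat (R := R) s X
  exact (G0.lift_mk _ _ X).trans (loc_eq s m l)

/-- a module is a lattice in its localization -/
theorem loc_self [IsLocalization.Away s V] (M : FGMod R) : Nonempty (Lat s (bc R V M) M) := by
  haveI : IsLocalizedModule (Submonoid.powers s) (TensorProduct.mk R V M 1) := inferInstance
  exact ⟨
    { j := (TensorProduct.mk R V M 1).toAddMonoidHom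
      smul := fun r e => by
        change (1 : V) ⊗ₜ[R] (r • e) = algebraMap R V r • ((1 : V) ⊗ₜ[R] e)
        rw [TensorProduct.smul_tmul', smul_eq_mul, mul_one, Algebra.algebraMap_eq_smul_one,
          TensorProduct.smul_tmul]
      tors := fun e he => by
        obtain ⟨⟨_, n, rfl⟩, hn⟩ :=
          (IsLocalizedModule.eq_zero_iff (Submonoid.powers s) (TensorProduct.mk R V M 1)).1 he
        exact ⟨n, hn⟩
      abs := fun x => by
        obtain ⟨⟨m, ⟨_, n, rfl⟩⟩, hm⟩ :=
          IsLocalizedModule.surj (Submonoid.powers s) (TensorProduct.mk R V M 1) x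
        refine ⟨n, m, ?_⟩
        change _ = (1 : V) ⊗ₜ[R] m
        have h3 : s ^ n • x = (1 : V) ⊗ₜ[R] m := hm
        rw [← h3, ← map_pow, algebraMap_smul] }⟩

/-- middle exactness of `G₀(R ⧸ s) → G₀(R) → G₀(R[1/s])` -/
theorem loc_exact [IsNoetherianRing R] [IsLocalization.Away s V] [Module.Flat R V] (x : G0 R)
    (hx : bcG R V x = 0) :
    x ∈ AddSubgroup.closure {y | ∃ M : FGMod R, KilledBy (Ideal.span {s}) M ∧ y = G0.mk M} := by
  have key : ∀ x : G0 R, loc_theta (V := V) s (bcG R V x) = (QuotientAddGroup.mk x : G0 R ⧸ loc_H s) := by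
    intro x
    induction x using G0.induction with
    | hz => rw [map_zero, map_zero]; rfl
    | hm M =>
      obtain ⟨l⟩ := loc_self (V := V) s M
      rw [bcG_mk]
      exact loc_theta_mk s l
    | hn x hx => rw [map_neg, map_neg, hx]; rfl
    | ha x y hx hy => rw [map_add, map_add, hx, hy]; rfl
  have h1 := key x
  rw [hx, map_zero] at h1
  exact (QuotientAddGroup.eq_zero_iff _).1 h1.symm

/-- every module over a localization is extended -/
theorem loc_ext [IsLocalization.Away s V] (X : FGMod V) :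
    ∃ E : FGMod R, Nonempty (bc R V E ≃ₗ[V] X) := by
  have hfrac := loc_frac (R := R) (V := V) s
  letI : Module R X := Module.compHom X (algebraMap R V)
  haveI : IsScalarTower R V X := ⟨fun c v m => by
    rw [Algebra.smul_def, mul_smul]; rfl⟩
  obtain ⟨S, hS⟩ := (inferInstance : Module.Finite V X).fg_top
  let N : Submodule R X := Submodule.span R (S : Set X)
  haveI : Module.Finite R N := Module.Finite.iff_fg.mpr ⟨S, rfl⟩
  let E : FGMod R := FGMod.of R N
  let q : bc R V E →ₗ[V] X := LinearMap.liftBaseChange V N.subtype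
  have hq : ∀ (v : V) (n : N), q (v ⊗ₜ[R] n) = v • (n : X) := fun v n => by
    change (LinearMap.liftBaseChange V N.subtype) (v ⊗ₜ[R] n) = _
    rw [LinearMap.liftBaseChange_tmul]
    rfl
  have hsurj : Surjective q := by
    rw [← LinearMap.range_eq_top, eq_top_iff, ← hS, Submodule.span_le]
    intro x hx
    exact ⟨(1 : V) ⊗ₜ[R] (⟨x, Submodule.subset_span hx⟩ : N), by rw [hq, one_smul]⟩
  have hu : IsUnit (algebraMap R V s) := IsLocalization.Away.algebraMap_isUnit s
  have hinj : Injective q := by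
    rw [injective_iff_map_eq_zero]
    intro z hz
    haveI : IsLocalizedModule (Submonoid.powers s) (TensorProduct.mk R V E 1) := inferInstance
    obtain ⟨⟨m, ⟨_, n, rfl⟩⟩, hm⟩ :=
      IsLocalizedModule.surj (Submonoid.powers s) (TensorProduct.mk R V E 1) z
    have h3 : s ^ n • z = (1 : V) ⊗ₜ[R] m := hm
    have h4 : (m : X) = 0 := by
      have := congrArg q h3
      rw [hq, one_smul] at this
      rw [← this, ← algebraMap_smul V (s ^ n) z, map_smul, hz, smul_zero]
    have h5 : m = 0 := Subtype.ext h4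
    rw [h5, TensorProduct.tmul_zero, ← algebraMap_smul V (s ^ n) z, map_pow] at h3
    exact ((hu.pow n).smul_eq_zero).1 h3
  exact ⟨E, ⟨LinearEquiv.ofBijective q ⟨hinj, hsurj⟩⟩⟩

theorem bcG_surj_away [IsNoetherianRing R] [IsLocalization.Away s V] [Module.Flat R V] :
    Surjective (bcG R V) := by
  rw [← AddMonoidHom.range_eq_top, eq_top_iff, ← G0.closure_mk, AddSubgroup.closure_le]
  rintro _ ⟨X, rfl⟩
  obtain ⟨E, ⟨e⟩⟩ := loc_ext (R := R) s X
  exact ⟨G0.mk E, by rw [bcG_mk, mk_eq_of_iso e]⟩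

theorem loc_fg_map {A B : Type 1} [AddCommGroup A] [AddCommGroup B] (φ : A →+ B)
    {Γ : AddSubgroup A} (h : Γ.FG) : (Γ.map φ).FG := by
  rw [AddSubgroup.fg_iff] at h ⊢
  obtain ⟨S, hS, hfin⟩ := h
  exact ⟨φ '' S, by rw [← AddMonoidHom.map_closure, hS], hfin.image _⟩

theorem GoodP.away [IsNoetherianRing R] [IsLocalization.Away s V] {p : ℕ} (h : GoodP p R) :
    GoodP p V := by
  haveI : Module.Flat R V := IsLocalization.flat V (Submonoid.powers s)
  obtain ⟨Γ, hΓ, e, he⟩ := h
  refine ⟨Γ.map (bcG R V), loc_fg_map _ hΓ, e, fun x => ?_⟩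
  obtain ⟨y, rfl⟩ := bcG_surj_away (R := R) s x
  exact ⟨p ^ e • y, he y, map_nsmul _ _ _⟩

theorem GoodP.of_away [IsNoetherianRing R] [IsLocalization.Away s V] {p : ℕ}
    (h1 : GoodP p (R ⧸ Ideal.span {s})) (h2 : GoodP p V) : GoodP p R := by
  haveI : Module.Flat R V := IsLocalization.flat V (Submonoid.powers s)
  obtain ⟨Γ₁, hΓ₁, e₁, he₁⟩ := h1
  obtain ⟨Γ₂, hΓ₂, e₂, he₂⟩ := h2
  rw [AddSubgroup.fg_iff] at hΓ₂
  obtain ⟨S, hS, hfin⟩ := hΓ₂
  let sec : G0 V → G0 R := surjInv (bcG_surj_away (R := R) s)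
  have hsec : ∀ c, bcG R V (sec c) = c := surjInv_eq (bcG_surj_away (R := R) s)
  let Λ : AddSubgroup (G0 R) := AddSubgroup.closure (sec '' S)
  have hΛ : Λ.map (bcG R V) = Γ₂ := by
    rw [AddMonoidHom.map_closure, ← hS, Set.image_image]
    simp only [hsec, Set.image_id']
  have hΛfg : Λ.FG := (AddSubgroup.fg_iff _).2 ⟨_, rfl, hfin.image _⟩
  let π : R →+* R ⧸ Ideal.span {s} := Ideal.Quotient.mk _
  have hπ : Surjective π := Ideal.Quotient.mk_surjective
  refine ⟨Γ₁.map (surG π hπ) ⊔ Λ, (loc_fg_map _ hΓ₁).sup hΛfg, e₁ + e₂, fun x => ?_⟩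
  have hx : p ^ e₂ • bcG R V x ∈ Λ.map (bcG R V) := by rw [hΛ]; exact he₂ _
  obtain ⟨y, hy, hyx⟩ := hx
  have h3 : bcG R V (p ^ e₂ • x - y) = 0 := by rw [map_sub, hyx, map_nsmul, sub_self]
  have h4 := loc_exact (V := V) s _ h3
  have h5 : ∀ z ∈ AddSubgroup.closure {y | ∃ M : FGMod R, KilledBy (Ideal.span {s}) M ∧
      y = G0.mk M}, p ^ e₁ • z ∈ Γ₁.map (surG π hπ) ⊔ Λ := by
    intro z hz
    induction hz using AddSubgroup.closure_induction with
    | mem z h =>
      obtain ⟨M, hM, rfl⟩ := h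
      obtain ⟨N, e, he⟩ := exists_desc π hπ M (by
        show KilledBy (RingHom.ker (Ideal.Quotient.mk (Ideal.span {s}))) M
        rw [Ideal.mk_ker]; exact hM)
      have h6 : G0.mk M = surG π hπ (G0.mk N) := by
        rw [surG_mk]
        exact mk_eq_of_iso
          { e.trans (restrEquiv π hπ N).symm with
            map_smul' := fun t x => he t x }
      rw [h6, ← map_nsmul]
      exact AddSubgroup.mem_sup_left ⟨_, he₁ _, rfl⟩
    | zero => rw [smul_zero]; exact zero_mem _
    | add x y _ _ hx hy => rw [smul_add]; exact add_mem hx hy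
    | neg x _ hx => rw [smul_neg]; exact neg_mem hx
  have h6 := h5 _ h4
  have h7 : p ^ (e₁ + e₂) • x = p ^ e₁ • (p ^ e₂ • x - y) + p ^ e₁ • y := by
    rw [smul_sub, sub_add_cancel, ← mul_smul, pow_add]
  rw [h7]
  exact add_mem h6 (AddSubgroup.nsmul_mem _ (AddSubgroup.mem_sup_right hy) _)

end Pool.Agent.HPow
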