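import Pool.Agent.HPow.Cl

/-!
# HPow, module Spl: split polynomials
-/

set_option autoImplicit false
set_option linter.unusedSectionVars false
set_option linter.style.haveILetI false

namespace Pool.Agent.HPow

open Pool.Agent.Helper11 Pool.Agent.Helper83.Bass Pool.Agent.Helper67.Bass Function Polynomial

variable {p : ℕ} {U : Type} [CommRing U]

/-- one step: a product of two polynomials -/
theorem spl_mul [IsNoetherianRing U] (F G : U[X]) (hF : GoodP p (U[X] ⧸ Ideal.span {F}))
    (hG : GoodP p (U[X] ⧸ Ideal.span {G})) : GoodP p (U[X] ⧸ Ideal.span {F * G}) := by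
  have hle1 : Ideal.span {F * G} ≤ Ideal.span {F} := by
    rw [Ideal.span_singleton_le_span_singleton]
    exact dvd_mul_right _ _
  have hle2 : Ideal.span {F * G} ≤ Ideal.span {G} := by
    rw [Ideal.span_singleton_le_span_singleton]
    exact dvd_mul_left _ _
  refine GoodP.of_mul
    (I := (Ideal.span {F}).map (Ideal.Quotient.mk (Ideal.span {F * G})))
    (J := (Ideal.span {G}).map (Ideal.Quotient.mk (Ideal.span {F * G}))) ?_ ?_ ?_
  · rw [← Ideal.map_mul, Ideal.span_singleton_mul_span_singleton, Ideal.map_quotient_self]
  · exact GoodP.of_equiv (DoubleQuot.quotQuotEquivQuotOfLE hle1).symm hF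
  · exact GoodP.of_equiv (DoubleQuot.quotQuotEquivQuotOfLE hle2).symm hG

theorem GoodP.split [IsNoetherianRing U] (hU : GoodP p U) (m : Multiset U) :
    GoodP p (U[X] ⧸ Ideal.span {(m.map fun θ => X - C θ).prod}) := by
  induction m using Multiset.induction_on with
  | empty =>
    haveI : Subsingleton
        (U[X] ⧸ Ideal.span {((0 : Multiset U).map fun θ => X - C θ).prod}) := by
      rw [Ideal.Quotient.subsingleton_iff, Multiset.map_zero, Multiset.prod_zero,
        Ideal.span_singleton_one]
    exact GoodP.of_subsingleton p _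
  | cons θ m ih =>
    rw [Multiset.map_cons, Multiset.prod_cons]
    refine spl_mul _ _ ?_ ih
    exact GoodP.of_equiv (Polynomial.quotientSpanXSubCAlgEquiv θ).toRingEquiv.symm hU

/-- `F` is a product of linear factors -/
theorem GoodP.split' [IsNoetherianRing U] (hU : GoodP p U) (F : U[X]) (m : Multiset U)
    (hF : F = (m.map fun θ => X - C θ).prod) : GoodP p (AdjoinRoot F) := by
  rw [hF]
  exact GoodP.split hU m

end Pool.Agent.HPow
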