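import Pool.Agent.HPow.Fq

/-!
# HPow, module IsoL: the ring `W[y, z] / (y ^ q + y - f, z ^ q + z - g)`
-/

set_option autoImplicit false
set_option linter.unusedSectionVars false
set_option linter.style.haveILetI false

namespace Pool.Agent.HPow

open Function Polynomial

variable {p m q t : ℕ} {k : Type} [Field k] {W : Type} [CommRing W] [Algebra k W]

/-- `W[y, z] / (y ^ q + y - f, z ^ q + z - g)` -/
abbrev V2 (q : ℕ) (W : Type) [CommRing W] (f g : W) : Type :=
  AS1 q (AS1 q W f) (algebraMap W (AS1 q W f) g)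

/-- the structure map -/
noncomputable def w2 (q : ℕ) {W : Type} [CommRing W] (f g : W) : W →+* V2 q W f g :=
  (AdjoinRoot.of _).comp (AdjoinRoot.of _)
/-- the element `y` -/
noncomputable def y2 (q : ℕ) {W : Type} [CommRing W] (f g : W) : V2 q W f g :=
  AdjoinRoot.of _ (AdjoinRoot.root _)
/-- the element `z` -/
noncomputable def z2 (q : ℕ) {W : Type} [CommRing W] (f g : W) : V2 q W f g :=
  AdjoinRoot.root _

/-- the equation of the root -/
theorem isol_root (q : ℕ) {W : Type} [CommRing W] (h : W) :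
    (AdjoinRoot.root (X ^ q + X - C h : W[X])) ^ q + AdjoinRoot.root (X ^ q + X - C h : W[X]) =
      AdjoinRoot.of (X ^ q + X - C h : W[X]) h := by
  have h1 := AdjoinRoot.eval₂_root (X ^ q + X - C h : W[X])
  rw [eval₂_sub, eval₂_add, eval₂_pow, eval₂_X, eval₂_C] at h1
  exact sub_eq_zero.mp h1

/-- homomorphisms from `W[y] / (y ^ q + y - h)` -/
theorem isol_ext1 {W : Type} [CommRing W] {P : W[X]} {B : Type} [CommRing B]
    (φ ψ : AdjoinRoot P →+* B) (h0 : ∀ w, φ (AdjoinRoot.of P w) = ψ (AdjoinRoot.of P w))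
    (h1 : φ (AdjoinRoot.root P) = ψ (AdjoinRoot.root P)) (x : AdjoinRoot P) : φ x = ψ x := by
  have h2 : (φ.comp (AdjoinRoot.mk P)) = (ψ.comp (AdjoinRoot.mk P)) := by
    refine Polynomial.ringHom_ext (fun a => ?_) ?_
    · show φ (AdjoinRoot.mk P (C a)) = ψ (AdjoinRoot.mk P (C a))
      rw [AdjoinRoot.mk_C]
      exact h0 a
    · show φ (AdjoinRoot.mk P X) = ψ (AdjoinRoot.mk P X)
      rw [AdjoinRoot.mk_X]
      exact h1
  obtain ⟨x, rfl⟩ := AdjoinRoot.mk_surjective x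
  exact DFunLike.congr_fun h2 x

theorem y2_eq (q : ℕ) (f g : W) : y2 q f g ^ q + y2 q f g = w2 q f g f := by
  unfold y2 w2
  rw [← map_pow, ← map_add, isol_root]
  rfl

theorem z2_eq (q : ℕ) (f g : W) : z2 q f g ^ q + z2 q f g = w2 q f g g := by
  unfold z2 w2
  rw [isol_root]
  rfl

/-- homomorphisms agree if they agree on `W`, `y`, `z` -/
theorem hom2_ext (q : ℕ) {f g : W} {B : Type} [CommRing B] (φ ψ : V2 q W f g →+* B)
    (h0 : ∀ w, φ (w2 q f g w) = ψ (w2 q f g w)) (h1 : φ (y2 q f g) = ψ (y2 q f g))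
    (h2 : φ (z2 q f g) = ψ (z2 q f g)) (x : V2 q W f g) : φ x = ψ x := by
  refine isol_ext1 φ ψ (fun w => ?_) h2 x
  exact isol_ext1 (φ.comp (AdjoinRoot.of _)) (ψ.comp (AdjoinRoot.of _)) h0 h1 w

/-- existence of homomorphisms -/
theorem hom2_exists (q : ℕ) {f g : W} {B : Type} [CommRing B] (ω : W →+* B) (y z : B)
    (hy : y ^ q + y = ω f) (hz : z ^ q + z = ω g) :
    ∃ φ : V2 q W f g →+* B, (∀ w, φ (w2 q f g w) = ω w) ∧ φ (y2 q f g) = y ∧
      φ (z2 q f g) = z := by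
  have e1 : (X ^ q + X - C f : W[X]).eval₂ ω y = 0 := by
    rw [eval₂_sub, eval₂_add, eval₂_pow, eval₂_X, eval₂_C, hy, sub_self]
  obtain ⟨φ1, hφ1⟩ : ∃ φ1 : AS1 q W f →+* B, φ1 = AdjoinRoot.lift ω y e1 := ⟨_, rfl⟩
  have a1 : ∀ w, φ1 (AdjoinRoot.of _ w) = ω w := fun w => by
    rw [hφ1, AdjoinRoot.lift_of]
  have a2 : φ1 (AdjoinRoot.root _) = y := by
    rw [hφ1, AdjoinRoot.lift_root]
  have e2 : (X ^ q + X - C (algebraMap W (AS1 q W f) g) : (AS1 q W f)[X]).eval₂ φ1 z = 0 := by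
    rw [eval₂_sub, eval₂_add, eval₂_pow, eval₂_X, eval₂_C, AdjoinRoot.algebraMap_eq, a1, hz,
      sub_self]
  refine ⟨AdjoinRoot.lift φ1 z e2, fun w => ?_, ?_, ?_⟩
  · show AdjoinRoot.lift φ1 z e2 (AdjoinRoot.of _ (AdjoinRoot.of _ w)) = ω w
    rw [AdjoinRoot.lift_of, a1]
  · show AdjoinRoot.lift φ1 z e2 (AdjoinRoot.of _ (AdjoinRoot.root _)) = y
    rw [AdjoinRoot.lift_of, a2]
  · show AdjoinRoot.lift φ1 z e2 (AdjoinRoot.root _) = z
    rw [AdjoinRoot.lift_root]

/-- inverse homomorphisms -/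
theorem isol_equiv (q : ℕ) {f g f' g' : W} (φ : V2 q W f g →+* V2 q W f' g')
    (ψ : V2 q W f' g' →+* V2 q W f g) (h0 : ∀ w, φ (w2 q f g w) = w2 q f' g' w)
    (h0' : ∀ w, ψ (w2 q f' g' w) = w2 q f g w) (h1 : ψ (φ (y2 q f g)) = y2 q f g)
    (h2 : ψ (φ (z2 q f g)) = z2 q f g) (h1' : φ (ψ (y2 q f' g')) = y2 q f' g')
    (h2' : φ (ψ (z2 q f' g')) = z2 q f' g') :
    ∃ e : V2 q W f g ≃+* V2 q W f' g', ∀ x, e x = φ x := by
  refine ⟨RingEquiv.ofRingHom φ ψ (RingHom.ext fun x => ?_) (RingHom.ext fun x => ?_),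
    fun x => rfl⟩
  · exact hom2_ext q (φ.comp ψ) (RingHom.id _) (fun w => by
      rw [RingHom.comp_apply, h0', h0, RingHom.id_apply]) h1' h2' x
  · exact hom2_ext q (ψ.comp φ) (RingHom.id _) (fun w => by
      rw [RingHom.comp_apply, h0, h0', RingHom.id_apply]) h1 h2 x

/-- translations, the homomorphism -/
theorem isol_tau (h : Setg p m q t k) (f g : W) (a b : k) (ha : a ^ q + a = 0)
    (hb : b ^ q + b = 0) : ∃ φ : V2 q W f g →+* V2 q W f g, (∀ w, φ (w2 q f g w) = w2 q f g w) ∧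
      φ (y2 q f g) = y2 q f g + w2 q f g (algebraMap k W a) ∧
      φ (z2 q f g) = z2 q f g + w2 q f g (algebraMap k W b) := by
  have hc : ∀ c : k, c ^ q + c = 0 → (w2 q f g (algebraMap k W c)) ^ q +
      w2 q f g (algebraMap k W c) = 0 := by
    intro c hc
    rw [← map_pow, ← map_pow, ← map_add, ← map_add, hc, map_zero, map_zero]
  refine hom2_exists q (w2 q f g) _ _ ?_ ?_
  · rw [h.add_pow, ← y2_eq]
    have := hc a ha
    linear_combination this
  · rw [h.add_pow, ← z2_eq]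
    have := hc b hb
    linear_combination this

/-- translations -/
theorem exists_tau2 (h : Setg p m q t k) (f g : W) (a b : k) (ha : a ^ q + a = 0)
    (hb : b ^ q + b = 0) : ∃ e : V2 q W f g ≃+* V2 q W f g, (∀ w, e (w2 q f g w) = w2 q f g w) ∧
      e (y2 q f g) = y2 q f g + w2 q f g (algebraMap k W a) ∧
      e (z2 q f g) = z2 q f g + w2 q f g (algebraMap k W b) := by
  have hn : ∀ c : k, c ^ q + c = 0 → (-c) ^ q + -c = 0 := by
    intro c hc
    rw [h.neg_pow, ← neg_add, hc, neg_zero]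
  obtain ⟨φ, h0, h1, h2⟩ := isol_tau h f g a b ha hb
  obtain ⟨ψ, h0', h1', h2'⟩ := isol_tau h f g (-a) (-b) (hn a ha) (hn b hb)
  rw [map_neg, map_neg] at h1' h2'
  obtain ⟨e, he⟩ := isol_equiv q φ ψ h0 h0'
    (by rw [h1, map_add, h1', h0', neg_add_cancel_right])
    (by rw [h2, map_add, h2', h0', neg_add_cancel_right])
    (by rw [h1', map_add, map_neg, h1, h0, add_neg_cancel_right])
    (by rw [h2', map_add, map_neg, h2, h0, add_neg_cancel_right])
  exact ⟨e, fun w => by rw [he, h0], by rw [he, h1], by rw [he, h2]⟩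

/-- change of the first coordinate -/
theorem exists_line (h : Setg p m q t k) (f g : W) (c : k) (hc : c ^ q = c) :
    ∃ e : V2 q W (f + algebraMap k W c * g) g ≃+* V2 q W f g,
      (∀ w, e (w2 q _ _ w) = w2 q f g w) ∧
      e (y2 q _ _) = y2 q f g + w2 q f g (algebraMap k W c) * z2 q f g ∧
      e (z2 q _ _) = z2 q f g := by
  have hcq : ∀ f' g' : W, (w2 q f' g' (algebraMap k W c)) ^ q = w2 q f' g' (algebraMap k W c) := by
    intro f' g'
    rw [← map_pow, ← map_pow, hc]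
  obtain ⟨φ, h0, h1, h2⟩ := hom2_exists q (f := f + algebraMap k W c * g) (g := g) (w2 q f g)
    (y2 q f g + w2 q f g (algebraMap k W c) * z2 q f g) (z2 q f g)
    (by
      rw [h.add_pow, mul_pow, hcq, map_add, map_mul, ← y2_eq, ← z2_eq]
      ring)
    (z2_eq q f g)
  obtain ⟨ψ, h0', h1', h2'⟩ := hom2_exists q (f := f) (g := g)
    (w2 q (f + algebraMap k W c * g) g)
    (y2 q (f + algebraMap k W c * g) g - w2 q (f + algebraMap k W c * g) g (algebraMap k W c) *
      z2 q (f + algebraMap k W c * g) g) (z2 q (f + algebraMap k W c * g) g)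
    (by
      have e1 := y2_eq q (f + algebraMap k W c * g) g
      have e2 := z2_eq q (f + algebraMap k W c * g) g
      have e3 : ∀ F : W, w2 q F g (f + algebraMap k W c * g) =
          w2 q F g f + w2 q F g (algebraMap k W c) * w2 q F g g := fun F => by
        rw [map_add, map_mul]
      have e4 := e3 (f + algebraMap k W c * g)
      rw [h.sub_pow, mul_pow, hcq]
      linear_combination e1 - w2 q (f + algebraMap k W c * g) g (algebraMap k W c) * e2 + e4)
    (z2_eq q (f + algebraMap k W c * g) g)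
  obtain ⟨e, he⟩ := isol_equiv q φ ψ h0 h0'
    (by rw [h1, map_add, map_mul, h1', h0', h2', sub_add_cancel])
    (by rw [h2, h2'])
    (by rw [h1', map_sub, map_mul, h1, h0, h2, add_sub_cancel_right])
    (by rw [h2', h2])
  exact ⟨e, fun w => by rw [he, h0], by rw [he, h1], by rw [he, h2]⟩

/-- interchange of the coordinates -/
theorem exists_swap (q : ℕ) (f g : W) : ∃ e : V2 q W g f ≃+* V2 q W f g,
      (∀ w, e (w2 q _ _ w) = w2 q f g w) ∧ e (y2 q _ _) = z2 q f g ∧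
      e (z2 q _ _) = y2 q f g := by
  obtain ⟨φ, h0, h1, h2⟩ := hom2_exists q (f := g) (g := f) (w2 q f g) (z2 q f g) (y2 q f g)
    (z2_eq q f g) (y2_eq q f g)
  obtain ⟨ψ, h0', h1', h2'⟩ := hom2_exists q (f := f) (g := g) (w2 q g f) (z2 q g f) (y2 q g f)
    (z2_eq q g f) (y2_eq q g f)
  obtain ⟨e, he⟩ := isol_equiv q φ ψ h0 h0' (by rw [h1, h2']) (by rw [h2, h1'])
    (by rw [h1', h2]) (by rw [h2', h1])
  exact ⟨e, fun w => by rw [he, h0], by rw [he, h1], by rw [he, h2]⟩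

end Pool.Agent.HPow
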