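import Pool.Agent.Helper67.Bass.Main1

/-!
# Powers of the Hermitian curve: definitions
-/

set_option autoImplicit false
set_option linter.unusedSectionVars false
set_option linter.style.haveILetI false

namespace Pool.Agent.HPow

open Pool.Agent.Helper11 Pool.Agent.Helper83.Bass Pool.Agent.Helper67.Bass Function TensorProduct

/-- `p ^ e • G₀(R)` is contained in a finitely generated subgroup of `G₀(R)` for some `e`. -/
def GoodP (p : ℕ) (R : Type) [CommRing R] : Prop :=
  ∃ Γ : AddSubgroup (G0 R), Γ.FG ∧ ∃ e : ℕ, ∀ x : G0 R, p ^ e • x ∈ Γ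

section maps

/-- base change along a flat algebra -/
noncomputable def bcG (R S : Type) [CommRing R] [CommRing S] [Algebra R S] [Module.Flat R S] :
    G0 R →+ G0 S :=
  G0h.hom (fun M => G0.mk (bc R S M)) (fun M' M M'' e => by
    obtain ⟨e'⟩ := exactF_baseChange (R := R) (A := S) M' M M'' e
    exact G0.mk_add _ _ _ e'.f e'.g e'.inj e'.surj e'.exact)

theorem bcG_mk (R S : Type) [CommRing R] [CommRing S] [Algebra R S] [Module.Flat R S]
    (M : FGMod R) : bcG R S (G0.mk M) = G0.mk (bc R S M) := G0h.hom_mk _ _ M

/-- restriction of scalars along a finite algebra, for modules -/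
noncomputable def resM (R S : Type) [CommRing R] [CommRing S] [Algebra R S] [Module.Finite R S]
    (M : FGMod S) : FGMod R :=
  letI : Module R M := Module.compHom M (algebraMap R S)
  haveI : IsScalarTower R S M := ⟨fun c v m => by rw [Algebra.smul_def, mul_smul]; rfl⟩
  haveI : Module.Finite R M := Module.Finite.trans S M
  FGMod.of R M

/-- the identity map -/
noncomputable def resEquiv (R S : Type) [CommRing R] [CommRing S] [Algebra R S]
    [Module.Finite R S] (M : FGMod S) : resM R S M ≃+ M := AddEquiv.refl _

theorem resEquiv_smul (R S : Type) [CommRing R] [CommRing S] [Algebra R S] [Module.Finite R S]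
    (M : FGMod S) (r : R) (x : resM R S M) :
    resEquiv R S M (r • x) = algebraMap R S r • resEquiv R S M x := rfl

theorem exactF_resM (R S : Type) [CommRing R] [CommRing S] [Algebra R S] [Module.Finite R S] :
    ExactF (resM R S) := fun M' M M'' e => ⟨
  { f := { toFun := fun x => (resEquiv R S M).symm (e.f (resEquiv R S M' x))
           map_add' := fun x y => by simp
           map_smul' := fun s x => by
            rw [resEquiv_smul, map_smul]
            rfl }
    g := { toFun := fun x => (resEquiv R S M'').symm (e.g (resEquiv R S M x))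
           map_add' := fun x y => by simp
           map_smul' := fun s x => by
            rw [resEquiv_smul, map_smul]
            rfl }
    inj := fun x y h => e.inj h
    surj := fun x => e.surj x
    exact := fun x => e.exact x }⟩

/-- restriction of scalars along a finite algebra -/
noncomputable def resG (R S : Type) [CommRing R] [CommRing S] [Algebra R S]
    [Module.Finite R S] : G0 S →+ G0 R :=
  G0h.hom (fun M => G0.mk (resM R S M)) (fun M' M M'' e => by
    obtain ⟨e'⟩ := exactF_resM R S M' M M'' e
    exact G0.mk_add _ _ _ e'.f e'.g e'.inj e'.surj e'.exact)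

theorem resG_mk (R S : Type) [CommRing R] [CommRing S] [Algebra R S] [Module.Finite R S]
    (M : FGMod S) : resG R S (G0.mk M) = G0.mk (resM R S M) := G0h.hom_mk _ _ M

/-- restriction along a surjective ring homomorphism -/
noncomputable def surG {S R : Type} [CommRing S] [CommRing R] (π : S →+* R)
    (hπ : Surjective π) : G0 R →+ G0 S :=
  G0h.hom (fun M => G0.mk (restr π hπ M)) (fun M' M M'' e => by
    obtain ⟨e'⟩ := exactF_restr π hπ M' M M'' e
    exact G0.mk_add _ _ _ e'.f e'.g e'.inj e'.surj e'.exact)

theorem surG_mk {S R : Type} [CommRing S] [CommRing R] (π : S →+* R) (hπ : Surjective π)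
    (M : FGMod R) : surG π hπ (G0.mk M) = G0.mk (restr π hπ M) := G0h.hom_mk _ _ M

/-- restriction along a ring isomorphism `e : S ≃+* R`, a map `G₀(R) → G₀(S)` -/
noncomputable abbrev eqG {S R : Type} [CommRing S] [CommRing R] (e : S ≃+* R) : G0 R →+ G0 S :=
  surG (e : S →+* R) e.surjective

end maps

/-! ### the rings -/

open Polynomial in
/-- `W[y] / (y ^ q + y - h)` -/
abbrev AS1 (q : ℕ) (W : Type) [CommRing W] (h : W) : Type := AdjoinRoot (X ^ q + X - C h)

open MvPolynomial in
/-- `W[y₁, …, y_s] / (y_i ^ q + y_i - f_i)` -/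
abbrev AS (q : ℕ) (W : Type) [CommRing W] {s : ℕ} (f : Fin s → W) : Type :=
  MvPolynomial (Fin s) W ⧸ Ideal.span (Set.range fun i => X i ^ q + X i - C (f i))

open Polynomial in
/-- the polynomial `h + b x ^ (q + 1)` over `W` -/
noncomputable abbrev ext {k : Type} [Field k] (q : ℕ) {W : Type} [CommRing W] [Algebra k W]
    (h : W) (b : k) : W[X] := C h + C (algebraMap k W b) * X ^ (q + 1)

open MvPolynomial in
/-- The coordinate ring `k[y₁, …, y_s, x₁, …, x_n] / (y_i ^ q + y_i - ∑ a_ij x_j ^ (q + 1))`. -/
abbrev HermRing (q : ℕ) {k : Type} [Field k] {s n : ℕ} (a : Fin s → Fin n → k) : Type :=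
  MvPolynomial (Fin s ⊕ Fin n) k ⧸ Ideal.span (Set.range fun i =>
    X (Sum.inl i) ^ q + X (Sum.inl i) - ∑ j, C (a i j) * X (Sum.inr j) ^ (q + 1))

/-- the setting: `k` is a field with `q ^ (2 t)` elements, `q = p ^ m` -/
structure Setg (p m q t : ℕ) (k : Type) [Field k] : Prop where
  hp : p.Prime
  hm : 1 ≤ m
  hq : q = p ^ m
  ht : 1 ≤ t
  card : Nat.card k = q ^ (2 * t)

end Pool.Agent.HPow
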