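import Pool.Agent.HPow.Line

/-!
# HPow, module ASr: several Artin-Schreier equations
-/

set_option autoImplicit false
set_option linter.unusedSectionVars false
set_option linter.style.haveILetI false

namespace Pool.Agent.HPow

open Function Polynomial Pool.Agent.Helper11

variable {p m q t : ℕ} {k : Type} [Field k] {W : Type} [CommRing W] [Algebra k W]

/-- transport of structure -/
theorem AS1.exists_congr (q : ℕ) {R R' : Type} [CommRing R] [CommRing R'] (e : R ≃+* R') (h : R) :
    Nonempty (AS1 q R h ≃+* AS1 q R' (e h)) := by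
  refine ⟨AdjoinRoot.mapRingEquiv e _ _ ?_⟩
  have h1 : (X ^ q + X - C h : R[X]).map (e : R →+* R') = X ^ q + X - C (e h) := by simp
  rw [h1]

/-- the coordinates -/
noncomputable def asr_X (q : ℕ) {W : Type} [CommRing W] {s : ℕ} (f : Fin s → W) (i : Fin s) :
    AS q W f := Ideal.Quotient.mk _ (MvPolynomial.X i)

theorem asr_ext {W : Type} [CommRing W] {s : ℕ} {f : Fin s → W} {B : Type} [CommRing B]
    (φ ψ : AS q W f →+* B)
    (h0 : ∀ w, φ (algebraMap W _ w) = ψ (algebraMap W _ w))
    (h1 : ∀ i, φ (asr_X q f i) = ψ (asr_X q f i)) : φ = ψ := by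
  apply Ideal.Quotient.ringHom_ext
  apply MvPolynomial.ringHom_ext
  · exact h0
  · exact h1

theorem asr_eq {W : Type} [CommRing W] {s : ℕ} (f : Fin s → W) (i : Fin s) :
    asr_X q f i ^ q + asr_X q f i = algebraMap W _ (f i) := by
  have h1 : (Ideal.Quotient.mk (Ideal.span (Set.range fun i : Fin s =>
      (MvPolynomial.X i ^ q + MvPolynomial.X i - MvPolynomial.C (f i) : MvPolynomial (Fin s) W))))
      (MvPolynomial.X i ^ q + MvPolynomial.X i - MvPolynomial.C (f i)) = 0 :=
    Ideal.Quotient.eq_zero_iff_mem.2 (Ideal.subset_span ⟨i, rfl⟩)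
  rw [map_sub, map_add, map_pow, sub_eq_zero] at h1
  exact h1

theorem asr_exists {W : Type} [CommRing W] {s : ℕ} {f : Fin s → W} {B : Type} [CommRing B]
    (ω : W →+* B) (y : Fin s → B) (hy : ∀ i, y i ^ q + y i = ω (f i)) :
    ∃ φ : AS q W f →+* B, (∀ w, φ (algebraMap W _ w) = ω w) ∧ ∀ i, φ (asr_X q f i) = y i := by
  refine ⟨Ideal.Quotient.lift _ (MvPolynomial.eval₂Hom ω y) ?_, ?_, ?_⟩
  · have h1 : Ideal.span (Set.range fun i : Fin s =>
      (MvPolynomial.X i ^ q + MvPolynomial.X i - MvPolynomial.C (f i) : MvPolynomial (Fin s) W)) ≤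
        RingHom.ker (MvPolynomial.eval₂Hom ω y) := by
      rw [Ideal.span_le]
      rintro _ ⟨i, rfl⟩
      simp [RingHom.mem_ker, hy]
    exact fun a ha => h1 ha
  · intro w
    show Ideal.Quotient.lift _ (MvPolynomial.eval₂Hom ω y) _
      (Ideal.Quotient.mk _ (MvPolynomial.C w)) = _
    rw [Ideal.Quotient.lift_mk]
    simp
  · intro i
    show Ideal.Quotient.lift _ (MvPolynomial.eval₂Hom ω y) _
      (Ideal.Quotient.mk _ (MvPolynomial.X i)) = _
    rw [Ideal.Quotient.lift_mk]
    simp

theorem asr_root {R : Type} [CommRing R] (h : R) :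
    (AdjoinRoot.root (X ^ q + X - C h : R[X])) ^ q + AdjoinRoot.root (X ^ q + X - C h : R[X]) =
      AdjoinRoot.of _ h := by
  have h1 := AdjoinRoot.eval₂_root (X ^ q + X - C h : R[X])
  rw [eval₂_sub, eval₂_add, eval₂_pow, eval₂_X, eval₂_C, sub_eq_zero] at h1
  exact h1

/-- one equation more -/
theorem AS.exists_cons (q : ℕ) {W : Type} [CommRing W] {s : ℕ} (f0 : W) (f : Fin s → W) :
    ∃ e : AS q W (Fin.cons f0 f : Fin (s + 1) → W) ≃+*
      AS1 q (AS q W f) (algebraMap W (AS q W f) f0), ∀ w, e (algebraMap W _ w) =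
        AdjoinRoot.of _ (algebraMap W (AS q W f) w) := by
  set F : Fin (s + 1) → W := Fin.cons f0 f with hF
  set g : AS q W f := algebraMap W (AS q W f) f0 with hg
  obtain ⟨φ, hφ1, hφ2⟩ := asr_exists (q := q) (f := F)
    ((AdjoinRoot.of (X ^ q + X - C g)).comp (algebraMap W (AS q W f)))
    (Fin.cons (AdjoinRoot.root (X ^ q + X - C g))
      (fun i => AdjoinRoot.of (X ^ q + X - C g) (asr_X q f i))) (by
      intro i
      refine Fin.cases ?_ (fun j => ?_) i
      · rw [Fin.cons_zero, asr_root, hF, Fin.cons_zero]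
        rfl
      · rw [Fin.cons_succ, ← map_pow, ← map_add, asr_eq, hF, Fin.cons_succ]
        rfl)
  obtain ⟨χ, hχ1, hχ2⟩ := asr_exists (q := q) (f := f)
    (algebraMap W (AS q W F)) (fun i => asr_X q F i.succ) (by
      intro i
      rw [asr_eq, hF, Fin.cons_succ])
  have h0 : (X ^ q + X - C g : (AS q W f)[X]).eval₂ χ (asr_X q F 0) = 0 := by
    rw [eval₂_sub, eval₂_add, eval₂_pow, eval₂_X, eval₂_C, hg, hχ1, asr_eq, hF, Fin.cons_zero,
      sub_self]
  let ψ : AS1 q (AS q W f) g →+* AS q W F := AdjoinRoot.lift χ (asr_X q F 0) h0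
  have hψ1 : ∀ x, ψ (AdjoinRoot.of _ x) = χ x := fun x => AdjoinRoot.lift_of h0
  have hψ2 : ψ (AdjoinRoot.root _) = asr_X q F 0 := AdjoinRoot.lift_root h0
  refine ⟨RingEquiv.ofRingHom φ ψ ?_ ?_, fun w => ?_⟩
  · apply AdjoinRoot.ringHom_ext
    · apply asr_ext
      · intro w
        show φ (ψ (AdjoinRoot.of _ _)) = _
        rw [hψ1, hχ1, hφ1]
        rfl
      · intro i
        show φ (ψ (AdjoinRoot.of _ _)) = _
        rw [hψ1, hχ2, hφ2, Fin.cons_succ]
        rfl
    · show φ (ψ (AdjoinRoot.root _)) = _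
      rw [hψ2, hφ2, Fin.cons_zero]
      rfl
  · apply asr_ext
    · intro w
      show ψ (φ _) = _
      rw [hφ1]
      show ψ (AdjoinRoot.of _ (algebraMap W _ w)) = _
      rw [hψ1, hχ1]
      rfl
    · intro i
      show ψ (φ _) = asr_X q F i
      rw [hφ2]
      refine Fin.cases ?_ (fun j => ?_) i
      · rw [Fin.cons_zero, hψ2]
      · rw [Fin.cons_succ, hψ1, hχ2]
  · exact hφ1 w

theorem asr_bij (q : ℕ) {W : Type} [CommRing W] (f : Fin 0 → W) :
    Bijective (algebraMap W (AS q W f)) := by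
  obtain ⟨φ, h1, -⟩ := asr_exists (q := q) (f := f) (RingHom.id W) (fun i => i.elim0)
    (fun i => i.elim0)
  refine ⟨fun x y h => ?_, fun x => ⟨φ x, ?_⟩⟩
  · have h2 := congrArg φ h
    rwa [h1, h1] at h2
  · have h2 : (algebraMap W (AS q W f)).comp φ = RingHom.id _ := by
      apply asr_ext
      · intro w
        show algebraMap W (AS q W f) (φ (algebraMap W (AS q W f) w)) = algebraMap W (AS q W f) w
        rw [h1]
        rfl
      · exact fun i => i.elim0
    exact congrArg (fun u : AS q W f →+* AS q W f => u x) h2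

/-- no equation -/
theorem AS.exists_zero (q : ℕ) {W : Type} [CommRing W] (f : Fin 0 → W) :
    Nonempty (AS q W f ≃+* W) :=
  ⟨(RingEquiv.ofBijective _ (asr_bij q f)).symm⟩

theorem asr_cons {p : ℕ} (q : ℕ) {W : Type} [CommRing W] {s : ℕ} (f0 : W) (f : Fin s → W)
    (h : GoodP p (AS q W (Fin.cons f0 f : Fin (s + 1) → W))) :
    GoodP p (AS1 q (AS q W f) (algebraMap W (AS q W f) f0)) := by
  obtain ⟨e, -⟩ := AS.exists_cons q f0 f
  exact h.of_equiv e

theorem asr_uncons {p : ℕ} (q : ℕ) {W : Type} [CommRing W] {s : ℕ} (f0 : W) (f : Fin s → W)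
    (h : GoodP p (AS1 q (AS q W f) (algebraMap W (AS q W f) f0))) :
    GoodP p (AS q W (Fin.cons f0 f : Fin (s + 1) → W)) := by
  obtain ⟨e, -⟩ := AS.exists_cons q f0 f
  exact h.of_equiv e.symm

theorem asr_two {p : ℕ} (q : ℕ) {W : Type} [CommRing W] {s : ℕ} (f0 f1 : W) (f : Fin s → W)
    (h : GoodP p (V2 q (AS q W f) (algebraMap W _ f1) (algebraMap W _ f0))) :
    GoodP p (AS q W (Fin.cons f0 (Fin.cons f1 f : Fin (s + 1) → W) : Fin (s + 2) → W)) := by
  refine asr_uncons q f0 _ ?_
  obtain ⟨e, he⟩ := AS.exists_cons q f1 f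
  obtain ⟨e'⟩ := AS1.exists_congr q e (algebraMap W _ f0)
  rw [he] at e'
  exact h.of_equiv e'.symm

/-- **from several equations to one** -/
theorem as_good (h : Setg p m q t k) [IsNoetherianRing W] {s : ℕ} (f : Fin s → W)
    (h0 : GoodP p W)
    (h1 : ∀ c : Fin s → k, (∀ i, c i ^ q = c i) →
      GoodP p (AS1 q W (∑ i, algebraMap k W (c i) * f i))) : GoodP p (AS q W f) := by
  have hq0 : q ≠ 0 := by
    have := h.q_two_le
    omega
  have key : ∀ (n : ℕ) (f : Fin (n + 1) → W), (∀ c : Fin (n + 1) → k, (∀ i, c i ^ q = c i) →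
      GoodP p (AS1 q W (∑ i, algebraMap k W (c i) * f i))) → GoodP p (AS q W f) := by
    intro n
    induction n with
    | zero =>
      intro f hf
      have h2 := hf (fun _ => 1) (fun _ => one_pow _)
      rw [Fin.sum_univ_one, map_one, one_mul] at h2
      rw [← Fin.cons_self_tail f]
      refine asr_uncons q _ _ ?_
      obtain ⟨e⟩ := AS1.exists_congr q (RingEquiv.ofBijective _ (asr_bij q (Fin.tail f))) (f 0)
      exact h2.of_equiv e
    | succ n ih =>
      intro f hf
      have hff : f = Fin.cons (f 0) (Fin.cons (f 1) (Fin.tail (Fin.tail f)) : Fin (n + 1) → W) := by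
        rw [show f 1 = Fin.tail f 0 from rfl, Fin.cons_self_tail, Fin.cons_self_tail]
      rw [hff]
      set f0 := f 0
      set f1 := f 1
      set g := Fin.tail (Fin.tail f) with hg
      have hsum : ∀ a b : k, a ^ q = a → b ^ q = b → ∀ c : Fin n → k, (∀ i, c i ^ q = c i) →
          GoodP p (AS1 q W (algebraMap k W a * f0 + (algebraMap k W b * f1 +
            ∑ i, algebraMap k W (c i) * g i))) := by
        intro a b ha hb c hc
        have h2 := hf (Fin.cons a (Fin.cons b c : Fin (n + 1) → k)) (fun i => by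
          refine Fin.cases ?_ (fun j => ?_) i
          · rw [Fin.cons_zero, ha]
          · rw [Fin.cons_succ]
            refine Fin.cases ?_ (fun l => ?_) j
            · rw [Fin.cons_zero, hb]
            · rw [Fin.cons_succ, hc])
        rw [Fin.sum_univ_succ, Fin.sum_univ_succ] at h2
        exact h2
      refine asr_two q f0 f1 g (line_good h _ _ ?_ ?_)
      · refine asr_cons q f0 g (ih _ (fun c hc => ?_))
        rw [Fin.sum_univ_succ]
        have h2 := hsum (c 0) 0 (hc 0) (zero_pow hq0) (fun i => c i.succ) (fun i => hc i.succ)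
        rw [map_zero, zero_mul, zero_add] at h2
        exact h2
      · intro d hd
        have h3 : algebraMap W (AS q W g) f1 + algebraMap k (AS q W g) d *
            algebraMap W (AS q W g) f0 = algebraMap W (AS q W g) (f1 + algebraMap k W d * f0) := by
          rw [map_add, map_mul, ← IsScalarTower.algebraMap_apply k W (AS q W g)]
        rw [h3]
        refine asr_cons q _ g (ih _ (fun c hc => ?_))
        rw [Fin.sum_univ_succ]
        have h2 := hsum (c 0 * d) (c 0) (by rw [mul_pow, hc 0, hd]) (hc 0)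
          (fun i => c i.succ) (fun i => hc i.succ)
        have h4 : algebraMap k W (c 0) * (f1 + algebraMap k W d * f0) +
            ∑ i : Fin n, algebraMap k W (c i.succ) * g i =
            algebraMap k W (c 0 * d) * f0 + (algebraMap k W (c 0) * f1 +
            ∑ i : Fin n, algebraMap k W (c i.succ) * g i) := by
          rw [map_mul]
          ring
        rw [← h4] at h2
        exact h2
  cases s with
  | zero =>
    obtain ⟨e⟩ := AS.exists_zero q f
    exact h0.of_equiv e.symm
  | succ s => exact key s f h1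

end Pool.Agent.HPow
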