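import Pool.Agent.BassH.Enc
import Pool.Agent.Helper67.Bass.Main2

/-!
# Hypersurfaces of degree at most one in two sets of variables
-/

set_option autoImplicit false
set_option linter.unusedSectionVars false
set_option linter.style.haveILetI false

namespace Pool.Agent.HPow

open Function MvPolynomial Pool.Agent.Helper11 Pool.Agent.Helper67.Bass

section

variable {A : Type} [CommRing A] {b c : ℕ}

/-- `e + ∑ a_i y_i + ∑ d_j z_j + ∑ φ_ij y_i z_j` -/
noncomputable def affF (e : A) (a : Fin b → A) (d : Fin c → A) (φ : Fin b → Fin c → A) :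
    MvPolynomial (Fin b ⊕ Fin c) A :=
  C e + ∑ i, C (a i) * X (Sum.inl i) + ∑ j, C (d j) * X (Sum.inr j) +
    ∑ i, ∑ j, C (φ i j) * X (Sum.inl i) * X (Sum.inr j)

/-- the bilinear form -/
noncomputable def homF (Φ : Fin (b + 1) → Fin (c + 1) → A) :
    MvPolynomial (Fin (b + 1) ⊕ Fin (c + 1)) A :=
  ∑ i, ∑ j, C (Φ i j) * X (Sum.inl i) * X (Sum.inr j)

/-- the matrix of the homogenized form -/
def matF (e : A) (a : Fin b → A) (d : Fin c → A) (φ : Fin b → Fin c → A) :
    Fin (b + 1) → Fin (c + 1) → A :=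
  Fin.cons (Fin.cons e d) (fun i => Fin.cons (a i) (φ i))

/-- `y_0 = z_0 = 1` -/
noncomputable def deh (A : Type) [CommRing A] (b c : ℕ) :
    MvPolynomial (Fin (b + 1) ⊕ Fin (c + 1)) A →ₐ[A] MvPolynomial (Fin b ⊕ Fin c) A :=
  aeval (Sum.elim (Fin.cons 1 (fun i => X (Sum.inl i))) (Fin.cons 1 (fun j => X (Sum.inr j))))

theorem deh_y0 : deh A b c (X (Sum.inl 0)) = 1 := by simp [deh]

theorem deh_z0 : deh A b c (X (Sum.inr 0)) = 1 := by simp [deh]

theorem deh_y (i : Fin b) : deh A b c (X (Sum.inl i.succ)) = X (Sum.inl i) := by simp [deh]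

theorem deh_z (j : Fin c) : deh A b c (X (Sum.inr j.succ)) = X (Sum.inr j) := by simp [deh]

/-- the section -/
noncomputable def hec (A : Type) [CommRing A] (b c : ℕ) :
    MvPolynomial (Fin b ⊕ Fin c) A →ₐ[A] MvPolynomial (Fin (b + 1) ⊕ Fin (c + 1)) A :=
  rename (Sum.map Fin.succ Fin.succ)

theorem deh_hec (x : MvPolynomial (Fin b ⊕ Fin c) A) : deh A b c (hec A b c x) = x := by
  have : (deh A b c).comp (hec A b c) = AlgHom.id A _ := by
    apply MvPolynomial.algHom_ext
    rintro (i | j)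
    · simp [hec, deh]
    · simp [hec, deh]
  exact DFunLike.congr_fun this x

theorem deh_homF (e : A) (a : Fin b → A) (d : Fin c → A) (φ : Fin b → Fin c → A) :
    deh A b c (homF (matF e a d φ)) = affF e a d φ := by
  have hC : ∀ x : A, deh A b c (C x) = C x := fun x => (deh A b c).commutes x
  unfold homF affF matF
  simp only [Fin.sum_univ_succ, Fin.cons_zero, Fin.cons_succ, map_add, map_sum, map_mul, deh_y0,
    deh_z0, deh_y, deh_z, hC, mul_one, Finset.sum_add_distrib]
  ring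

/-- the ideal of `y_0 = z_0 = 1` -/
noncomputable def idJ (A : Type) [CommRing A] (b c : ℕ) :
    Ideal (MvPolynomial (Fin (b + 1) ⊕ Fin (c + 1)) A) :=
  Ideal.span {X (Sum.inl 0) - 1} ⊔ Ideal.span {X (Sum.inr 0) - 1}

theorem sub_mem_idJ (x : MvPolynomial (Fin (b + 1) ⊕ Fin (c + 1)) A) :
    x - hec A b c (deh A b c x) ∈ idJ A b c := by
  have h0 : Ideal.Quotient.mk (idJ A b c) (X (Sum.inl 0)) = 1 := by
    rw [← map_one (Ideal.Quotient.mk (idJ A b c)), Ideal.Quotient.mk_eq_mk_iff_sub_mem]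
    exact Ideal.mem_sup_left (Ideal.mem_span_singleton_self _)
  have h1 : Ideal.Quotient.mk (idJ A b c) (X (Sum.inr 0)) = 1 := by
    rw [← map_one (Ideal.Quotient.mk (idJ A b c)), Ideal.Quotient.mk_eq_mk_iff_sub_mem]
    exact Ideal.mem_sup_right (Ideal.mem_span_singleton_self _)
  have h2 : ((Ideal.Quotient.mkₐ A (idJ A b c)).comp (hec A b c)).comp (deh A b c) =
      Ideal.Quotient.mkₐ A (idJ A b c) := by
    apply MvPolynomial.algHom_ext
    rintro (i | j)
    · refine Fin.cases ?_ (fun i => ?_) i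
      · rw [AlgHom.comp_apply, deh_y0, map_one]
        exact h0.symm
      · rw [AlgHom.comp_apply, deh_y, AlgHom.comp_apply]
        simp [hec]
    · refine Fin.cases ?_ (fun j => ?_) j
      · rw [AlgHom.comp_apply, deh_z0, map_one]
        exact h1.symm
      · rw [AlgHom.comp_apply, deh_z, AlgHom.comp_apply]
        simp [hec]
  have h3 := DFunLike.congr_fun h2 x
  rw [← Ideal.Quotient.mk_eq_mk_iff_sub_mem]
  exact h3.symm

/-- the evaluation -/
noncomputable def evF (F : MvPolynomial (Fin b ⊕ Fin c) A) :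
    MvPolynomial (Fin (b + 1) ⊕ Fin (c + 1)) A →+* MvPolynomial (Fin b ⊕ Fin c) A ⧸
      Ideal.span {F} := (Ideal.Quotient.mk _).comp (deh A b c).toRingHom

theorem evF_surj (F : MvPolynomial (Fin b ⊕ Fin c) A) : Surjective (evF F) := by
  refine Ideal.Quotient.mk_surjective.comp (fun x => ⟨hec A b c x, deh_hec x⟩)

theorem ker_evF (e : A) (a : Fin b → A) (d : Fin c → A) (φ : Fin b → Fin c → A) :
    RingHom.ker (evF (affF e a d φ)) =
      Ideal.span (Set.range fun _ : Unit => homF (matF e a d φ)) ⊔ Ideal.span {X (Sum.inl 0) - 1} ⊔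
        Ideal.span {X (Sum.inr 0) - 1} := by
  have hr : (Set.range fun _ : Unit => homF (matF e a d φ)) = {homF (matF e a d φ)} := by
    ext x
    simp
  rw [hr, sup_assoc]
  change _ = _ ⊔ idJ A b c
  apply le_antisymm
  · intro x hx
    have hx' : deh A b c x ∈ Ideal.span {affF e a d φ} := Ideal.Quotient.eq_zero_iff_mem.1 hx
    obtain ⟨r, hr⟩ := Ideal.mem_span_singleton'.1 hx'
    have h1 := sub_mem_idJ x
    have h2 := sub_mem_idJ (homF (matF e a d φ))
    rw [deh_homF] at h2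
    rw [← hr, map_mul] at h1
    have h3 : x = (x - hec A b c r * hec A b c (affF e a d φ)) +
        (- hec A b c r) * (homF (matF e a d φ) - hec A b c (affF e a d φ)) +
        hec A b c r * homF (matF e a d φ) := by ring
    rw [h3]
    exact add_mem (add_mem (Ideal.mem_sup_right h1)
      (Ideal.mem_sup_right (Ideal.mul_mem_left _ _ h2)))
      (Ideal.mem_sup_left (Ideal.mul_mem_left _ _ (Ideal.mem_span_singleton_self _)))
  · rw [sup_le_iff]
    constructor
    · rw [Ideal.span_singleton_le_iff_mem, RingHom.mem_ker]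
      show Ideal.Quotient.mk _ (deh A b c (homF (matF e a d φ))) = 0
      rw [deh_homF]
      exact Ideal.Quotient.eq_zero_iff_mem.2 (Ideal.mem_span_singleton_self _)
    · unfold idJ
      rw [sup_le_iff, Ideal.span_singleton_le_iff_mem, Ideal.span_singleton_le_iff_mem,
        RingHom.mem_ker, RingHom.mem_ker]
      constructor
      · show Ideal.Quotient.mk _ (deh A b c (X (Sum.inl 0) - 1)) = 0
        rw [map_sub, deh_y0, map_one, sub_self, map_zero]
      · show Ideal.Quotient.mk _ (deh A b c (X (Sum.inr 0) - 1)) = 0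
        rw [map_sub, deh_z0, map_one, sub_self, map_zero]

theorem homog_homF1 (Φ : Fin (b + 1) → Fin (c + 1) → A) :
    homog (Sum.elim (fun _ => 1) (fun _ => 0)) (homF Φ) =
      Polynomial.C (homF Φ) * Polynomial.X ^ 1 := by
  unfold homF
  simp only [map_sum, map_mul, homog_C, homog_X, Sum.elim_inl, Sum.elim_inr, pow_one, pow_zero,
    mul_one, Finset.sum_mul]
  refine Finset.sum_congr rfl (fun i _ => Finset.sum_congr rfl (fun j _ => ?_))
  ring

theorem homog_homF2 (Φ : Fin (b + 1) → Fin (c + 1) → A) :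
    homog (Sum.elim (fun _ => 0) (fun _ => 1)) (homF Φ) =
      Polynomial.C (homF Φ) * Polynomial.X ^ 1 := by
  unfold homF
  simp only [map_sum, map_mul, homog_C, homog_X, Sum.elim_inl, Sum.elim_inr, pow_one, pow_zero,
    mul_one, Finset.sum_mul]
  refine Finset.sum_congr rfl (fun i _ => Finset.sum_congr rfl (fun j _ => ?_))
  ring

/-- from the bilinear form to its dehomogenization -/
theorem surj_aff [IsNoetherianRing A] (e : A) (a : Fin b → A) (d : Fin c → A)
    (φ : Fin b → Fin c → A) :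
    SurjectsOnto (G0 (MvPolynomial (Fin (b + 1) ⊕ Fin (c + 1)) A ⧸
      Ideal.span {homF (matF e a d φ)}))
      (G0 (MvPolynomial (Fin b ⊕ Fin c) A ⧸ Ideal.span {affF e a d φ})) := by
  obtain ⟨χ, h1, h2⟩ := BassH.pipe_lin (evF (affF e a d φ)) (evF_surj _)
    (fun _ : Unit => homF (matF e a d φ)) (Sum.inl 0) (Sum.inr 0)
    (Sum.elim (fun _ => 1) (fun _ => 0)) (Sum.elim (fun _ => 0) (fun _ => 1)) rfl rfl rfl
    (fun _ => homog_homF1 _) (fun _ => homog_homF2 _) (ker_evF e a d φ)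
  have h3 := BassH.surj_of_isAdd _ h1 h2
  have hr : (Set.range fun _ : Unit => homF (matF e a d φ)) = {homF (matF e a d φ)} := by
    ext x
    simp
  rwa [hr] at h3

end

section graded

variable {ι : Type} [AddCommGroup ι] [LinearOrder ι] [IsOrderedAddMonoid ι] {A : Type}
  [CommRing A] [IsNoetherianRing A] (𝒜 : ι → AddSubgroup A) [GradedRing 𝒜] {b c : ℕ}

/-- bilinear hypersurfaces, flat variables -/
theorem finGn_homF (hgood : ∀ I : Ideal A, I.IsHomogeneous 𝒜 → FinGn (A ⧸ I))
    (φ : Fin b → Fin c → A) (α : Fin b → ι) (β : Fin c → ι) (hφ : ∀ i j, φ i j ∈ 𝒜 (β j - α i)) :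
    FinGn (MvPolynomial (Fin b ⊕ Fin c) A ⧸
      Ideal.span {∑ i, ∑ j, C (φ i j) * X (Sum.inl i) * X (Sum.inr j)}) := by
  have hb := finGn_bilinear 𝒜 hgood φ α β hφ ⊥ (Ideal.IsHomogeneous.bot 𝒜)
  refine FinGn.of_equiv (Ideal.quotientEquiv
    (Ideal.span {∑ i, ∑ j, C (φ i j) * X (Sum.inl i) * X (Sum.inr j)}) _
    (sumRingEquiv A (Fin b) (Fin c)) ?_).symm hb
  rw [Ideal.map_bot, Ideal.map_bot, bot_sup_eq, Ideal.map_span, Set.image_singleton]
  congr 2
  unfold bilForm
  show _ = sumRingEquiv A (Fin b) (Fin c) _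
  rw [map_sum]
  refine Finset.sum_congr rfl (fun i _ => ?_)
  rw [map_sum, map_sum, Finset.sum_mul]
  refine Finset.sum_congr rfl (fun j _ => ?_)
  rw [map_mul, map_mul, map_mul, sumRingEquiv_C, sumRingEquiv_X_inl, sumRingEquiv_X_inr]
  ring

/-- hypersurfaces of degree at most one in `y` and in `z` -/
theorem fg_affF (hgood : ∀ I : Ideal A, I.IsHomogeneous 𝒜 → FinGn (A ⧸ I))
    (e : A) (a : Fin b → A) (d : Fin c → A) (φ : Fin b → Fin c → A) (γ : ι) (α : Fin b → ι)
    (β : Fin c → ι) (he : e ∈ 𝒜 γ) (ha : ∀ i, a i ∈ 𝒜 (γ - α i)) (hd : ∀ j, d j ∈ 𝒜 (β j))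
    (hφ : ∀ i j, φ i j ∈ 𝒜 (β j - α i)) :
    AddGroup.FG (G0 (MvPolynomial (Fin b ⊕ Fin c) A ⧸ Ideal.span {affF e a d φ})) := by
  have h1 := (finGn_homF 𝒜 hgood (matF e a d φ) (Fin.cons 0 α : Fin (b + 1) → ι)
    (Fin.cons γ β : Fin (c + 1) → ι) (fun i j => by
      unfold matF
      refine Fin.cases ?_ (fun i => ?_) i
      · refine Fin.cases ?_ (fun j => ?_) j
        · simpa using he
        · simpa using hd j
      · refine Fin.cases ?_ (fun j => ?_) j
        · simpa using ha i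
        · simpa using hφ i j)).fg
  obtain ⟨f, hf⟩ := surj_aff e a d φ
  haveI : AddGroup.FG (G0 (MvPolynomial (Fin (b + 1) ⊕ Fin (c + 1)) A ⧸
      Ideal.span {homF (matF e a d φ)})) := h1
  exact AddGroup.fg_of_surjective hf

end graded

end Pool.Agent.HPow
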