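import Pool.Agent.HPow.Defs

/-!
# HPow, module Cl: closure properties of `GoodP`
-/

set_option autoImplicit false
set_option linter.unusedSectionVars false
set_option linter.style.haveILetI false

namespace Pool.Agent.HPow

open Pool.Agent.Helper11 Pool.Agent.Helper83.Bass Pool.Agent.Helper67.Bass Function TensorProduct

variable {p : ℕ} {R S : Type} [CommRing R] [CommRing S]

/-- homomorphisms out of `G₀` agree if they agree on modules -/
theorem cl_ext {Γ : Type*} [AddCommGroup Γ] (φ ψ : G0 R →+ Γ)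
    (h : ∀ M, φ (G0.mk M) = ψ (G0.mk M)) (x : G0 R) : φ x = ψ x := by
  induction x using G0.induction with
  | hz => rw [map_zero, map_zero]
  | hm M => exact h M
  | hn x hx => rw [map_neg, map_neg, hx]
  | ha x y hx hy => rw [map_add, map_add, hx, hy]

theorem cl_fg_map {A B : Type 1} [AddCommGroup A] [AddCommGroup B] (φ : A →+ B)
    {Γ : AddSubgroup A} (h : Γ.FG) : (Γ.map φ).FG := by
  rw [AddSubgroup.fg_iff] at h ⊢
  obtain ⟨S, hS, hfin⟩ := h
  exact ⟨φ '' S, by rw [← AddMonoidHom.map_closure, hS], hfin.image _⟩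

theorem GoodP.of_finGn (p : ℕ) (h : FinGn R) : GoodP p R :=
  ⟨⊤, AddGroup.fg_def.1 h.fg, 0, fun _ => trivial⟩

theorem GoodP.of_family {ι : Type} [Finite ι] (T : ι → Type) [∀ i, CommRing (T i)]
    (φ : ∀ i, G0 (T i) →+ G0 R) (e : ℕ) (h : ∀ x : G0 R, p ^ e • x ∈ ⨆ i, (φ i).range)
    (hT : ∀ i, GoodP p (T i)) : GoodP p R := by
  cases nonempty_fintype ι
  choose Γ hΓ d hd using hT
  let E := Finset.univ.sup d
  let Λ : AddSubgroup (G0 R) := ⨆ i, (Γ i).map (φ i)
  have hle : (⨆ i, (φ i).range) ≤ Λ.comap (nsmulAddMonoidHom (p ^ E)) := by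
    refine iSup_le fun i => ?_
    rintro _ ⟨y, rfl⟩
    show p ^ E • φ i y ∈ Λ
    have h1 : d i ≤ E := Finset.le_sup (Finset.mem_univ i)
    have h2 : p ^ E • φ i y = p ^ (E - d i) • φ i (p ^ d i • y) := by
      rw [map_nsmul, ← mul_smul, ← pow_add, Nat.sub_add_cancel h1]
    rw [h2]
    have h3 : φ i (p ^ d i • y) ∈ (Γ i).map (φ i) := ⟨_, hd i y, rfl⟩
    exact AddSubgroup.nsmul_mem _
      (AddSubgroup.mem_iSup_of_mem (S := fun i => (Γ i).map (φ i)) i h3) _
  refine ⟨Λ, AddSubgroup.FG.iSup _ (fun i => cl_fg_map _ (hΓ i)), E + e, fun x => ?_⟩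
  have := hle (h x)
  rw [pow_add, mul_smul]
  exact this

theorem GoodP.of_map (φ : G0 S →+ G0 R) (e : ℕ) (h : ∀ x : G0 R, p ^ e • x ∈ φ.range)
    (hS : GoodP p S) : GoodP p R :=
  GoodP.of_family (ι := Unit) (fun _ => S) (fun _ => φ) e
    (fun x => AddSubgroup.mem_iSup_of_mem () (h x)) (fun _ => hS)

/-- composition of restrictions along surjections -/
theorem surG_surG {Q : Type} [CommRing Q] (π : S →+* R) (hπ : Surjective π) (ρ : Q →+* S)
    (hρ : Surjective ρ) (x : G0 R) :
    surG ρ hρ (surG π hπ x) = surG (π.comp ρ) (hπ.comp hρ) x := by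
  refine cl_ext ((surG ρ hρ).comp (surG π hπ)) (surG (π.comp ρ) (hπ.comp hρ)) (fun M => ?_) x
  rw [AddMonoidHom.comp_apply, surG_mk, surG_mk, surG_mk]
  exact mk_eq_of_iso
    { ((restrEquiv ρ hρ (restr π hπ M)).trans (restrEquiv π hπ M)).trans
        (restrEquiv (π.comp ρ) (hπ.comp hρ) M).symm with
      map_smul' := fun _ _ => rfl }

theorem surG_id (π : R →+* R) (hπ : Surjective π) (h : ∀ r, π r = r) (x : G0 R) :
    surG π hπ x = x := by
  refine cl_ext (surG π hπ) (AddMonoidHom.id _) (fun M => ?_) x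
  rw [surG_mk]
  exact mk_eq_of_iso
    { restrEquiv π hπ M with
      map_smul' := fun r x => by
        show restrEquiv π hπ M (r • x) = r • restrEquiv π hπ M x
        rw [restrEquiv_smul, h] }

theorem surG_congr (π π' : S →+* R) (hπ : Surjective π) (hπ' : Surjective π')
    (h : ∀ r, π r = π' r) (x : G0 R) : surG π hπ x = surG π' hπ' x := by
  obtain rfl : π = π' := RingHom.ext h
  rfl

theorem GoodP.of_equiv (e : R ≃+* S) (h : GoodP p R) : GoodP p S := by
  refine GoodP.of_map (surG (e.symm : S →+* R) e.symm.surjective) 0 (fun x => ?_) h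
  rw [pow_zero, one_smul]
  refine ⟨surG (e : R →+* S) e.surjective x, ?_⟩
  rw [surG_surG]
  exact surG_id _ _ (fun r => e.apply_symm_apply r) x

theorem GoodP.of_mul [IsNoetherianRing R] {I J : Ideal R} (hIJ : I * J = ⊥)
    (hI : GoodP p (R ⧸ I)) (hJ : GoodP p (R ⧸ J)) : GoodP p R := by
  let K : AddSubgroup (G0 R) :=
    (surG (Ideal.Quotient.mk I) Ideal.Quotient.mk_surjective).range ⊔
      (surG (Ideal.Quotient.mk J) Ideal.Quotient.mk_surjective).range
  have hP := two3_closure K
  have h1 : ∀ M, KilledBy I M → G0.mk M ∈ K := fun M hM =>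
    restr_of_killed hP (Ideal.Quotient.mk I) Ideal.Quotient.mk_surjective
      (fun N => AddSubgroup.mem_sup_left ⟨G0.mk N, surG_mk _ _ N⟩) M
      (by rw [Ideal.mk_ker]; exact hM)
  have h2 : ∀ M, KilledBy J M → G0.mk M ∈ K := fun M hM =>
    restr_of_killed hP (Ideal.Quotient.mk J) Ideal.Quotient.mk_surjective
      (fun N => AddSubgroup.mem_sup_right ⟨G0.mk N, surG_mk _ _ N⟩) M
      (by rw [Ideal.mk_ker]; exact hM)
  have h3 : ∀ M : FGMod R, G0.mk M ∈ K := by
    intro M
    refine hP.of_submodule M (J • (⊤ : Submodule R M)) (h1 _ ?_) (h2 _ ?_)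
    · intro s hs m
      apply Subtype.ext
      have hm : (m : M) ∈ J • (⊤ : Submodule R M) := m.2
      change s • (m : M) = 0
      have key : ∀ x ∈ J • (⊤ : Submodule R M), s • x = 0 := by
        intro x hx
        induction hx using Submodule.smul_induction_on' with
        | smul r hr n hn =>
            rw [← mul_smul]
            have : s * r ∈ I * J := Ideal.mul_mem_mul hs hr
            rw [hIJ] at this
            rw [(Submodule.mem_bot R).1 this, zero_smul]
        | add x hx y hy h1 h2 => rw [smul_add, h1, h2, add_zero]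
      exact key _ hm
    · intro s hs m
      obtain ⟨m, rfl⟩ := Submodule.mkQ_surjective _ m
      rw [← map_smul, Submodule.mkQ_apply, Submodule.Quotient.mk_eq_zero]
      exact Submodule.smul_mem_smul hs Submodule.mem_top
  have h4 : K = ⊤ := by
    rw [eq_top_iff, ← G0.closure_mk, AddSubgroup.closure_le]
    rintro _ ⟨M, rfl⟩
    exact h3 M
  let T : Bool → Type := fun b => R ⧸ (if b then I else J)
  letI : ∀ b, CommRing (T b) := fun b => Ideal.Quotient.commRing _
  refine GoodP.of_family (ι := Bool) T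
    (fun b => surG (Ideal.Quotient.mk (if b then I else J)) Ideal.Quotient.mk_surjective) 0
    (fun x => ?_) ?_
  · rw [pow_zero, one_smul]
    have hx : x ∈ K := by rw [h4]; trivial
    have hle : K ≤ ⨆ b : Bool, (surG (Ideal.Quotient.mk (if b then I else J))
        Ideal.Quotient.mk_surjective).range :=
      sup_le (le_iSup (fun b : Bool => (surG (Ideal.Quotient.mk (if b then I else J))
          Ideal.Quotient.mk_surjective).range) true)
        (le_iSup (fun b : Bool => (surG (Ideal.Quotient.mk (if b then I else J))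
          Ideal.Quotient.mk_surjective).range) false)
    exact hle hx
  · rintro (_ | _)
    · exact hJ
    · exact hI

theorem GoodP.of_subsingleton (p : ℕ) (R : Type) [CommRing R] [Subsingleton R] : GoodP p R :=
  GoodP.of_finGn p (FinGn.of_subsingleton R)

theorem cl_gen [Algebra R S] [Module.Flat R S] (hg : Gen R S) (h : GoodP p R) : GoodP p S := by
  refine GoodP.of_map (bcG R S) 0 (fun x => ?_) h
  rw [pow_zero, one_smul]
  have h1 : (bcG R S).range = ⊤ := by
    rw [eq_top_iff, ← G0.closure_mk, AddSubgroup.closure_le]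
    rintro _ ⟨M, rfl⟩
    exact hg _ (two3_closure (bcG R S).range).toResClass (fun N => ⟨G0.mk N, bcG_mk R S N⟩) M
  rw [h1]; trivial

theorem GoodP.mvPolynomial [IsNoetherianRing R] (h : GoodP p R) (σ : Type) [Finite σ] :
    GoodP p (MvPolynomial σ R) :=
  cl_gen (gen_mvPolynomial R σ) h

open Polynomial in
theorem GoodP.polynomial [IsNoetherianRing R] (h : GoodP p R) : GoodP p R[X] :=
  cl_gen (gen_polynomial R) h

end Pool.Agent.HPow
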