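import Pool.Agent.HPow.Fq
import Pool.Agent.HPow.Cl
import Pool.Agent.Helper67.Bass.Gen2

/-!
# HPow, module Curve: curves over a finite field
-/

set_option autoImplicit false
set_option linter.unusedSectionVars false
set_option linter.style.haveILetI false

namespace Pool.Agent.HPow

open Function Polynomial Pool.Agent.Helper11 Pool.Agent.Helper67.Bass

variable {p m q t : ℕ} {k : Type} [Field k]

/-- the trivial grading -/
def curve_gr (A : Type) [CommRing A] : Unit → AddSubgroup A := fun _ => ⊤

/-- the decomposition -/
noncomputable def curve_dec (A : Type) [CommRing A] :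
    A →+ DirectSum Unit (fun i => curve_gr A i) :=
  (DirectSum.of (fun i => curve_gr A i) ()).comp
    (AddMonoidHom.mk' (fun a => (⟨a, trivial⟩ : curve_gr A ())) (fun _ _ => rfl))

/-- the trivial grading is a grading -/
@[instance_reducible]
noncomputable def curve_graded (A : Type) [CommRing A] :
    @GradedRing Unit A (AddSubgroup A) LinearOrder.toDecidableEq _ _ _ _ (curve_gr A) :=
  letI : DecidableEq Unit := LinearOrder.toDecidableEq
  { one_mem := trivial
    mul_mem := fun _ _ _ _ _ _ => trivial
    decompose' := curve_dec A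
    left_inv := fun a => by
      show DirectSum.coeAddMonoidHom (curve_gr A) (curve_dec A a) = a
      show DirectSum.coeAddMonoidHom (curve_gr A)
        (DirectSum.of (fun i => curve_gr A i) () ⟨a, trivial⟩) = a
      rw [DirectSum.coeAddMonoidHom_of]
    right_inv := fun x => by
      have h : (curve_dec A).comp (DirectSum.coeAddMonoidHom (curve_gr A)) =
          AddMonoidHom.id _ := by
        refine DirectSum.addHom_ext fun i y => ?_
        rw [AddMonoidHom.comp_apply, DirectSum.coeAddMonoidHom_of]
        rfl
      exact DFunLike.congr_fun h x }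

/-- finitely generated algebras of dimension at most one over a finite field -/
theorem finGn_curve (p : ℕ) [Fact p.Prime] (A : Type) [CommRing A] [Algebra.FiniteType ℤ A]
    [Algebra (ZMod p) A] (x : A) [Algebra (ZMod p)[X] A] (hx : algebraMap (ZMod p)[X] A X = x)
    (hint : Algebra.IsIntegral (ZMod p)[X] A) : FinGn A := by
  letI := curve_graded A
  refine finGn_graded (curve_gr A) (fun P _ _ => ?_)
  refine KroneckerLeOne.ratSmall ?_
  refine KroneckerLeOne.of_hom (L' := FractionRing (A ⧸ P)) (Subfield.subtype _) ?_
  let K := FractionRing (A ⧸ P)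
  refine kronecker_of_trdeg p K ?_
  intro y z hyz
  set R1 : Subalgebra (ZMod p) K := Algebra.adjoin (ZMod p) {toFrac P x} with hR1
  have hmem : ∀ f : (ZMod p)[X], toFrac P (algebraMap (ZMod p)[X] A f) ∈ R1 := by
    intro f
    have h1 : ((toFrac P).comp (algebraMap (ZMod p)[X] A)) =
        (aeval (toFrac P x) : (ZMod p)[X] →ₐ[ZMod p] K).toRingHom := by
      refine Polynomial.ringHom_ext' (Subsingleton.elim _ _) ?_
      show toFrac P (algebraMap (ZMod p)[X] A X) = aeval (toFrac P x) X
      rw [hx, aeval_X]
    have h2 : toFrac P (algebraMap (ZMod p)[X] A f) = aeval (toFrac P x) f :=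
      RingHom.congr_fun h1 f
    rw [h2]
    exact Polynomial.aeval_mem_adjoin_singleton _ _
  let φ : (ZMod p)[X] →+* R1 :=
    ((toFrac P).comp (algebraMap (ZMod p)[X] A)).codRestrict R1.toSubring hmem
  have hintK : ∀ a : A, IsIntegral R1 (toFrac P a) := fun a =>
    IsIntegral.map_of_comp_eq φ (toFrac P) rfl (hint.isIntegral a)
  have halg : Algebra.IsAlgebraic (Algebra.adjoin (ZMod p) {toFrac P x}) K := by
    constructor
    intro w
    obtain ⟨a, b, hb, rfl⟩ := IsFractionRing.div_surjective (A := A ⧸ P) w
    obtain ⟨a, rfl⟩ := Ideal.Quotient.mk_surjective a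
    obtain ⟨b, rfl⟩ := Ideal.Quotient.mk_surjective b
    rw [div_eq_mul_inv]
    exact (hintK a).isAlgebraic.mul (hintK b).isAlgebraic.inv
  obtain ⟨b, hb, hbas⟩ := exists_isTranscendenceBasis_subset (R := ZMod p) {toFrac P x}
  have hfin : b.Finite := (Set.finite_singleton _).subset hb
  have h1 : ((2 : ℕ) : Cardinal) ≤ Algebra.trdeg (ZMod p) K := by
    simpa using hyz.lift_cardinalMk_le_trdeg
  have h2 : (b.ncard : Cardinal) = Algebra.trdeg (ZMod p) K := by
    rw [Set.cast_ncard hfin]; exact hbas.cardinalMk_eq_trdeg
  have h3 : b.ncard ≤ 1 := by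
    refine (Set.ncard_le_ncard hb (Set.finite_singleton _)).trans ?_
    rw [Set.ncard_singleton]
  have h4 : 2 ≤ b.ncard := by exact_mod_cast h1.trans h2.ge
  omega

theorem curve_ft (k : Type) [Field k] [Finite k] (A : Type) [CommRing A] [Algebra k[X] A]
    [Module.Finite k[X] A] : Algebra.FiniteType ℤ A := by
  haveI : Module.Finite ℤ k := Module.Finite.of_finite
  haveI : Algebra.FiniteType ℤ k[X] := Algebra.FiniteType.trans (S := k) (A := k[X]) inferInstance
    inferInstance
  exact Algebra.FiniteType.trans (S := k[X]) (A := A) inferInstance inferInstance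

/-- the affine curve `y ^ q + y = f (x)` over the finite field `k` -/
theorem curve_good (hk : Setg p m q t k) (f : k[X]) : GoodP p (AS1 q k[X] f) := by
  haveI : Fact p.Prime := ⟨hk.hp⟩
  haveI : Finite k := hk.finite
  haveI : CharP k p := hk.charP
  letI : Algebra (ZMod p) k := ZMod.algebra k p
  have hq : 2 ≤ q := hk.q_two_le
  have hmon : (X ^ q + X - C f : k[X][X]).Monic := by
    have h1 : (X ^ q + X - C f : k[X][X]) = X ^ q + (X - C f) := by ring
    rw [h1]
    refine monic_X_pow_add ?_
    refine lt_of_le_of_lt (degree_X_sub_C_le f) ?_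
    exact_mod_cast hq
  letI : Algebra (ZMod p)[X] k[X] := (mapRingHom (algebraMap (ZMod p) k)).toAlgebra
  let A := AS1 q k[X] f
  haveI : Module.Finite k[X] A := hmon.finite_adjoinRoot
  have h1 : Algebra.IsIntegral (ZMod p)[X] k[X] := by
    constructor
    intro g
    induction g using Polynomial.induction_on' with
    | add a b ha hb => exact ha.add hb
    | monomial n a =>
      rw [← C_mul_X_pow_eq_monomial]
      refine IsIntegral.mul ?_ (IsIntegral.pow ?_ n)
      · have h2 : IsIntegral (ZMod p) a := Algebra.IsIntegral.isIntegral a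
        refine IsIntegral.map_of_comp_eq (C : ZMod p →+* (ZMod p)[X]) (C : k →+* k[X]) ?_ h2
        refine RingHom.ext fun c => ?_
        show map (algebraMap (ZMod p) k) (C c) = C (algebraMap (ZMod p) k c)
        rw [map_C]
      · have h2 : (X : k[X]) = algebraMap (ZMod p)[X] k[X] X := by
          show X = map (algebraMap (ZMod p) k) X
          rw [map_X]
        rw [h2]
        exact isIntegral_algebraMap
  have h2 : Algebra.IsIntegral (ZMod p)[X] A := Algebra.IsIntegral.trans k[X]
  haveI := curve_ft k A
  exact GoodP.of_finGn p (finGn_curve p A (algebraMap (ZMod p)[X] A X) rfl h2)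

end Pool.Agent.HPow
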