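import Pool.Agent.HPow.Stp
import Pool.Agent.HPow.ASr

/-!
# HPow, module Fin: the theorem
-/

set_option autoImplicit false
set_option linter.unusedSectionVars false
set_option linter.style.haveILetI false

namespace Pool.Agent.HPow

open Function Pool.Agent.Helper11

variable {p m q t : ℕ} {k : Type} [Field k]

/-- the two presentations -/
theorem herm_iso (q : ℕ) {s n : ℕ} (a : Fin s → Fin n → k) :
    Nonempty (AS q (MvPolynomial (Fin n) k)
      (fun i => ∑ j, MvPolynomial.C (a i j) * MvPolynomial.X j ^ (q + 1)) ≃+* HermRing q a) := by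
  refine ⟨(Ideal.quotientEquiv _ _ (MvPolynomial.sumRingEquiv k (Fin s) (Fin n))
    ?_).symm⟩
  rw [Ideal.map_span, ← Set.range_comp]
  refine congrArg (fun z => Ideal.span (Set.range z)) (funext fun i => ?_)
  have h4 : (MvPolynomial.sumRingEquiv k (Fin s) (Fin n))
      (MvPolynomial.X (Sum.inl i) ^ q + MvPolynomial.X (Sum.inl i) -
        ∑ j, MvPolynomial.C (a i j) * MvPolynomial.X (Sum.inr j) ^ (q + 1)) =
      MvPolynomial.X i ^ q + MvPolynomial.X i -
        MvPolynomial.C (∑ j, MvPolynomial.C (a i j) * MvPolynomial.X j ^ (q + 1)) := by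
    rw [map_sub, map_add, map_pow, map_sum, MvPolynomial.sumRingEquiv_X_inl, map_sum]
    refine congrArg (fun z => _ - z) (Finset.sum_congr rfl fun j _ => ?_)
    rw [map_mul, map_pow, MvPolynomial.sumRingEquiv_X_inr, MvPolynomial.sumRingEquiv_C,
      map_mul, map_pow]
  exact h4.symm

theorem main (hk : Setg p m q t k) {s n : ℕ} (a : Fin s → Fin n → k)
    (ha : ∀ i j, a i j ^ q = a i j) : GoodP p (HermRing q a) := by
  obtain ⟨e⟩ := herm_iso q a
  refine GoodP.of_equiv e (as_good hk _ ?_ ?_)
  · exact (herm_good hk n 0 (fun j => by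
      rw [Pi.zero_apply]
      exact zero_pow (by have := hk.q_two_le; omega))).1
  · intro c hc
    have h1 := (herm_good hk n (fun j => ∑ i, c i * a i j) (fun j => ?_)).2.1
    · have e1 : (∑ i, algebraMap k (MvPolynomial (Fin n) k) (c i) *
          ∑ j, MvPolynomial.C (a i j) * MvPolynomial.X j ^ (q + 1)) =
          ∑ j, MvPolynomial.C (∑ i, c i * a i j) * MvPolynomial.X j ^ (q + 1) := by
        simp only [Finset.mul_sum, map_sum, Finset.sum_mul, map_mul, MvPolynomial.algebraMap_eq,
          mul_assoc]
        rw [Finset.sum_comm]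
      rw [e1]
      exact h1
    · have : (∑ i, c i * a i j) ^ q = ∑ i, (c i * a i j) ^ q := by
        have hfr : ∀ (r : Finset (Fin s)) (F : Fin s → k), (∑ i ∈ r, F i) ^ q =
            ∑ i ∈ r, F i ^ q := by
          classical
          intro r F
          induction r using Finset.induction_on with
          | empty => simp [show q ≠ 0 by have := hk.q_two_le; omega]
          | insert i r hi ih => rw [Finset.sum_insert hi, Finset.sum_insert hi, hk.add_pow, ih]
        exact hfr _ _
      rw [this]
      refine Finset.sum_congr rfl (fun i _ => ?_)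
      rw [mul_pow, hc i, ha i j]

end Pool.Agent.HPow
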