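import Pool.Agent.HPow.Defs

/-!
# HPow, module Fq: the finite field `k`
-/

set_option autoImplicit false
set_option linter.unusedSectionVars false
set_option linter.unusedVariables false
set_option linter.style.haveILetI false

namespace Pool.Agent.HPow

open Function Polynomial

variable {p m q t : ℕ} {k : Type} [Field k]

namespace Setg

variable (h : Setg p m q t k)
include h

theorem q_two_le : 2 ≤ q := by
  rw [h.hq]
  calc 2 ≤ p := h.hp.two_le
    _ = p ^ 1 := (pow_one p).symm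
    _ ≤ p ^ m := Nat.pow_le_pow_right h.hp.pos h.hm

theorem finite : Finite k := by
  apply Nat.finite_of_card_ne_zero
  rw [h.card]
  have := h.q_two_le
  positivity

theorem charP : CharP k p := by
  haveI := h.finite
  haveI := Fintype.ofFinite k
  haveI : Fact p.Prime := ⟨h.hp⟩
  refine charP_of_card_eq_prime_pow (f := m * (2 * t)) ?_
  rw [← Nat.card_eq_fintype_card, h.card, h.hq, ← pow_mul]

theorem add_pow {B : Type} [CommRing B] [Algebra k B] (x y : B) :
    (x + y) ^ q = x ^ q + y ^ q := by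
  cases subsingleton_or_nontrivial B with
  | inl hB => exact Subsingleton.elim _ _
  | inr hB =>
    haveI : Fact p.Prime := ⟨h.hp⟩
    haveI := h.charP
    haveI : CharP B p := charP_of_injective_algebraMap (algebraMap k B).injective p
    rw [h.hq]
    exact add_pow_char_pow x y p m

theorem neg_pow {B : Type} [CommRing B] [Algebra k B] (x : B) : (-x) ^ q = - x ^ q := by
  have h1 := h.add_pow (-x) x
  rw [neg_add_cancel, zero_pow (by have := h.q_two_le; omega)] at h1
  exact eq_neg_of_add_eq_zero_left h1.symm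

theorem sub_pow {B : Type} [CommRing B] [Algebra k B] (x y : B) :
    (x - y) ^ q = x ^ q - y ^ q := by
  rw [sub_eq_add_neg, h.add_pow, h.neg_pow, ← sub_eq_add_neg]

theorem fq_dvd {n : ℕ} (hn : (q ^ 2 - 1) * n = q ^ (2 * t) - 1) :
    (X ^ (q ^ 2) - X : k[X]) ∣ X ^ (q ^ (2 * t)) - X := by
  have hq := h.q_two_le
  have h2 : 1 ≤ q ^ 2 := Nat.one_le_pow _ _ (by omega)
  have h3 : 1 ≤ q ^ (2 * t) := Nat.one_le_pow _ _ (by omega)
  have e1 : (X ^ (q ^ 2) - X : k[X]) = X * (X ^ (q ^ 2 - 1) - 1) := by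
    rw [mul_sub, mul_one, ← pow_succ', Nat.sub_add_cancel h2]
  have e2 : (X ^ (q ^ (2 * t)) - X : k[X]) = X * ((X ^ (q ^ 2 - 1)) ^ n - 1 ^ n) := by
    rw [mul_sub, one_pow, mul_one, ← pow_mul, hn, ← pow_succ', Nat.sub_add_cancel h3]
  rw [e1, e2]
  exact mul_dvd_mul_left _ (sub_dvd_pow_sub_pow _ _ _)

theorem fq_div : ∃ n, (q ^ 2 - 1) * n = q ^ (2 * t) - 1 := by
  have h1 : q ^ 2 - 1 ∣ (q ^ 2) ^ t - 1 ^ t := Nat.sub_dvd_pow_sub_pow _ _ _
  rw [one_pow, ← pow_mul] at h1
  obtain ⟨n, hn⟩ := h1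
  exact ⟨n, hn.symm⟩

theorem fq_splits_card : (X ^ (q ^ (2 * t)) - X : k[X]).Splits := by
  haveI := h.finite
  haveI := Fintype.ofFinite k
  have h1 : q ^ (2 * t) = Fintype.card k := by rw [← h.card, Nat.card_eq_fintype_card]
  rw [h1, splits_iff_card_roots, FiniteField.roots_X_pow_card_sub_X,
    FiniteField.X_pow_card_sub_X_natDegree_eq k Fintype.one_lt_card]
  rfl

theorem fq_ne_zero {n : ℕ} (hn : 1 < n) : (X ^ n - X : k[X]) ≠ 0 :=
  FiniteField.X_pow_card_sub_X_ne_zero k hn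

theorem fq_one_lt {n : ℕ} (hn : n ≠ 0) : 1 < q ^ n := Nat.one_lt_pow hn (by
  have := h.q_two_le; omega)

theorem fq_splits_sq : (X ^ (q ^ 2) - X : k[X]).Splits := by
  obtain ⟨n, hn⟩ := h.fq_div
  exact h.fq_splits_card.of_dvd (h.fq_ne_zero (h.fq_one_lt (by have := h.ht; omega))) (h.fq_dvd hn)

theorem fq_monic_sq : (X ^ (q ^ 2) - X : k[X]).Monic :=
  monic_X_pow_sub (by
    rw [degree_X]
    exact_mod_cast h.fq_one_lt (n := 2) (by norm_num))

theorem fq_dvd_tr : (X ^ q + X : k[X]) ∣ X ^ (q ^ 2) - X := by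
  have h1 : (X ^ q + X : k[X]) ^ q = X ^ (q ^ 2) + X ^ q := by
    rw [h.add_pow, ← pow_mul, ← sq]
  have h2 : (X ^ (q ^ 2) - X : k[X]) = (X ^ q + X) ^ q - (X ^ q + X) := by
    rw [h1]; ring
  rw [h2]
  exact dvd_sub (dvd_pow_self _ (by have := h.q_two_le; omega)) (dvd_refl _)

theorem fq_dvd_fix : (X ^ q - X : k[X]) ∣ X ^ (q ^ 2) - X := by
  have h1 : (X ^ q - X : k[X]) ^ q = X ^ (q ^ 2) - X ^ q := by
    rw [h.sub_pow, ← pow_mul, ← sq]
  have h2 : (X ^ (q ^ 2) - X : k[X]) = (X ^ q - X) ^ q + (X ^ q - X) := by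
    rw [h1]; ring
  rw [h2]
  exact dvd_add (dvd_pow_self _ (by have := h.q_two_le; omega)) (dvd_refl _)

theorem fq_sq_ne : (X ^ (q ^ 2) - X : k[X]) ≠ 0 := h.fq_ne_zero (h.fq_one_lt (by norm_num))

theorem fq_splits_tr : (X ^ q + X : k[X]).Splits := h.fq_splits_sq.of_dvd h.fq_sq_ne h.fq_dvd_tr

theorem fq_splits_fix : (X ^ q - X : k[X]).Splits := h.fq_splits_sq.of_dvd h.fq_sq_ne h.fq_dvd_fix

theorem fq_monic_tr : (X ^ q + X : k[X]).Monic :=
  monic_X_pow_add (by
    rw [degree_X]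
    exact_mod_cast (by have := h.q_two_le; omega : 1 < q))

theorem fq_deg_tr : (X ^ q + X : k[X]).natDegree = q := by
  have h1 : (X : k[X]).natDegree < (X ^ q : k[X]).natDegree := by
    rw [natDegree_X, natDegree_X_pow]; have := h.q_two_le; omega
  rw [natDegree_add_eq_left_of_natDegree_lt h1, natDegree_X_pow]

theorem fq_deg_fix : (X ^ q - X : k[X]).natDegree = q :=
  FiniteField.X_pow_card_sub_X_natDegree_eq k (by have := h.q_two_le; omega)

theorem fq_q_zero : (q : k) = 0 := by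
  haveI := h.charP
  rw [h.hq, Nat.cast_pow, CharP.cast_eq_zero, zero_pow (by have := h.hm; omega)]

theorem fq_card_roots (F : k[X]) (hs : F.Splits) (hsep : F.Separable) (P : k → Prop)
    (hP : ∀ c, P c ↔ F.eval c = 0) : Nat.card {c : k // P c} = F.natDegree := by
  classical
  have hF : F ≠ 0 := by
    rintro rfl
    exact not_separable_zero hsep
  have h1 : F.roots.toFinset.card = F.natDegree := by
    rw [hs.natDegree_eq_card_roots]
    exact Multiset.toFinset_card_of_nodup (nodup_roots hsep)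
  rw [← h1]
  have e : {c : k // P c} ≃ {c : k // c ∈ F.roots.toFinset} :=
    Equiv.subtypeEquivRight (fun c => by
      rw [hP, Multiset.mem_toFinset, mem_roots hF, IsRoot.def])
  rw [Nat.card_congr e, Nat.card_eq_fintype_card, Fintype.card_coe]

/-- the kernel of the trace -/
theorem card_tr : Nat.card {c : k // c ^ q + c = 0} = q := by
  rw [h.fq_card_roots _ h.fq_splits_tr ?_ _ (fun c => by simp), h.fq_deg_tr]
  rw [Polynomial.Separable]
  have : derivative (X ^ q + X : k[X]) = 1 := by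
    rw [derivative_add, derivative_X_pow, derivative_X, h.fq_q_zero, C_0, zero_mul, zero_add]
  rw [this]
  exact isCoprime_one_right

/-- the subfield with `q` elements -/
theorem card_fq : Nat.card {c : k // c ^ q = c} = q := by
  rw [h.fq_card_roots _ h.fq_splits_fix ?_ _ (fun c => by simp [sub_eq_zero]), h.fq_deg_fix]
  rw [Polynomial.Separable]
  have : derivative (X ^ q - X : k[X]) = -1 := by
    rw [derivative_sub, derivative_X_pow, derivative_X, h.fq_q_zero, C_0, zero_mul, zero_sub]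
  rw [this]
  exact (IsCoprime.neg_right_iff _ _).2 isCoprime_one_right

theorem fq_card_sq : Nat.card {c : k // c ^ (q ^ 2) = c} = q ^ 2 := by
  rw [h.fq_card_roots _ h.fq_splits_sq ?_ _ (fun c => by simp [sub_eq_zero]),
    FiniteField.X_pow_card_sub_X_natDegree_eq k (h.fq_one_lt (by norm_num))]
  rw [Polynomial.Separable]
  have : derivative (X ^ (q ^ 2) - X : k[X]) = -1 := by
    rw [derivative_sub, derivative_X_pow, derivative_X, Nat.cast_pow, h.fq_q_zero,
      zero_pow (by norm_num), C_0, zero_mul, zero_sub]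
  rw [this]
  exact (IsCoprime.neg_right_iff _ _).2 isCoprime_one_right

/-- the trace is onto -/
theorem exists_tau : ∃ τ : k, τ + τ ^ q = 1 := by
  haveI := h.finite
  have h0 : ∃ c : k, c ^ (q ^ 2) = c ∧ c ^ q + c ≠ 0 := by
    by_contra hcon
    push Not at hcon
    have h1 : Nat.card {c : k // c ^ (q ^ 2) = c} ≤ Nat.card {c : k // c ^ q + c = 0} :=
      Nat.card_le_card_of_injective (fun c => ⟨c.1, hcon c.1 c.2⟩) (fun c d hcd => by
        have := congrArg Subtype.val hcd
        exact Subtype.ext this)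
    rw [h.fq_card_sq, h.card_tr] at h1
    have := h.q_two_le
    nlinarith
  obtain ⟨c, hc, hd⟩ := h0
  set d := c ^ q + c with hd'
  have hdq : d ^ q = d := by
    rw [hd', h.add_pow, ← pow_mul, ← sq, hc, add_comm]
  refine ⟨c / d, ?_⟩
  rw [div_pow, hdq, ← add_div, add_comm, ← hd', div_self hd]

/-- the norm is onto -/
theorem exists_norm (b : k) (hb : b ^ q = b) (hb0 : b ≠ 0) : ∃ l : k, l ≠ 0 ∧ l ^ (q + 1) = b := by
  haveI := h.finite
  obtain ⟨g, hg⟩ := IsCyclic.exists_monoid_generator (α := kˣ)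
  obtain ⟨j, hj⟩ := hg (Units.mk0 b hb0)
  have hj' : g ^ j = Units.mk0 b hb0 := hj
  have hq := h.q_two_le
  have hord : orderOf g = q ^ (2 * t) - 1 := by
    rw [← h.card, ← Nat.card_units]
    apply orderOf_eq_card_of_forall_mem_zpowers
    intro x
    obtain ⟨i, hi⟩ := hg x
    exact ⟨i, (zpow_natCast g i).trans hi⟩
  have h1 : g ^ (j * (q - 1)) = 1 := by
    rw [pow_mul, hj']
    apply Units.ext
    rw [Units.val_pow_eq_pow_val, Units.val_mk0, Units.val_one]
    have h2 : b ^ (q - 1) * b = 1 * b := by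
      rw [← pow_succ, Nat.sub_add_cancel (by omega), hb, one_mul]
    exact mul_right_cancel₀ hb0 h2
  have h2 : orderOf g ∣ j * (q - 1) := orderOf_dvd_of_pow_eq_one h1
  rw [hord] at h2
  obtain ⟨n, hn⟩ := h.fq_div
  have h3 : (q ^ 2 - 1) ∣ j * (q - 1) := (Dvd.intro n hn).trans h2
  have h4 : q ^ 2 - 1 = (q + 1) * (q - 1) := by
    have := Nat.sq_sub_sq q 1
    simpa using this
  rw [h4] at h3
  have h5 : q + 1 ∣ j := Nat.dvd_of_mul_dvd_mul_right (by omega) h3
  obtain ⟨i, rfl⟩ := h5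
  refine ⟨(g ^ i : kˣ), Units.ne_zero _, ?_⟩
  have h6 := congrArg Units.val hj'
  rw [Units.val_mk0] at h6
  rw [← h6, ← Units.val_pow_eq_pow_val, ← pow_mul, mul_comm]

theorem prod_tr : ∃ s : Multiset k, (X ^ q + X : k[X]) = (s.map fun θ => X - C θ).prod :=
  ⟨_, h.fq_splits_tr.eq_prod_roots_of_monic h.fq_monic_tr⟩

theorem prod_sq : ∃ s : Multiset k, (X ^ (q ^ 2) - X : k[X]) = (s.map fun θ => X - C θ).prod :=
  ⟨_, h.fq_splits_sq.eq_prod_roots_of_monic h.fq_monic_sq⟩

/-- quotients of elements of the kernel of the trace -/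
theorem div_tr {a b : k} (ha : a ^ q + a = 0) (hb : b ^ q + b = 0) (hb0 : b ≠ 0) :
    (a / b) ^ q = a / b := by
  rw [div_pow, eq_neg_of_add_eq_zero_left ha, eq_neg_of_add_eq_zero_left hb, neg_div_neg_eq]

end Setg

end Pool.Agent.HPow
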