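import Pool.Agent.HPow.Fq

/-!
# HPow, module HypA: coordinate changes
-/

set_option autoImplicit false
set_option linter.unusedSectionVars false
set_option linter.style.haveILetI false

namespace Pool.Agent.HPow

open Function MvPolynomial

variable {p m q t : ℕ} {k : Type} [Field k] {W : Type} [CommRing W] [Algebra k W]

/-- the ring `W[u, v, y] / F` -/
abbrev W3 {W : Type} [CommRing W] (F : MvPolynomial (Fin 3) W) : Type :=
  MvPolynomial (Fin 3) W ⧸ Ideal.span {F}

/-- `y ^ q + y = u v ^ q + u ^ q v + h` -/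
noncomputable abbrev F1 (q : ℕ) {W : Type} [CommRing W] (h : W) : MvPolynomial (Fin 3) W :=
  X 2 ^ q + X 2 - (X 0 * X 1 ^ q + X 0 ^ q * X 1 + C h)

/-- `y ^ q + y = c ^ q v ^ q + c ^ (q ^ 2) v + h` -/
noncomputable abbrev F2 (q : ℕ) {W : Type} [CommRing W] (h : W) : MvPolynomial (Fin 3) W :=
  X 2 ^ q + X 2 - (X 0 ^ q * X 1 ^ q + X 0 ^ (q ^ 2) * X 1 + C h)

/-- `y ^ q + y = (c ^ (q ^ 2) - c) v + h` -/
noncomputable abbrev F3 (q : ℕ) {W : Type} [CommRing W] (h : W) : MvPolynomial (Fin 3) W :=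
  X 2 ^ q + X 2 - ((X 0 ^ (q ^ 2) - X 0) * X 1 + C h)

/-- quotients by principal ideals under an isomorphism -/
theorem hypa_quot {R S : Type} [CommRing R] [CommRing S] (f : R →+* S) (g : S →+* R)
    (h1 : g.comp f = RingHom.id R) (h2 : f.comp g = RingHom.id S) (a : R) (b : S)
    (hab : Ideal.span {f a} = Ideal.span {b}) :
    Nonempty (R ⧸ Ideal.span {a} ≃+* S ⧸ Ideal.span {b}) := by
  have hf : ∀ x, g (f x) = x := fun x => by
    have := congrArg (fun φ : R →+* R => φ x) h1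
    simpa using this
  have hg : ∀ x, f (g x) = x := fun x => by
    have := congrArg (fun φ : S →+* S => φ x) h2
    simpa using this
  let e : R ≃+* S :=
    { f with
      invFun := g
      left_inv := hf
      right_inv := hg }
  refine ⟨Ideal.quotientEquiv _ _ e ?_⟩
  rw [Ideal.map_span, Set.image_singleton]
  exact hab.symm

/-- the same, one variable more -/
theorem hypa_adj {R S : Type} [CommRing R] [CommRing S] (f : R →+* Polynomial S)
    (g : Polynomial S →+* R) (h1 : g.comp f = RingHom.id R)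
    (h2 : f.comp g = RingHom.id (Polynomial S)) (a : R) (P : Polynomial S) (hab : f a = P) :
    Nonempty (R ⧸ Ideal.span {a} ≃+* AdjoinRoot P) :=
  hypa_quot f g h1 h2 a P (by rw [hab])

/-- the linear change of coordinates -/
theorem hypa_lin {R S : Type} [CommRing R] [CommRing S] (f : R →+* S) (g : S →+* R)
    (cS : k →+* S) (cR : k →+* R) (τ l1 l2 : k) (hl1 : l1 ≠ 0) (hl2 : l2 ≠ 0) (U V : R)
    (x1 x2 : S) (hfc : ∀ a, f (cR a) = cS a) (hgc : ∀ a, g (cS a) = cR a)
    (hf0 : f U = (1 - cS τ) * (cS l1 * x1) + cS τ * (cS l2 * x2))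
    (hf1 : f V = cS l1 * x1 - cS l2 * x2) (hgx1 : g x1 = cR l1⁻¹ * (U + cR τ * V))
    (hgx2 : g x2 = cR l2⁻¹ * (U + (cR τ - 1) * V)) :
    g (f U) = U ∧ g (f V) = V ∧ f (g x1) = x1 ∧ f (g x2) = x2 := by
  have hc1 : cR l1 * cR l1⁻¹ = 1 := by rw [← map_mul, mul_inv_cancel₀ hl1, map_one]
  have hc2 : cR l2 * cR l2⁻¹ = 1 := by rw [← map_mul, mul_inv_cancel₀ hl2, map_one]
  have hc1' : cS l1⁻¹ * cS l1 = 1 := by rw [← map_mul, inv_mul_cancel₀ hl1, map_one]
  have hc2' : cS l2⁻¹ * cS l2 = 1 := by rw [← map_mul, inv_mul_cancel₀ hl2, map_one]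
  refine ⟨?_, ?_, ?_, ?_⟩
  · rw [hf0]
    simp only [map_add, map_mul, map_sub, map_one, hgc, hgx1, hgx2]
    linear_combination (1 - cR τ) * (U + cR τ * V) * hc1 + cR τ * (U + (cR τ - 1) * V) * hc2
  · rw [hf1]
    simp only [map_mul, map_sub, hgc, hgx1, hgx2]
    linear_combination (U + cR τ * V) * hc1 - (U + (cR τ - 1) * V) * hc2
  · rw [hgx1]
    simp only [map_add, map_mul, hfc, hf0, hf1]
    linear_combination x1 * hc1'
  · rw [hgx2]
    simp only [map_add, map_mul, map_sub, map_one, hfc, hf0, hf1]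
    linear_combination x2 * hc2'

/-- the Hermitian form in the new coordinates -/
theorem hypa_form (hk : Setg p m q t k) {S : Type} [CommRing S] [Algebra k S] (cS : k →+* S)
    (τ l1 l2 b1 b2 : k) (hτ : τ + τ ^ q = 1) (hl1 : l1 ^ (q + 1) = b1)
    (hl2 : l2 ^ (q + 1) = -b2) (x1 x2 : S) :
    ((1 - cS τ) * (cS l1 * x1) + cS τ * (cS l2 * x2)) * (cS l1 * x1 - cS l2 * x2) ^ q +
      ((1 - cS τ) * (cS l1 * x1) + cS τ * (cS l2 * x2)) ^ q * (cS l1 * x1 - cS l2 * x2) =
      cS b1 * x1 ^ (q + 1) + cS b2 * x2 ^ (q + 1) := by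
  have hτq : cS τ ^ q = 1 - cS τ := by
    rw [← map_pow, ← map_one cS, ← map_sub]
    congr 1
    linear_combination hτ
  have hq1 : (1 - cS τ) ^ q = cS τ := by
    rw [hk.sub_pow 1 (cS τ), one_pow, hτq]
    ring
  have hA : (cS l1 * x1) ^ (q + 1) = cS b1 * x1 ^ (q + 1) := by
    rw [mul_pow, ← map_pow, hl1]
  have hB : (cS l2 * x2) ^ (q + 1) = - (cS b2 * x2 ^ (q + 1)) := by
    rw [mul_pow, ← map_pow, hl2, map_neg]
    ring
  generalize cS l1 * x1 = A at *
  generalize cS l2 * x2 = B at *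
  have hu : ((1 - cS τ) * A + cS τ * B) ^ q = cS τ * A ^ q + (1 - cS τ) * B ^ q := by
    rw [hk.add_pow ((1 - cS τ) * A) (cS τ * B), mul_pow, mul_pow, hq1, hτq]
  have hv : (A - B) ^ q = A ^ q - B ^ q := hk.sub_pow A B
  rw [hu, hv]
  rw [pow_succ] at hA hB
  linear_combination hA - hB

/-- the image of the equation -/
theorem hypa_img (hk : Setg p m q t k) {R S : Type} [CommRing R] [CommRing S] [Algebra k S]
    (f : R →+* S) (cS : k →+* S) (τ l1 l2 b1 b2 : k) (hτ : τ + τ ^ q = 1)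
    (hl1 : l1 ^ (q + 1) = b1) (hl2 : l2 ^ (q + 1) = -b2) (X0 X1 X2 H : R) (x1 x2 y hS E : S)
    (hf0 : f X0 = (1 - cS τ) * (cS l1 * x1) + cS τ * (cS l2 * x2))
    (hf1 : f X1 = cS l1 * x1 - cS l2 * x2) (hf2 : f X2 = y) (hfH : f H = hS)
    (hE : E = hS + (cS b1 * x1 ^ (q + 1) + cS b2 * x2 ^ (q + 1))) :
    f (X2 ^ q + X2 - (X0 * X1 ^ q + X0 ^ q * X1 + H)) = y ^ q + y - E := by
  rw [map_sub, map_add, map_pow, map_add, map_add, map_mul, map_mul, map_pow, map_pow, hf2, hf0,
    hf1, hfH, hypa_form hk cS τ l1 l2 b1 b2 hτ hl1 hl2, hE, add_comm hS]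

/-- the hyperbolic plane, general form -/
theorem hypa_gen (hk : Setg p m q t k) (h : W) (b1 b2 : k) (hb1 : b1 ^ q = b1)
    (hb2 : b2 ^ q = b2) (hb10 : b1 ≠ 0) (hb20 : b2 ≠ 0) {V : Type} [CommRing V] [Algebra k V]
    (ι : W →+* V) (x1 x2 H : V)
    (hlift : ∀ A B : MvPolynomial (Fin 3) W, ∃ G : V →+* MvPolynomial (Fin 3) W,
      (∀ w, G (ι w) = C w) ∧ G x1 = A ∧ G x2 = B)
    (hext : ∀ (T : Type) [CommRing T] (φ ψ : V →+* T), (∀ w, φ (ι w) = ψ (ι w)) →
      φ x1 = ψ x1 → φ x2 = ψ x2 → φ = ψ)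
    (hH : H = ι h + (ι (algebraMap k W b1) * x1 ^ (q + 1) +
      ι (algebraMap k W b2) * x2 ^ (q + 1))) :
    Nonempty (W3 (F1 q h) ≃+* AS1 q V H) := by
  obtain ⟨τ, hτ⟩ := hk.exists_tau
  obtain ⟨l1, hl1, hl1'⟩ := hk.exists_norm b1 hb1 hb10
  have hb2' : (-b2) ^ q = -b2 := by
    have := hk.neg_pow b2
    rw [this, hb2]
  obtain ⟨l2, hl2, hl2'⟩ := hk.exists_norm (-b2) hb2' (neg_ne_zero.mpr hb20)
  set cS : k →+* Polynomial V := (Polynomial.C.comp ι).comp (algebraMap k W) with hcS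
  set cR : k →+* MvPolynomial (Fin 3) W := (MvPolynomial.C).comp (algebraMap k W) with hcR
  set f : MvPolynomial (Fin 3) W →+* Polynomial V := MvPolynomial.eval₂Hom (Polynomial.C.comp ι)
    ![(1 - cS τ) * (cS l1 * Polynomial.C x1) + cS τ * (cS l2 * Polynomial.C x2),
      cS l1 * Polynomial.C x1 - cS l2 * Polynomial.C x2, Polynomial.X] with hf
  obtain ⟨G, hGC, hG1, hG2⟩ := hlift (cR l1⁻¹ * (X 0 + cR τ * X 1))
    (cR l2⁻¹ * (X 0 + (cR τ - 1) * X 1))
  set g : Polynomial V →+* MvPolynomial (Fin 3) W := Polynomial.eval₂RingHom G (X 2) with hg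
  have hfC : ∀ w, f (C w) = Polynomial.C (ι w) := fun w => by simp [hf]
  have hf0 : f (X 0) = (1 - cS τ) * (cS l1 * Polynomial.C x1) +
      cS τ * (cS l2 * Polynomial.C x2) := by simp [hf]
  have hf1 : f (X 1) = cS l1 * Polynomial.C x1 - cS l2 * Polynomial.C x2 := by simp [hf]
  have hf2 : f (X 2) = Polynomial.X := by simp [hf]
  have hgv : ∀ v, g (Polynomial.C v) = G v := fun v => by simp [hg]
  have hgX : g Polynomial.X = X 2 := by simp [hg]
  have hfc : ∀ a, f (cR a) = cS a := fun a => hfC _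
  have hgc : ∀ a, g (cS a) = cR a := fun a => (hgv _).trans (hGC _)
  obtain ⟨a1, a2, a3, a4⟩ := hypa_lin f g cS cR τ l1 l2 hl1 hl2
    (X 0) (X 1) (Polynomial.C x1) (Polynomial.C x2)
    hfc hgc hf0 hf1 ((hgv _).trans hG1) ((hgv _).trans hG2)
  have e1 : g.comp f = RingHom.id _ := by
    apply MvPolynomial.ringHom_ext
    · intro w
      rw [RingHom.comp_apply, hfC, hgv, hGC, RingHom.id_apply]
    · intro i
      rw [RingHom.comp_apply, RingHom.id_apply]
      fin_cases i
      · exact a1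
      · exact a2
      · change g (f (X 2)) = X 2
        rw [hf2, hgX]
  have e2 : f.comp g = RingHom.id _ := by
    apply Polynomial.ringHom_ext'
    · apply hext (Polynomial V)
      · intro w
        change f (g (Polynomial.C (ι w))) = Polynomial.C (ι w)
        rw [hgv, hGC, hfC]
      · exact a3
      · exact a4
    · change f (g Polynomial.X) = Polynomial.X
      rw [hgX, hf2]
  have hE : Polynomial.C H = Polynomial.C (ι h) + (cS b1 * Polynomial.C x1 ^ (q + 1) +
      cS b2 * Polynomial.C x2 ^ (q + 1)) := by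
    rw [hH, hcS]
    simp only [map_add, map_mul, map_pow, RingHom.comp_apply]
  have himg := hypa_img hk f cS τ l1 l2 b1 b2 hτ hl1' hl2'
    (X 0) (X 1) (X 2) (C h) _ _ _ _ _ hf0 hf1 hf2 (hfC h) hE
  exact hypa_adj f g e1 e2 _ _ himg

/-- the hyperbolic plane -/
theorem iso_hyp (hk : Setg p m q t k) (h : W) (b1 b2 : k) (hb1 : b1 ^ q = b1) (hb2 : b2 ^ q = b2)
    (hb10 : b1 ≠ 0) (hb20 : b2 ≠ 0) :
    Nonempty (W3 (F1 q h) ≃+* AS1 q (Polynomial (Polynomial W)) (ext q (ext q h b1) b2)) := by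
  refine hypa_gen hk h b1 b2 hb1 hb2 hb10 hb20 (Polynomial.C.comp Polynomial.C)
    (Polynomial.C Polynomial.X) Polynomial.X _ ?_ ?_ ?_
  · intro A B
    refine ⟨Polynomial.eval₂RingHom (Polynomial.eval₂RingHom C A) B, ?_, ?_, ?_⟩
    · intro w
      simp
    · simp
    · simp
  · intro T _ φ ψ h0 h1 h2
    exact Polynomial.ringHom_ext' (Polynomial.ringHom_ext' (RingHom.ext h0) h1) h2
  · simp only [ext, Polynomial.algebraMap_apply, map_add, map_mul, map_pow,
      RingHom.comp_apply]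
    rw [add_assoc]

/-- the radical base change -/
theorem iso_rad (hk : Setg p m q t k) (h : W) :
    Nonempty (W3 (F2 q h) ≃+* AdjoinRoot (Polynomial.X ^ q -
      Polynomial.C (Ideal.Quotient.mk _ (X 0)) : Polynomial (W3 (F1 q h)))) := by
  let P : Polynomial (W3 (F1 q h)) := Polynomial.X ^ q -
      Polynomial.C (Ideal.Quotient.mk _ (X 0))
  let T := AdjoinRoot P
  let mk1 : MvPolynomial (Fin 3) W →+* W3 (F1 q h) := Ideal.Quotient.mk _
  let mk2 : MvPolynomial (Fin 3) W →+* W3 (F2 q h) := Ideal.Quotient.mk _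
  let of : W3 (F1 q h) →+* T := AdjoinRoot.of P
  have hroot : (AdjoinRoot.root P) ^ q = of (mk1 (X 0)) := by
    have h1 := AdjoinRoot.eval₂_root P
    simp only [P, Polynomial.eval₂_sub, Polynomial.eval₂_pow, Polynomial.eval₂_X,
      Polynomial.eval₂_C] at h1
    exact sub_eq_zero.mp h1
  have hF1 : mk1 (F1 q h) = 0 := Ideal.Quotient.eq_zero_iff_mem.mpr (Ideal.mem_span_singleton_self _)
  have hF2 : mk2 (F2 q h) = 0 := Ideal.Quotient.eq_zero_iff_mem.mpr (Ideal.mem_span_singleton_self _)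
  let f0 : MvPolynomial (Fin 3) W →+* T := MvPolynomial.eval₂Hom ((of.comp mk1).comp C)
    ![AdjoinRoot.root P, of (mk1 (X 1)), of (mk1 (X 2))]
  have f0C : ∀ w, f0 (C w) = of (mk1 (C w)) := fun w => by simp [f0]
  have f00 : f0 (X 0) = AdjoinRoot.root P := by simp [f0]
  have f01 : f0 (X 1) = of (mk1 (X 1)) := by simp [f0]
  have f02 : f0 (X 2) = of (mk1 (X 2)) := by simp [f0]
  have hf0 : f0 (F2 q h) = 0 := by
    change f0 (X 2 ^ q + X 2 - (X 0 ^ q * X 1 ^ q + X 0 ^ (q ^ 2) * X 1 + C h)) = 0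
    have h2 := congrArg of hF1
    change of (mk1 (X 2 ^ q + X 2 - (X 0 * X 1 ^ q + X 0 ^ q * X 1 + C h))) = of 0 at h2
    simp only [map_sub, map_add, map_mul, map_pow, map_zero] at h2
    simp only [map_sub, map_add, map_mul, map_pow, f0C, f00, f01, f02]
    have h3 : AdjoinRoot.root P ^ (q ^ 2) = of (mk1 (X 0)) ^ q := by
      rw [pow_two, pow_mul, hroot]
    rw [h3, hroot]
    exact h2
  let f : W3 (F2 q h) →+* T := Ideal.Quotient.lift _ f0 (by
    intro a ha
    rw [Ideal.mem_span_singleton] at ha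
    obtain ⟨b, rfl⟩ := ha
    rw [map_mul, hf0, zero_mul])
  have hf : ∀ a, f (mk2 a) = f0 a := fun a => Ideal.Quotient.lift_mk _ _ _
  let g0 : MvPolynomial (Fin 3) W →+* W3 (F2 q h) := MvPolynomial.eval₂Hom (mk2.comp C)
    ![mk2 (X 0) ^ q, mk2 (X 1), mk2 (X 2)]
  have g0C : ∀ w, g0 (C w) = mk2 (C w) := fun w => by simp [g0]
  have g00 : g0 (X 0) = mk2 (X 0) ^ q := by simp [g0]
  have g01 : g0 (X 1) = mk2 (X 1) := by simp [g0]
  have g02 : g0 (X 2) = mk2 (X 2) := by simp [g0]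
  have hg0 : g0 (F1 q h) = 0 := by
    change g0 (X 2 ^ q + X 2 - (X 0 * X 1 ^ q + X 0 ^ q * X 1 + C h)) = 0
    have h2 := hF2
    change mk2 (X 2 ^ q + X 2 - (X 0 ^ q * X 1 ^ q + X 0 ^ (q ^ 2) * X 1 + C h)) = 0 at h2
    simp only [map_sub, map_add, map_mul, map_pow] at h2
    simp only [map_sub, map_add, map_mul, map_pow, g0C, g00, g01, g02]
    rw [← pow_mul, ← pow_two]
    exact h2
  let g1 : W3 (F1 q h) →+* W3 (F2 q h) := Ideal.Quotient.lift _ g0 (by
    intro a ha
    rw [Ideal.mem_span_singleton] at ha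
    obtain ⟨b, rfl⟩ := ha
    rw [map_mul, hg0, zero_mul])
  have hg1 : ∀ a, g1 (mk1 a) = g0 a := fun a => Ideal.Quotient.lift_mk _ _ _
  let g : T →+* W3 (F2 q h) := AdjoinRoot.lift g1 (mk2 (X 0)) (by
    simp only [P, Polynomial.eval₂_sub, Polynomial.eval₂_pow, Polynomial.eval₂_X,
      Polynomial.eval₂_C]
    have h3 := hg1 (X 0)
    change mk2 (X 0) ^ q - g1 (mk1 (X 0)) = 0
    rw [h3, g00, sub_self])
  have hgo : ∀ a, g (of a) = g1 a := fun a => AdjoinRoot.lift_of _
  have hgr : g (AdjoinRoot.root P) = mk2 (X 0) := AdjoinRoot.lift_root _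
  have e1 : g.comp f = RingHom.id _ := by
    apply Ideal.Quotient.ringHom_ext
    apply MvPolynomial.ringHom_ext
    · intro w
      change g (f (mk2 (C w))) = mk2 (C w)
      rw [hf, f0C, hgo, hg1, g0C]
    · intro i
      fin_cases i
      · change g (f (mk2 (X 0))) = mk2 (X 0)
        rw [hf, f00, hgr]
      · change g (f (mk2 (X 1))) = mk2 (X 1)
        rw [hf, f01, hgo, hg1, g01]
      · change g (f (mk2 (X 2))) = mk2 (X 2)
        rw [hf, f02, hgo, hg1, g02]
  have e2 : f.comp g = RingHom.id _ := by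
    apply Ideal.Quotient.ringHom_ext
    apply Polynomial.ringHom_ext'
    · apply Ideal.Quotient.ringHom_ext
      apply MvPolynomial.ringHom_ext
      · intro w
        change f (g (of (mk1 (C w)))) = of (mk1 (C w))
        rw [hgo, hg1, g0C, hf, f0C]
      · intro i
        fin_cases i
        · change f (g (of (mk1 (X 0)))) = of (mk1 (X 0))
          rw [hgo, hg1, g00, map_pow, hf, f00, hroot]
        · change f (g (of (mk1 (X 1)))) = of (mk1 (X 1))
          rw [hgo, hg1, g01, hf, f01]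
        · change f (g (of (mk1 (X 2)))) = of (mk1 (X 2))
          rw [hgo, hg1, g02, hf, f02]
    · change f (g (AdjoinRoot.root P)) = AdjoinRoot.root P
      rw [hgr, hf, f00]
  have hgf : ∀ x, g (f x) = x := fun x => congrArg (fun φ : W3 (F2 q h) →+* W3 (F2 q h) => φ x) e1
  have hfg : ∀ x, f (g x) = x := fun x => congrArg (fun φ : T →+* T => φ x) e2
  exact ⟨{ f with
      invFun := g
      left_inv := hgf
      right_inv := hfg }⟩

/-- the substitution `y ↦ y + c v` -/
theorem iso_sub (hk : Setg p m q t k) (h : W) : Nonempty (W3 (F3 q h) ≃+* W3 (F2 q h)) := by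
  let f : MvPolynomial (Fin 3) W →+* MvPolynomial (Fin 3) W := MvPolynomial.eval₂Hom C ![X 0, X 1, X 2 - X 0 * X 1]
  let g : MvPolynomial (Fin 3) W →+* MvPolynomial (Fin 3) W := MvPolynomial.eval₂Hom C ![X 0, X 1, X 2 + X 0 * X 1]
  have fC : ∀ w, f (C w) = C w := fun w => by simp [f]
  have f0 : f (X 0) = X 0 := by simp [f]
  have f1 : f (X 1) = X 1 := by simp [f]
  have f2 : f (X 2) = X 2 - X 0 * X 1 := by simp [f]
  have gC : ∀ w, g (C w) = C w := fun w => by simp [g]
  have g0 : g (X 0) = X 0 := by simp [g]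
  have g1 : g (X 1) = X 1 := by simp [g]
  have g2 : g (X 2) = X 2 + X 0 * X 1 := by simp [g]
  have e1 : g.comp f = RingHom.id _ := by
    apply MvPolynomial.ringHom_ext
    · intro w
      rw [RingHom.comp_apply, fC, gC, RingHom.id_apply]
    · intro i
      rw [RingHom.comp_apply, RingHom.id_apply]
      fin_cases i
      · change g (f (X 0)) = X 0
        rw [f0, g0]
      · change g (f (X 1)) = X 1
        rw [f1, g1]
      · change g (f (X 2)) = X 2
        rw [f2, map_sub, map_mul, g2, g0, g1]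
        ring
  have e2 : f.comp g = RingHom.id _ := by
    apply MvPolynomial.ringHom_ext
    · intro w
      rw [RingHom.comp_apply, gC, fC, RingHom.id_apply]
    · intro i
      rw [RingHom.comp_apply, RingHom.id_apply]
      fin_cases i
      · change f (g (X 0)) = X 0
        rw [g0, f0]
      · change f (g (X 1)) = X 1
        rw [g1, f1]
      · change f (g (X 2)) = X 2
        rw [g2, map_add, map_mul, f2, f0, f1]
        ring
  refine hypa_quot f g e1 e2 (F3 q h) (F2 q h) ?_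
  congr 2
  change f (X 2 ^ q + X 2 - ((X 0 ^ (q ^ 2) - X 0) * X 1 + C h)) =
    X 2 ^ q + X 2 - (X 0 ^ q * X 1 ^ q + X 0 ^ (q ^ 2) * X 1 + C h)
  simp only [map_sub, map_add, map_mul, map_pow, fC, f0, f1, f2]
  have h1 : (X 2 - X 0 * X 1 : MvPolynomial (Fin 3) W) ^ q = X 2 ^ q - (X 0 * X 1) ^ q :=
    hk.sub_pow (B := MvPolynomial (Fin 3) W) (X 2) (X 0 * X 1)
  rw [h1, mul_pow]
  ring

/-- `c ^ (q ^ 2) - c` in `W[c, y]` -/
noncomputable abbrev dl (q : ℕ) (W : Type) [CommRing W] : MvPolynomial (Fin 2) W :=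
  X 0 ^ (q ^ 2) - X 0

/-- `y ^ q + y - h` in `W[c, y]` -/
noncomputable abbrev gg (q : ℕ) {W : Type} [CommRing W] (h : W) : MvPolynomial (Fin 2) W :=
  X 1 ^ q + X 1 - C h

/-- elimination form -/
theorem iso_elim (q : ℕ) {W : Type} [CommRing W] (h : W) :
    Nonempty ((Polynomial (MvPolynomial (Fin 2) W) ⧸ Ideal.span
      {Polynomial.C (dl q W) * Polynomial.X - Polynomial.C (gg q h)}) ≃+* W3 (F3 q h)) := by
  let f : Polynomial (MvPolynomial (Fin 2) W) →+* MvPolynomial (Fin 3) W := Polynomial.eval₂RingHom (MvPolynomial.eval₂Hom C ![X 0, X 2]) (X 1)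
  let g : MvPolynomial (Fin 3) W →+* Polynomial (MvPolynomial (Fin 2) W) := MvPolynomial.eval₂Hom (Polynomial.C.comp C)
    ![Polynomial.C (X 0), Polynomial.X, Polynomial.C (X 1)]
  have fX : f Polynomial.X = X 1 := by simp [f]
  have f0 : f (Polynomial.C (X 0)) = X 0 := by simp [f]
  have f1 : f (Polynomial.C (X 1)) = X 2 := by simp [f]
  have fC : ∀ w, f (Polynomial.C (C w)) = C w := fun w => by simp [f]
  have gC : ∀ w, g (C w) = Polynomial.C (C w) := fun w => by simp [g]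
  have g0 : g (X 0) = Polynomial.C (X 0) := by simp [g]
  have g1 : g (X 1) = Polynomial.X := by simp [g]
  have g2 : g (X 2) = Polynomial.C (X 1) := by simp [g]
  have e1 : g.comp f = RingHom.id _ := by
    apply Polynomial.ringHom_ext'
    · apply MvPolynomial.ringHom_ext
      · intro w
        change g (f (Polynomial.C (C w))) = Polynomial.C (C w)
        rw [fC, gC]
      · intro i
        fin_cases i
        · change g (f (Polynomial.C (X 0))) = Polynomial.C (X 0)
          rw [f0, g0]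
        · change g (f (Polynomial.C (X 1))) = Polynomial.C (X 1)
          rw [f1, g2]
    · change g (f Polynomial.X) = Polynomial.X
      rw [fX, g1]
  have e2 : f.comp g = RingHom.id _ := by
    apply MvPolynomial.ringHom_ext
    · intro w
      rw [RingHom.comp_apply, gC, fC, RingHom.id_apply]
    · intro i
      rw [RingHom.comp_apply, RingHom.id_apply]
      fin_cases i
      · change f (g (X 0)) = X 0
        rw [g0, f0]
      · change f (g (X 1)) = X 1
        rw [g1, fX]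
      · change f (g (X 2)) = X 2
        rw [g2, f1]
  refine hypa_quot f g e1 e2 _ (F3 q h) ?_
  have h1 : f (Polynomial.C (dl q W) * Polynomial.X - Polynomial.C (gg q h)) = -(F3 q h) := by
    change f (Polynomial.C (X 0 ^ (q ^ 2) - X 0) * Polynomial.X -
      Polynomial.C (X 1 ^ q + X 1 - C h)) =
      -(X 2 ^ q + X 2 - ((X 0 ^ (q ^ 2) - X 0) * X 1 + C h))
    simp only [map_sub, map_add, map_mul, map_pow, fX, f0, f1, fC]
    ring
  rw [h1]
  exact Ideal.span_singleton_neg _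

end Pool.Agent.HPow
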