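import Pool.Agent.HPow.Loc
import Pool.Agent.HPow.Cl

/-!
# HPow, module Piv: elimination of a variable
-/

set_option autoImplicit false
set_option linter.unusedSectionVars false
set_option linter.style.haveILetI false

namespace Pool.Agent.HPow

open Function Polynomial Pool.Agent.Helper11

variable {p : ℕ} {R : Type} [CommRing R]

/-- a ring homomorphism which becomes an isomorphism after inverting `s` -/
theorem piv_almost_iso {T' T : Type} [CommRing T'] [CommRing T] [IsNoetherianRing T']
    (g : T' →+* T) (s' : T') (s : T) (hs : g s' = s)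
    (h1 : ∀ t : T, ∃ (m : ℕ) (t' : T'), s ^ m * t = g t')
    (h2 : ∀ t' : T', g t' = 0 → ∃ m : ℕ, s' ^ m * t' = 0) (h : GoodP p T') :
    GoodP p (Localization.Away s) := by
  letI : Algebra T' (Localization.Away s) :=
    ((algebraMap T (Localization.Away s)).comp g).toAlgebra
  have halg : ∀ t', algebraMap T' (Localization.Away s) t' =
    algebraMap T (Localization.Away s) (g t') := fun t' => rfl
  haveI : IsLocalization.Away s' (Localization.Away s) := by
    refine { map_units := ?_, surj := ?_, exists_of_eq := ?_ }
    · rintro ⟨_, n, rfl⟩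
      rw [halg]
      show IsUnit (algebraMap T (Localization.Away s) (g (s' ^ n)))
      rw [map_pow, hs, map_pow]
      exact (IsLocalization.Away.algebraMap_isUnit s).pow n
    · intro z
      obtain ⟨n, t, hz⟩ := IsLocalization.Away.surj s z
      obtain ⟨m, t', ht⟩ := h1 t
      refine ⟨(t', ⟨s' ^ (n + m), n + m, rfl⟩), ?_⟩
      rw [halg, halg]
      show z * algebraMap T (Localization.Away s) (g (s' ^ (n + m))) = _
      rw [map_pow, hs, map_pow, pow_add, ← mul_assoc, hz, ← map_pow, ← map_mul, mul_comm t, ht]
    · intro x y hxy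
      rw [halg, halg] at hxy
      obtain ⟨⟨_, n, rfl⟩, hc⟩ := (IsLocalization.eq_iff_exists (Submonoid.powers s) _).1 hxy
      have hc' : s ^ n * g x = s ^ n * g y := hc
      have h3 : g (s' ^ n * (x - y)) = 0 := by
        rw [map_mul, map_pow, hs, map_sub, mul_sub, hc', sub_self]
      obtain ⟨m, hm⟩ := h2 _ h3
      refine ⟨⟨s' ^ (m + n), m + n, rfl⟩, ?_⟩
      show s' ^ (m + n) * x = s' ^ (m + n) * y
      rw [← sub_eq_zero, ← mul_sub, pow_add, mul_assoc]
      exact hm
  exact GoodP.away s' h

/-- the hypersurface `δ x = g` over `R` -/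
theorem GoodP.pivot [IsNoetherianRing R] (δ g : R) (h1 : GoodP p R)
    (h2 : GoodP p (R ⧸ Ideal.span {δ, g})) : GoodP p (R[X] ⧸ Ideal.span {C δ * X - C g}) := by
  set J : Ideal R[X] := Ideal.span {C δ * X - C g} with hJ
  set T := R[X] ⧸ J with hT
  let mk : R[X] →+* T := Ideal.Quotient.mk J
  let s : T := mk (C δ)
  have hrel : s * mk X = mk (C g) := by
    rw [← sub_eq_zero]
    show mk (C δ) * mk X - mk (C g) = 0
    rw [← map_mul, ← map_sub]
    exact Ideal.Quotient.eq_zero_iff_mem.2 (Ideal.mem_span_singleton_self _)
  refine GoodP.of_away (V := Localization.Away s) s ?_ ?_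
  · have e : GoodP p ((R ⧸ Ideal.span {δ, g})[X]) := h2.polynomial
    have e1 := GoodP.of_equiv (Ideal.polynomialQuotientEquivQuotientPolynomial
      (Ideal.span {δ, g})) e
    have h3 : (Ideal.span {δ, g}).map C = J ⊔ Ideal.span {C δ} := by
      rw [Ideal.map_span, Set.image_insert_eq, Set.image_singleton]
      apply le_antisymm
      · rw [Ideal.span_le]
        rintro x (rfl | rfl)
        · exact Ideal.mem_sup_right (Ideal.mem_span_singleton_self _)
        · have : C g = C δ * X - (C δ * X - C g) := by ring
          rw [SetLike.mem_coe, this]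
          exact sub_mem (Ideal.mul_mem_right _ _
            (Ideal.mem_sup_right (Ideal.mem_span_singleton_self _)))
            (Ideal.mem_sup_left (Ideal.mem_span_singleton_self _))
      · rw [sup_le_iff]
        constructor
        · rw [hJ, Ideal.span_singleton_le_iff_mem]
          exact sub_mem (Ideal.mul_mem_right _ _ (Ideal.subset_span (by simp)))
            (Ideal.subset_span (by simp))
        · rw [Ideal.span_singleton_le_iff_mem]
          exact Ideal.subset_span (by simp)
    rw [h3] at e1
    refine GoodP.of_equiv ((DoubleQuot.quotQuotEquivQuotSup J (Ideal.span {C δ})).symm.trans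
      (Ideal.quotEquivOfEq ?_)) e1
    rw [Ideal.map_span, Set.image_singleton]
  · refine piv_almost_iso (mk.comp C) δ s rfl ?_ ?_ h1
    · intro t
      obtain ⟨P, rfl⟩ := Ideal.Quotient.mk_surjective t
      induction P using Polynomial.induction_on with
      | C a => exact ⟨0, a, by rw [pow_zero, one_mul]; rfl⟩
      | add P Q hP hQ =>
        obtain ⟨m, a, ha⟩ := hP
        obtain ⟨n, b, hb⟩ := hQ
        refine ⟨m + n, δ ^ n * a + δ ^ m * b, ?_⟩
        rw [map_add, mul_add, map_add, map_mul, map_mul, ← ha, ← hb, map_pow, map_pow]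
        show s ^ (m + n) * _ + s ^ (m + n) * _ = s ^ n * _ + s ^ m * _
        rw [pow_add]
        ring
      | monomial n a _ =>
        refine ⟨n + 1, g ^ (n + 1) * a, ?_⟩
        have e1 : s ^ (n + 1) * mk (C a * X ^ (n + 1)) = (s * mk X) ^ (n + 1) * mk (C a) := by
          rw [map_mul, map_pow, mul_pow]; ring
        have e2 : (mk.comp C) (g ^ (n + 1) * a) = mk (C g) ^ (n + 1) * mk (C a) := by
          show mk (C (g ^ (n + 1) * a)) = _
          rw [C_mul, C_pow, map_mul, map_pow]
        rw [e2, ← hrel]
        exact e1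
    · intro r hr
      have hr' : C r ∈ J := Ideal.Quotient.eq_zero_iff_mem.1 hr
      obtain ⟨Q, hQ⟩ := Ideal.mem_span_singleton'.1 hr'
      have h0 : r = - (g * Q.coeff 0) := by
        have := congrArg (fun P => coeff P 0) hQ
        simp only [mul_sub, coeff_sub, coeff_C_zero] at this
        rw [← this, ← mul_assoc, coeff_mul_X_zero, coeff_mul_C, mul_comm]
        ring
      have hi : ∀ i, δ * Q.coeff i = g * Q.coeff (i + 1) := by
        intro i
        have := congrArg (fun P => coeff P (i + 1)) hQ
        simp only [mul_sub, coeff_sub] at this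
        rw [← mul_assoc, coeff_mul_X, coeff_mul_C, coeff_mul_C, coeff_C_succ, sub_eq_zero] at this
        rw [mul_comm δ, this, mul_comm]
      have hm : ∀ m, δ ^ m * Q.coeff 0 = g ^ m * Q.coeff m := by
        intro m
        induction m with
        | zero => simp
        | succ m ih =>
          rw [pow_succ, mul_comm (δ ^ m), mul_assoc, ih, mul_left_comm, hi m, pow_succ]
          ring
      refine ⟨Q.natDegree + 1, ?_⟩
      rw [h0, mul_neg, neg_eq_zero, mul_left_comm, hm,
        coeff_eq_zero_of_natDegree_lt (Nat.lt_succ_self _), mul_zero, mul_zero]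

end Pool.Agent.HPow
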