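import Pool.Agent.HPow.HypA
import Pool.Agent.HPow.Piv
import Pool.Agent.HPow.Spl
import Pool.Agent.HPow.Fre

/-!
# HPow, module HypB: adding a hyperbolic plane
-/

set_option autoImplicit false
set_option linter.unusedSectionVars false
set_option linter.style.haveILetI false

namespace Pool.Agent.HPow

open Function Polynomial Pool.Agent.Helper11

variable {p m q t : ℕ} {k : Type} [Field k] {W : Type} [CommRing W] [Algebra k W]

/-- two homomorphisms out of `AdjoinRoot` agree -/
theorem hypb_ext {R B : Type} [CommRing R] [CommRing B] {f : R[X]} (φ ψ : AdjoinRoot f →+* B)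
    (h0 : ∀ r, φ (AdjoinRoot.of f r) = ψ (AdjoinRoot.of f r))
    (h1 : φ (AdjoinRoot.root f) = ψ (AdjoinRoot.root f)) : φ = ψ := by
  have h : φ.comp (AdjoinRoot.mk f) = ψ.comp (AdjoinRoot.mk f) := by
    refine Polynomial.ringHom_ext (fun r => h0 r) h1
  refine RingHom.ext fun x => ?_
  obtain ⟨P, rfl⟩ := AdjoinRoot.mk_surjective x
  exact congrArg (fun φ => φ P) h

/-- the isomorphism used in `good_fibres` -/
theorem hypb_iso (q : ℕ) {W : Type} [CommRing W] (h : W) :
    Nonempty (AdjoinRoot (X ^ (q ^ 2) - X : (AS1 q W h)[X]) ≃+*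
      (MvPolynomial (Fin 2) W ⧸ Ideal.span {dl q W, gg q h})) := by
  let I : Ideal (MvPolynomial (Fin 2) W) := Ideal.span {dl q W, gg q h}
  let mk : MvPolynomial (Fin 2) W →+* (MvPolynomial (Fin 2) W ⧸ I) := Ideal.Quotient.mk I
  let B := AS1 q W h
  let D := AdjoinRoot (X ^ (q ^ 2) - X : B[X])
  have e1 : mk (MvPolynomial.X 1) ^ q + mk (MvPolynomial.X 1) - mk (MvPolynomial.C h) = 0 := by
    rw [← map_pow, ← map_add, ← map_sub]
    exact Ideal.Quotient.eq_zero_iff_mem.2 (Ideal.subset_span (by simp))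
  have e0 : mk (MvPolynomial.X 0) ^ (q ^ 2) - mk (MvPolynomial.X 0) = 0 := by
    rw [← map_pow, ← map_sub]
    exact Ideal.Quotient.eq_zero_iff_mem.2 (Ideal.subset_span (by simp))
  let a : B →+* (MvPolynomial (Fin 2) W ⧸ I) :=
    AdjoinRoot.lift (mk.comp MvPolynomial.C) (mk (MvPolynomial.X 1)) (by
      rw [eval₂_sub, eval₂_add, eval₂_pow, eval₂_X, eval₂_C]
      exact e1)
  let b : D →+* (MvPolynomial (Fin 2) W ⧸ I) :=
    AdjoinRoot.lift a (mk (MvPolynomial.X 0)) (by
      rw [eval₂_sub, eval₂_pow, eval₂_X]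
      exact e0)
  let y : D := AdjoinRoot.of _ (AdjoinRoot.root (X ^ q + X - C h : W[X]))
  let c : D := AdjoinRoot.root (X ^ (q ^ 2) - X : B[X])
  have f1 : y ^ q + y - AdjoinRoot.of _ (AdjoinRoot.of (X ^ q + X - C h : W[X]) h) = 0 := by
    have := AdjoinRoot.eval₂_root (X ^ q + X - C h : W[X])
    rw [eval₂_sub, eval₂_add, eval₂_pow, eval₂_X, eval₂_C] at this
    have h2 := congrArg (AdjoinRoot.of (X ^ (q ^ 2) - X : B[X])) this
    rw [map_sub, map_add, map_pow, map_zero] at h2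
    exact h2
  have f0 : c ^ (q ^ 2) - c = 0 := by
    have := AdjoinRoot.eval₂_root (X ^ (q ^ 2) - X : B[X])
    rw [eval₂_sub, eval₂_pow, eval₂_X] at this
    exact this
  let w : W →+* D := (AdjoinRoot.of (X ^ (q ^ 2) - X : B[X])).comp
    (AdjoinRoot.of (X ^ q + X - C h : W[X]))
  let g0 : MvPolynomial (Fin 2) W →+* D := MvPolynomial.eval₂Hom w ![c, y]
  have g00 : g0 (MvPolynomial.X 0) = c := by
    show MvPolynomial.eval₂Hom w ![c, y] (MvPolynomial.X 0) = c
    rw [MvPolynomial.eval₂Hom_X']; rfl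
  have g01 : g0 (MvPolynomial.X 1) = y := by
    show MvPolynomial.eval₂Hom w ![c, y] (MvPolynomial.X 1) = y
    rw [MvPolynomial.eval₂Hom_X']; rfl
  have g0C : ∀ r, g0 (MvPolynomial.C r) = w r := fun r => MvPolynomial.eval₂Hom_C _ _ _
  let g : (MvPolynomial (Fin 2) W ⧸ I) →+* D := Ideal.Quotient.lift I g0 (by
    intro x hx
    have hle : I ≤ RingHom.ker g0 := by
      refine Ideal.span_le.2 ?_
      rintro z (rfl | rfl)
      · rw [SetLike.mem_coe, RingHom.mem_ker, map_sub, map_pow, g00]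
        exact f0
      · rw [SetLike.mem_coe, RingHom.mem_ker, map_sub, map_add, map_pow, g01, g0C]
        exact f1
    exact hle hx)
  have gmk : ∀ x, g (mk x) = g0 x := fun x => Ideal.Quotient.lift_mk _ _ _
  have b_root : b c = mk (MvPolynomial.X 0) := AdjoinRoot.lift_root _
  have b_of : ∀ x, b (AdjoinRoot.of _ x) = a x := fun x => AdjoinRoot.lift_of _
  have a_root : a (AdjoinRoot.root _) = mk (MvPolynomial.X 1) := AdjoinRoot.lift_root _
  have a_of : ∀ x, a (AdjoinRoot.of _ x) = mk (MvPolynomial.C x) := fun x => AdjoinRoot.lift_of _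
  refine ⟨RingEquiv.ofRingHom b g ?_ ?_⟩
  · refine Ideal.Quotient.ringHom_ext (MvPolynomial.ringHom_ext (fun r => ?_) (fun i => ?_))
    · show b (g (mk (MvPolynomial.C r))) = mk (MvPolynomial.C r)
      rw [gmk, g0C]
      show b (AdjoinRoot.of _ (AdjoinRoot.of _ r)) = _
      rw [b_of, a_of]
    · show b (g (mk (MvPolynomial.X i))) = mk (MvPolynomial.X i)
      rw [gmk]
      fin_cases i
      · show b (g0 (MvPolynomial.X 0)) = mk (MvPolynomial.X 0)
        rw [g00, b_root]
      · show b (g0 (MvPolynomial.X 1)) = mk (MvPolynomial.X 1)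
        rw [g01]
        show b (AdjoinRoot.of _ (AdjoinRoot.root _)) = _
        rw [b_of, a_root]
  · refine hypb_ext _ _ (fun x => ?_) ?_
    · have h3 : (g.comp (b.comp (AdjoinRoot.of (X ^ (q ^ 2) - X : B[X])))) =
          AdjoinRoot.of (X ^ (q ^ 2) - X : B[X]) := by
        refine hypb_ext _ _ (fun r => ?_) ?_
        · show g (b (AdjoinRoot.of _ (AdjoinRoot.of _ r))) = w r
          rw [b_of, a_of, gmk, g0C]
        · show g (b (AdjoinRoot.of _ (AdjoinRoot.root _))) = y
          rw [b_of, a_root, gmk, g01]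
      exact congrArg (fun φ => φ x) h3
    · show g (b c) = c
      rw [b_root, gmk, g00]

/-- the zero set of `c ^ (q ^ 2) - c` and `y ^ q + y - h` over `W[c, y]` -/
theorem good_fibres (hk : Setg p m q t k) [IsNoetherianRing W] (h : W)
    (h1 : GoodP p (AS1 q W h)) :
    GoodP p (MvPolynomial (Fin 2) W ⧸ Ideal.span {dl q W, gg q h}) := by
  obtain ⟨e⟩ := hypb_iso q h
  obtain ⟨s, hs⟩ := hk.prod_sq
  haveI : IsNoetherianRing (AS1 q W h) :=
    isNoetherianRing_of_surjective _ _ (AdjoinRoot.mk _) AdjoinRoot.mk_surjective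
  refine GoodP.of_equiv e (GoodP.split' h1 _
    (s.map ((AdjoinRoot.of (X ^ q + X - C h : W[X])).comp (algebraMap k W))) ?_)
  have h2 := congrArg (Polynomial.map
    ((AdjoinRoot.of (X ^ q + X - C h : W[X])).comp (algebraMap k W))) hs
  rw [Polynomial.map_sub, Polynomial.map_pow, Polynomial.map_X, Polynomial.map_multiset_prod,
    Multiset.map_map] at h2
  rw [h2, Multiset.map_map]
  congr 1
  refine Multiset.map_congr rfl fun x _ => ?_
  rw [Function.comp_apply, Function.comp_apply, Polynomial.map_sub, Polynomial.map_X,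
    Polynomial.map_C]

/-- **adding a hyperbolic plane** -/
theorem hyp_good (hk : Setg p m q t k) [IsNoetherianRing W] (h : W) (h0 : GoodP p W)
    (h1 : GoodP p (AS1 q W h)) (b1 b2 : k) (hb1 : b1 ^ q = b1) (hb2 : b2 ^ q = b2)
    (hb10 : b1 ≠ 0) (hb20 : b2 ≠ 0) :
    GoodP p (AS1 q W[X][X] (ext q (ext q h b1) b2)) := by
  have g1 := GoodP.pivot (dl q W) (gg q h) (h0.mvPolynomial (Fin 2)) (good_fibres hk h h1)
  obtain ⟨e3⟩ := iso_elim q h
  have g2 := GoodP.of_equiv e3 g1
  obtain ⟨e2⟩ := iso_sub hk h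
  have g3 := GoodP.of_equiv e2 g2
  obtain ⟨e1⟩ := iso_rad hk h
  have g4 := GoodP.of_equiv e1 g3
  have hq1 := hk.q_two_le
  have g5 : GoodP p (W3 (F1 q h)) := by
    cases subsingleton_or_nontrivial (W3 (F1 q h)) with
    | inl hR => exact GoodP.of_subsingleton p _
    | inr hR =>
      refine GoodP.of_monic _ (monic_X_pow_sub_C _ (by omega)) m ?_ g4
      rw [natDegree_X_pow_sub_C]
      exact hk.hq
  obtain ⟨e0⟩ := iso_hyp hk h b1 b2 hb1 hb2 hb10 hb20
  exact GoodP.of_equiv e0 g5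

end Pool.Agent.HPow
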