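import Pool.Agent.HPow.Fin

/-!
# `K'₀` of powers of the Hermitian curve and of Hermitian hypersurfaces
-/

namespace Pool.Agent.HPow.OldHermitianPowers

open Pool.Agent.Helper11 MvPolynomial

/-- Let `q = p ^ m` be a power of the prime `p`, let `k` be a finite field containing `𝔽_{q²}` and
let `a` be a matrix with entries in `𝔽_q ⊆ k`. Let `V` be the coordinate ring of the affine scheme
`y_i ^ q + y_i = ∑ a i j x_j ^ (q + 1)`, `i = 1, …, s`, over `k`. Then `K'₀(V)` has a finitely
generated subgroup `Γ` such that `K'₀(V) ⧸ Γ` is killed by a power of `p`. For the identity matrix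
`Spec V` is the `s`-th power of the affine Hermitian curve `y ^ q + y = x ^ (q + 1)`, for `s = 1` it
is an affine Hermitian variety of dimension `n`. -/
theorem result {p m q t : ℕ} (hp : p.Prime) (hm : 1 ≤ m) (hq : q = p ^ m) (ht : 1 ≤ t)
    {k : Type} [Field k] (hk : Nat.card k = q ^ (2 * t)) {s n : ℕ} (a : Fin s → Fin n → k)
    (ha : ∀ i j, a i j ^ q = a i j) :
    ∃ Γ : AddSubgroup (G0 (MvPolynomial (Fin s ⊕ Fin n) k ⧸ Ideal.span (Set.range fun i =>
      X (Sum.inl i) ^ q + X (Sum.inl i) - ∑ j, C (a i j) * X (Sum.inr j) ^ (q + 1)))),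
      Γ.FG ∧ ∃ e : ℕ, ∀ x, p ^ e • x ∈ Γ :=
  Pool.Agent.HPow.main ⟨hp, hm, hq, ht, hk⟩ a ha

end Pool.Agent.HPow.OldHermitianPowers
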