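import Pool.Agent.HPow.HypB
import Pool.Agent.HPow.Curve

/-!
# HPow, module Stp: one equation
-/

set_option autoImplicit false
set_option linter.unusedSectionVars false
set_option linter.style.haveILetI false

namespace Pool.Agent.HPow

open Function Polynomial Pool.Agent.Helper11

variable {p m q t : ℕ} {k : Type} [Field k] {W : Type} [CommRing W] [Algebra k W]

/-- the induction hypothesis -/
def G2 (p q : ℕ) (k : Type) [Field k] (W : Type) [CommRing W] [Algebra k W] (h : W) : Prop :=
  GoodP p W ∧ GoodP p (AS1 q W h) ∧ ∀ b : k, b ^ q = b → GoodP p (AS1 q W[X] (ext q h b))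

/-- transport of structure -/
theorem stp_congr (q : ℕ) {R R' : Type} [CommRing R] [CommRing R'] (e : R ≃+* R') (h : R) (h' : R')
    (hh : e h = h') : Nonempty (AS1 q R h ≃+* AS1 q R' h') := by
  refine ⟨AdjoinRoot.mapRingEquiv e _ _ ?_⟩
  rw [Polynomial.map_sub, Polynomial.map_add, Polynomial.map_pow, Polynomial.map_X,
    Polynomial.map_C]
  show Associated (X ^ q + X - C (e h)) _
  rw [hh]

/-- the isomorphism used in `good_add` -/
theorem stp_iso (q : ℕ) {W : Type} [CommRing W] (h : W) :
    Nonempty ((AS1 q W h)[X] ≃+* AS1 q W[X] (C h)) := by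
  let B := AS1 q W h
  let D := AS1 q W[X] (C h)
  let F : W[X] := X ^ q + X - C h
  let G : W[X][X] := X ^ q + X - C (C h)
  have e1 : (AdjoinRoot.root F : B) ^ q + AdjoinRoot.root F - AdjoinRoot.of F h = 0 := by
    have := AdjoinRoot.eval₂_root F
    rw [eval₂_sub, eval₂_add, eval₂_pow, eval₂_X, eval₂_C] at this
    exact this
  have e2 : (AdjoinRoot.root G : D) ^ q + AdjoinRoot.root G - AdjoinRoot.of G (C h) = 0 := by
    have := AdjoinRoot.eval₂_root G
    rw [eval₂_sub, eval₂_add, eval₂_pow, eval₂_X, eval₂_C] at this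
    exact this
  let a : B →+* D := AdjoinRoot.lift ((AdjoinRoot.of G).comp C) (AdjoinRoot.root G) (by
    rw [eval₂_sub, eval₂_add, eval₂_pow, eval₂_X, eval₂_C]
    exact e2)
  have a_of : ∀ r, a (AdjoinRoot.of F r) = AdjoinRoot.of G (C r) := fun r => AdjoinRoot.lift_of _
  have a_root : a (AdjoinRoot.root F) = AdjoinRoot.root G := AdjoinRoot.lift_root _
  let f : B[X] →+* D := Polynomial.eval₂RingHom a (AdjoinRoot.of G X)
  have f_C : ∀ x, f (C x) = a x := fun x => Polynomial.eval₂_C _ _
  have f_X : f X = AdjoinRoot.of G X := Polynomial.eval₂_X _ _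
  let g : D →+* B[X] := AdjoinRoot.lift (Polynomial.mapRingHom (AdjoinRoot.of F))
    (C (AdjoinRoot.root F)) (by
      rw [eval₂_sub, eval₂_add, eval₂_pow, eval₂_X, eval₂_C]
      show _ + _ - Polynomial.map (AdjoinRoot.of F) (C h) = 0
      rw [Polynomial.map_C, ← C_pow, ← C_add, ← C_sub, e1, C_0])
  have g_of : ∀ x, g (AdjoinRoot.of G x) = Polynomial.map (AdjoinRoot.of F) x :=
    fun x => AdjoinRoot.lift_of _
  have g_root : g (AdjoinRoot.root G) = C (AdjoinRoot.root F) := AdjoinRoot.lift_root _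
  refine ⟨RingEquiv.ofRingHom f g ?_ ?_⟩
  · refine hypb_ext _ _ (fun x => ?_) ?_
    · have h3 : (f.comp (g.comp (AdjoinRoot.of G))) = AdjoinRoot.of G := by
        refine Polynomial.ringHom_ext (fun r => ?_) ?_
        · show f (g (AdjoinRoot.of G (C r))) = AdjoinRoot.of G (C r)
          rw [g_of, Polynomial.map_C, f_C, a_of]
        · show f (g (AdjoinRoot.of G X)) = AdjoinRoot.of G X
          rw [g_of, Polynomial.map_X, f_X]
      exact congrArg (fun φ => φ x) h3
    · show f (g (AdjoinRoot.root G)) = AdjoinRoot.root G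
      rw [g_root, f_C, a_root]
  · refine Polynomial.ringHom_ext (fun x => ?_) ?_
    · have h3 : (g.comp (f.comp C)) = (C : B →+* B[X]) := by
        refine hypb_ext _ _ (fun r => ?_) ?_
        · show g (f (C (AdjoinRoot.of F r))) = C (AdjoinRoot.of F r)
          rw [f_C, a_of, g_of, Polynomial.map_C]
        · show g (f (C (AdjoinRoot.root F))) = C (AdjoinRoot.root F)
          rw [f_C, a_root, g_root]
      exact congrArg (fun φ => φ x) h3
    · show g (f X) = X
      rw [f_X, g_of, Polynomial.map_X]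

/-- a variable which does not occur -/
theorem good_add (q : ℕ) [IsNoetherianRing W] (h : W) (h1 : GoodP p (AS1 q W h)) :
    GoodP p (AS1 q W[X] (C h)) := by
  obtain ⟨e⟩ := stp_iso q h
  haveI : IsNoetherianRing (AS1 q W h) :=
    isNoetherianRing_of_surjective _ _ (AdjoinRoot.mk _) AdjoinRoot.mk_surjective
  exact GoodP.of_equiv e h1.polynomial

theorem stp_ext_zero (q : ℕ) (h : W) : ext q h (0 : k) = C h := by
  rw [ext, map_zero, C_0, zero_mul, add_zero]

/-- interchange of two variables -/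
theorem iso_swap2 (q : ℕ) (h : W) (b1 b2 : k) :
    Nonempty (AS1 q W[X][X] (ext q (ext q h b1) b2) ≃+* AS1 q W[X][X] (ext q (ext q h b2) b1)) := by
  refine stp_congr q (Polynomial.Bivariate.swap (R := W)).toRingEquiv _ _ ?_
  show Polynomial.Bivariate.swap (ext q (ext q h b1) b2) = _
  simp only [ext, map_add, map_mul, map_pow, Polynomial.Bivariate.swap_C_C,
    Polynomial.Bivariate.swap_X, Polynomial.Bivariate.swap_Y, Polynomial.algebraMap_apply]
  ring

theorem G2.step (hk : Setg p m q t k) [IsNoetherianRing W] (h : W) (hG : G2 p q k W h) (b : k)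
    (hb : b ^ q = b) : G2 p q k W[X] (ext q h b) := by
  refine ⟨hG.1.polynomial, hG.2.2 b hb, fun b' hb' => ?_⟩
  by_cases h0 : b' = 0
  · subst h0
    rw [stp_ext_zero]
    exact good_add q _ (hG.2.2 b hb)
  · by_cases h1 : b = 0
    · subst h1
      obtain ⟨e⟩ := iso_swap2 q h b' (0 : k)
      refine GoodP.of_equiv e ?_
      rw [stp_ext_zero]
      exact good_add q _ (hG.2.2 b' hb')
    · exact hyp_good hk h hG.1 hG.2.1 b b' hb hb' h1 h0

theorem G2.base (hk : Setg p m q t k) : G2 p q k k (0 : k) := by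
  have h0 : GoodP p k := GoodP.of_finGn p (Pool.Agent.Helper67.Bass.FinGn.of_pid k)
  refine ⟨h0, ?_, fun b hb => curve_good hk _⟩
  obtain ⟨s, hs⟩ := hk.prod_tr
  exact GoodP.split' h0 _ s (by rw [C_0, sub_zero, hs])

theorem G2.of_equiv {W' : Type} [CommRing W'] [Algebra k W'] (e : W ≃ₐ[k] W') (h : W)
    (hG : G2 p q k W h) : G2 p q k W' (e h) := by
  refine ⟨GoodP.of_equiv e.toRingEquiv hG.1, ?_, fun b hb => ?_⟩
  · obtain ⟨e1⟩ := stp_congr q e.toRingEquiv h (e h) rfl
    exact GoodP.of_equiv e1 hG.2.1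
  · obtain ⟨e1⟩ := stp_congr q (Polynomial.mapEquiv e.toRingEquiv) (ext q h b) (ext q (e h) b) (by
      show Polynomial.map (e.toRingEquiv : W →+* W') (ext q h b) = _
      rw [ext, ext, Polynomial.map_add, Polynomial.map_mul, Polynomial.map_pow, Polynomial.map_X,
        Polynomial.map_C, Polynomial.map_C]
      show C (e h) + C (e (algebraMap k W b)) * _ = _
      rw [AlgEquiv.commutes])
    exact GoodP.of_equiv e1 (hG.2.2 b hb)

theorem herm_good (hk : Setg p m q t k) (n : ℕ) (b : Fin n → k) (hb : ∀ j, b j ^ q = b j) :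
    G2 p q k (MvPolynomial (Fin n) k)
      (∑ j, MvPolynomial.C (b j) * MvPolynomial.X j ^ (q + 1)) := by
  induction n with
  | zero =>
    have h1 := G2.of_equiv (MvPolynomial.isEmptyAlgEquiv k (Fin 0)).symm 0 (G2.base hk)
    rw [map_zero] at h1
    rw [Finset.univ_eq_empty, Finset.sum_empty]
    exact h1
  | succ n ih =>
    have h1 := G2.step hk _ (ih (fun j => b j.succ) (fun j => hb j.succ)) (b 0) (hb 0)
    have h2 := G2.of_equiv (MvPolynomial.finSuccEquiv k n).symm _ h1
    have h3 : (MvPolynomial.finSuccEquiv k n).symm (ext q (∑ j : Fin n,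
        MvPolynomial.C (b j.succ) * MvPolynomial.X j ^ (q + 1)) (b 0)) =
        ∑ j, MvPolynomial.C (b j) * MvPolynomial.X j ^ (q + 1) := by
      rw [AlgEquiv.symm_apply_eq, Fin.sum_univ_succ, map_add, map_sum, map_mul, map_pow,
        MvPolynomial.finSuccEquiv_X_zero]
      have hC : ∀ c : k, MvPolynomial.finSuccEquiv k n (MvPolynomial.C c) =
          C (MvPolynomial.C c) := fun c => by
        rw [← MvPolynomial.algebraMap_eq, AlgEquiv.commutes]
        rfl
      simp only [map_mul, map_pow, MvPolynomial.finSuccEquiv_X_succ, hC, ext, map_sum,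
        MvPolynomial.algebraMap_eq]
      rw [add_comm]
    rw [h3] at h2
    exact h2

end Pool.Agent.HPow
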